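import Pool.Agent.MP_a9d3bd_w.IDefs
import Pool.Agent.MP_a9d3bd_s.Brg

/-! From functionals to cycles. -/

namespace Pool.Agent.MP_a9d3bd_s.W

open Function Matrix MvPolynomial Pool.Agent.MP_a9d3bd_q

variable {k Γ : Type} [Field k] [Group Γ] [Rl Γ] {N : ℕ} {S : Set (MvPolynomial (Fin N) k)}
  {ρ : Γ →* Matrix (Fin N) (Fin N) k}

theorem brg [IsAlgClosed k] (hS : Homog S) (st : (Act.lin ρ).Stab (coneS S))
    (h : PVan S (Act.lin ρ)) (L : Type) [Field L] [Algebra k L] (j : ℕ) :
    RatEq (MvPolynomial.map (algebraMap k L) '' S) j ⊔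
      Submodule.span ℚ {z | ∃ (C : Var (MvPolynomial.map (algebraMap k L) '' S) j)
        (I : Ideal (MvPolynomial (Fin N) k)),
        C.1.asIdeal = I.map (MvPolynomial.map (algebraMap k L)) ∧ z = Finsupp.single C 1} ⊔
      Submodule.span ℚ {z | ∃ g ∈ (Rl.Z : Subgroup Γ), ∃ C C' : Var (MvPolynomial.map (algebraMap k L) '' S) j,
        C'.1.asIdeal = C.1.asIdeal.comap
          (aeval fun c => ∑ c', MvPolynomial.C (algebraMap k L (ρ g c c')) * X c' :
            MvPolynomial (Fin N) L →ₐ[L] MvPolynomial (Fin N) L) ∧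
        z = Finsupp.single C 1 - Finsupp.single C' 1} ⊔
      Submodule.span ℚ {z | ∃ (C : Var (MvPolynomial.map (algebraMap k L) '' S) j)
        (D : ℕ → Var (MvPolynomial.map (algebraMap k L) '' S) j),
        (∀ i, (D i).1.asIdeal = C.1.asIdeal.comap
          (aeval fun c => ∑ c', MvPolynomial.C (algebraMap k L (ρ (Rl.s i) c c')) * X c' :
            MvPolynomial (Fin N) L →ₐ[L] MvPolynomial (Fin N) L)) ∧
        z = ∑ i ∈ Finset.range (Rl.m Γ), Finsupp.single (D i) 1} = ⊤ := by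
  by_contra hne
  obtain ⟨φ, hφ0, hφ⟩ := Submodule.exists_le_ker_of_lt_top _ (lt_top_iff_ne_top.2 hne)
  rw [sup_le_iff, sup_le_iff, sup_le_iff] at hφ
  obtain ⟨⟨⟨h1, h2⟩, h3⟩, h4⟩ := hφ
  have hT := homog_map (L := L) hS
  obtain ⟨Φ, hΦ, hval⟩ := br_one hT φ fun z hz => h1 hz
  obtain ⟨w, hw⟩ := hΦ.pre.exists_w
  have hwC : ∀ C : Var (MvPolynomial.map (algebraMap k L) '' S) j,
      w C.1 = φ (Finsupp.single C 1) := by
    intro C
    obtain ⟨-, c2, c3⟩ := (var_iff C.1).1 C.2
    obtain ⟨E, _, _, y, hE, hy, ht, hC⟩ := exists_gen C.1 c2 c3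
    rw [← hval E y C ht hC, hw E hE y hy, ht, hC, IntermediateField.finrank_top, Nat.cast_one,
      one_mul]
  have adm : AdmP L j S (Act.lin ρ) (brgCut (MvPolynomial.map (algebraMap k L) '' S) Φ) := by
    refine ⟨⟨brgCut_fn hT hΦ, fun E _ _ _ _ _ y hy => brgCut_neg Φ fun h' =>
      hy ((coneS_iff L y).2 h'), fun E _ _ _ _ hE y hy => ?_, fun g E _ _ _ _ hE y hy => ?_⟩,
      fun E _ _ _ _ hE y hy => ?_⟩
    · by_cases hc : y ≠ 0 ∧ On (MvPolynomial.map (algebraMap k L) '' S) y
      · rw [brgCut_pos Φ hc]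
        by_cases hnd : ND L y
        · have hj := (nd_iff hE y).1 hnd
          have e : φ (Finsupp.single (brgVar hT hc hj) 1) = 0 :=
            h2 (Submodule.subset_span ⟨brgVar hT hc hj, (hk k y).asIdeal,
              geo_hk hc.1 (hy.trans hj.ge), rfl⟩)
          rw [hw E hE y hc.1, show w (hk L y) = 0 from (hwC (brgVar hT hc hj)).trans e, mul_zero]
        · exact hΦ.pre.degen E hE y hnd
      · exact brgCut_neg Φ hc
    · obtain ⟨g, hg⟩ := g
      change brgCut _ Φ E ((Act.lin ρ).a g E y) = _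
      have hc := (coneS_iff L y).1 hy
      have hc' := (coneS_iff L _).1 (st g E y hy)
      rw [brgCut_pos Φ hc, brgCut_pos Φ hc']
      by_cases hnd : ND L y
      · have hj := (nd_iff hE y).1 hnd
        have hj' : td L (kf L ((Act.lin ρ).a g E y)) = j := by rw [kf_lin, hj]
        have e : φ (Finsupp.single (brgVar hT hc hj) 1 -
            Finsupp.single (brgVar hT hc' hj') 1) = 0 :=
          h3 (Submodule.subset_span 
            ⟨g, hg, brgVar hT hc hj, brgVar hT hc' hj', hk_lin L g y, rfl⟩)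
        rw [map_sub, sub_eq_zero, ← hwC, ← hwC] at e
        rw [hw E hE y hc.1, hw E hE _ hc'.1, kf_lin]
        exact congrArg _ e.symm
      · rw [hΦ.pre.degen E hE y hnd, hΦ.pre.degen E hE _ fun h' => hnd ?_]
        rw [nd_iff hE] at h' ⊢
        rwa [kf_lin] at h'
    · have hc := (coneS_iff L y).1 hy
      have hc' := fun g => (coneS_iff L _).1 (st g E y hy)
      simp only [fun g => brgCut_pos Φ (hc' g)]
      by_cases hnd : ND L y
      · have hj := (nd_iff hE y).1 hnd
        have hj' : ∀ g, td L (kf L ((Act.lin ρ).a g E y)) = j := fun g => by rw [kf_lin, hj]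
        have e : φ (∑ i ∈ Finset.range (Rl.m Γ),
            Finsupp.single (brgVar hT (hc' (Rl.s i)) (hj' _)) 1) = 0 :=
          h4 (Submodule.subset_span ⟨brgVar hT hc hj, fun i => brgVar hT (hc' (Rl.s i)) (hj' _),
            fun i => hk_lin L _ y, rfl⟩)
        rw [map_sum] at e
        simp only [← hwC] at e
        have e' : ∀ g, Φ E ((Act.lin ρ).a g E y) =
            Module.finrank (kf L y) E * w (hk L ((Act.lin ρ).a g E y)) := fun g => by
          rw [hw E hE _ (hc' g).1, kf_lin]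
        simp only [e']
        rw [← Finset.mul_sum]
        exact mul_eq_zero_of_right _ e
      · refine Finset.sum_eq_zero fun i _ => hΦ.pre.degen E hE _ fun h' => hnd ?_
        rw [nd_iff hE] at h' ⊢
        rwa [kf_lin] at h'
  refine hφ0 (Finsupp.lhom_ext fun C a => ?_)
  obtain ⟨c1, c2, c3⟩ := (var_iff C.1).1 C.2
  obtain ⟨E, _, _, y, hE, hy, ht, hC⟩ := exists_gen C.1 c2 c3
  have e := h L j _ adm E hE y
  rw [brgCut_pos Φ ⟨hy, (on_iff_hk hT y).2 (hC ▸ c1)⟩, hval E y C ht hC] at e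
  rw [LinearMap.zero_apply, ← mul_one a, ← smul_eq_mul, ← Finsupp.smul_single, map_smul, e,
    smul_zero]

end Pool.Agent.MP_a9d3bd_s.W
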