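import Pool.Agent.MP_a9d3bd_w.IDefs
import Pool.Agent.MP_a9d3bd_s.CDefs

/-! The geometric data: one group with a twisted Frobenius, and tuples. -/

namespace Pool.Agent.MP_a9d3bd_s.W

open Function Matrix MvPolynomial Pool.Agent.MP_a9d3bd_q

/-- A closed group with a triangular subgroup that is the stabiliser of a line with closed orbit,
a subgroup with a Lang map and an Artin-Schreier datum, and parabolic subgroups. -/
structure Core (k ι N Γ : Type) [Field k] [Fintype ι] [DecidableEq ι] [LinearOrder ι] [Fintype N]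
    [DecidableEq N] [Group Γ] [Rl Γ] : Type 1 where
  p : ℕ
  d : ℕ
  G : MFam k ι
  B : MFam k ι
  V : MFam k ι
  P : MFam k ι
  K : MFam k ι
  F : MM k ι ι
  α : MM k ι N
  v : N → k
  n₀ : N
  γm : Γ →* Matrix ι ι k
  ρ : Γ →* Matrix N N k
  χ : PFun k (ι × ι)
  lam : PFun k (ι × ι)
  lγ : Γ →* Multiplicative k
  gG : IsGrp G
  gB : IsGrp B
  gV : IsGrp V
  gP : IsGrp P
  gK : IsGrp K
  BP : B.Le P
  PG : P.Le G
  VB : V.Le B
  BK : B.Le K
  KP : K.Le P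
  KF : ∀ (Ω : Type) [Field Ω] [Algebra k Ω] g, K Ω g → P Ω (F Ω g)
  ut : B.UT
  nF : NatM F
  nα : NatM α
  v₀ : v n₀ = 1
  F_mul : ∀ (Ω : Type) [Field Ω] [Algebra k Ω] g g', G Ω g → G Ω g' →
    F Ω (g * g') = F Ω g * F Ω g'
  F_G : ∀ (Ω : Type) [Field Ω] [Algebra k Ω] g, G Ω g → G Ω (F Ω g)
  F_B : ∀ (Ω : Type) [Field Ω] [Algebra k Ω] g, B Ω g → B Ω (F Ω g)
  F_V : ∀ (Ω : Type) [Field Ω] [Algebra k Ω] g, V Ω g → V Ω (F Ω g)
  α_mul : ∀ (Ω : Type) [Field Ω] [Algebra k Ω] g g', G Ω g → G Ω g' →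
    α Ω (g * g') = α Ω g * α Ω g'
  α_one : ∀ (Ω : Type) [Field Ω] [Algebra k Ω], α Ω 1 = 1
  stab : ∀ (Ω : Type) [Field Ω] [Algebra k Ω] g, G Ω g →
    (B Ω g ↔ ∃ c : Ω, α Ω g *ᵥ cv Ω v = c • cv Ω v)
  cone : ∀ z : N → k, clo {w | ∃ g, ∃ c : k, G k g ∧ w = c • (α k g *ᵥ v)} k z →
    ∃ g, ∃ c : k, G k g ∧ z = c • (α k g *ᵥ v)
  bru : FinDC K B B
  γV : ∀ γ, V k (γm γ)
  γF : ∀ γ, F k (γm γ) = γm γ
  γρ : ∀ γ, ρ γ = α k (γm γ)
  LS : ∀ (Ω : Type) [Field Ω] [Algebra k Ω] [IsAlgClosed Ω] η, V Ω η →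
    ∃ h, V Ω h ∧ h.adjugate * F Ω h = η
  LP : ∀ (W : Plc k) (h : Matrix ι ι W.Ω) (η : Matrix ι ι W.O), V W.Ω h →
    h.adjugate * F W.Ω h = η.map W.i → ∃ h₀ : Matrix ι ι W.O, h₀.map W.i = h
  LF : ∀ (Ω : Type) [Field Ω] [Algebra k Ω] h, V Ω h → F Ω h = h → ∃ γ, h = cm Ω (γm γ)
  nχ : IsNatF χ
  nl : IsNatF lam
  aχ : AddOn V χ
  al : AddOn V lam
  AS : ∀ (Ω : Type) [Field Ω] [Algebra k Ω] g, V Ω g →
    χ Ω (um (F Ω g)) - χ Ω (um g) = lam Ω (um g) ^ p - lam Ω (um g)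
  γl : ∀ γ, (lγ γ).toAdd = lam k (um (γm γ))
  hZ : ∀ γ, (lγ γ).toAdd = 0 → γ ∈ (Rl.Z : Subgroup Γ)
  hm : 0 < Rl.m Γ
  onto : ∀ c : k, c ^ p = c → ∃ γ, (lγ γ).toAdd = c
  HL : ∃ Y : Finset (Matrix ι ι k), (∀ y ∈ Y, G k y) ∧ ∀ g, G k g →
    (∃ y ∈ Y, ∃ r r', V k r ∧ K k r' ∧ g = r * y * r') ∨
      ∃ c, LTF G V P F χ d k (Sum.elim (um g) c)

namespace Core

variable {k ι N Γ : Type} [Field k] [Fintype ι] [DecidableEq ι] [LinearOrder ι] [Fintype N]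
  [DecidableEq N] [Group Γ] [Rl Γ] (C : Core k ι N Γ)

/-- The group of the first descent. -/
def H : MFam k ι := C.G

/-- The point of the cone attached to a group element. -/
def pt {R : Type} [CommRing R] [Algebra k R] (g : Matrix ι ι R) : N → R := C.α R g *ᵥ cv R C.v

/-- The preimage of the Deligne-Lusztig variety in the group. -/
def Yh : MFam k ι := fun Ω _ _ g => C.G Ω g ∧ C.P Ω (g.adjugate * C.F Ω g)

/-- The equations of the Deligne-Lusztig variety. -/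
def eqs : Set (MvPolynomial N k) :=
  {f | (∃ d, f.IsHomogeneous d) ∧ ∀ g, C.Yh k g → eval (C.pt g) f = 0}

/-- The punctured cone over the Deligne-Lusztig variety. -/
def XC : Fam k N := coneS C.eqs

/-- A translate of `Yh`. -/
def Q (y : Matrix ι ι k) : MFam k ι := fun Ω _ _ h => C.H Ω h ∧ C.Yh Ω (h * cm Ω y)

/-- A locally closed model of an orbit in the cone. -/
structure Orb1 (M : MFam k ι) (y : Matrix ι ι k) (Orb : Fam k N) : Prop where
  lc : LCl Orb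
  iff : ∀ (Ω : Type) [Field Ω] [Algebra k Ω] [IsAlgClosed Ω] z,
    Orb Ω z ↔ ∃ h, ∃ c : Ω, M Ω h ∧ c ≠ 0 ∧ z = c • C.pt (h * cm Ω y)
  hl : ∀ (V : Plc k) (o : N → V.O), Orb V.Ω (V.gen o) → Orb V.κ (V.sp o) →
    ∃ (h : Matrix ι ι V.O) (c : V.O), M V.Ω (h.map V.i) ∧ IsUnit c ∧
      o = c • C.pt (h * cm V.O y)

/-- The stratum of the cone. -/
def CY (Orb : Fam k N) : Fam k N := fun Ω _ _ z => C.XC Ω z ∧ Orb Ω z

/-- The total space of the first descent. -/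
def TA (y : Matrix ι ι k) : Fam k (Option (ι × ι) ⊕ ι × ι) := prodM (optN (C.Q y).fam) (Bf k ι)

/-- The group element of a point of `TA`. -/
def hA {R : Type} (t : Option (ι × ι) ⊕ ι × ι → R) : Matrix ι ι R :=
  mat fun c => t (Sum.inl (some c))

/-- The map of the first descent. -/
def aA (y : Matrix ι ι k) : PMap k (Option (ι × ι) ⊕ ι × ι) (N ⊕ ι × ι) := fun R _ _ t =>
  pr (t (Sum.inl none) • C.pt (hA t * cm R y)) (hA t * cm R y * sm t)

/-- The base of the first descent. -/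
def YA (y : Matrix ι ι k) : Fam k (N ⊕ ι × ι) := Im (C.aA y) (C.TA y)

/-- The action on the total space of the first descent. -/
def actT : Act k (Option (ι × ι) ⊕ ι × ι) Γ := (Act.lmul C.γm).opt.left (ι × ι)

/-- The action on the base of the first descent. -/
def actY : Act k (N ⊕ ι × ι) Γ := (Act.lin C.ρ).lm C.γm

/-- The Lang cover: pairs (g, h) with h in V and h g in Yh. -/
def TW : Fam k ((ι × ι) ⊕ ι × ι) :=
  fun Ω _ _ x => C.G Ω (mat (fs x)) ∧ C.V Ω (sm x) ∧ C.Yh Ω (sm x * mat (fs x))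

/-- The action on the Lang cover. -/
def actW : Act k ((ι × ι) ⊕ ι × ι) Γ := (Act.triv k (ι × ι) Γ).lm C.γm

/-- The first matrix of a point of `Dt`. -/
def gD {R : Type} (x : Option ((ι × ι) ⊕ ι × ι) → R) : Matrix ι ι R :=
  mat fun c => x (some (Sum.inl c))

/-- The second matrix of a point of `Dt`. -/
def eD {R : Type} (x : Option ((ι × ι) ⊕ ι × ι) → R) : Matrix ι ι R :=
  mat fun c => x (some (Sum.inr c))

/-- The point with two matrices and one more coordinate. -/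
def mkD {R : Type} (g η : Matrix ι ι R) (u : R) : Option ((ι × ι) ⊕ ι × ι) → R :=
  oext (pr (um g) η) u

/-- The Artin-Schreier cover of the base of the Lang cover. -/
def Dt : Fam k (Option ((ι × ι) ⊕ ι × ι)) :=
  fun Ω _ _ x => C.G Ω (gD x) ∧ C.V Ω (eD x) ∧ C.P Ω ((gD x).adjugate * eD x * C.F Ω (gD x)) ∧
    x none ^ C.p - x none = C.χ Ω (um (eD x))

/-- The action on `Dt`. -/
def actD : Act k (Option ((ι × ι) ⊕ ι × ι)) Γ := trA _ C.lγ

/-- The family of group elements with curves. -/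
def LT : Fam k ((ι × ι) ⊕ CI ι C.d) := LTF C.G C.V C.P C.F C.χ C.d

/-- The part of `Dt` over a family of matrices. -/
def DO (Orb : MFam k ι) : Fam k (Option ((ι × ι) ⊕ ι × ι)) :=
  fun Ω _ _ x => C.Dt Ω x ∧ Orb Ω (gD x)

/-- The parameter space of the part of `Dt` over a double coset: points (m, w, s, t). -/
def TO (y : Matrix ι ι k) : Fam k (Option (((ι × ι) ⊕ ι × ι) ⊕ ι × ι)) :=
  asP C.p (prodM C.K.fam C.V) (inM C.V (cjM C.P y.adjugate)) C.χ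

/-- The first matrix of a point of `TO`. -/
def mO {R : Type} (x : Option (((ι × ι) ⊕ ι × ι) ⊕ ι × ι) → R) : Matrix ι ι R :=
  mat fun c => x (some (Sum.inl (Sum.inl c)))

/-- The second matrix of a point of `TO`. -/
def wO {R : Type} (x : Option (((ι × ι) ⊕ ι × ι) ⊕ ι × ι) → R) : Matrix ι ι R :=
  mat fun c => x (some (Sum.inl (Sum.inr c)))

/-- The third matrix of a point of `TO`. -/
def sO {R : Type} (x : Option (((ι × ι) ⊕ ι × ι) ⊕ ι × ι) → R) : Matrix ι ι R :=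
  mat fun c => x (some (Sum.inr c))

/-- The point with three matrices and one more coordinate. -/
def mkO {R : Type} (m w s : Matrix ι ι R) (t : R) : Option (((ι × ι) ⊕ ι × ι) ⊕ ι × ι) → R :=
  oext (pr (pr (um m) w) s) t

/-- The parametrisation of the part of `Dt` over a double coset. -/
def aO (y η : Matrix ι ι k) (u : k) :
    PMap k (Option (((ι × ι) ⊕ ι × ι) ⊕ ι × ι)) (Option ((ι × ι) ⊕ ι × ι)) := fun R _ _ x =>
  mkD ((wO x).adjugate * cm R y * mO x) ((wO x).adjugate * sO x * cm R η * C.F R (wO x))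
    (x none + algebraMap k R u + C.lam R (um (wO x)))

/-- The action of the structure group of the parametrisation. -/
def μO (y η : Matrix ι ι k) : PMM k (Option (((ι × ι) ⊕ ι × ι) ⊕ ι × ι)) ι := fun R _ _ x s =>
  mkO ((cm R y).adjugate * s * cm R y * mO x) (s * wO x)
    (s * sO x * cm R η * (C.F R s).adjugate * (cm R η).adjugate) (x none - C.lam R (um s))

/-- The points of `Dt` with curves. -/
def DL (T : Fam k ((ι × ι) ⊕ CI ι C.d)) : Fam k (Option ((ι × ι) ⊕ ι × ι) ⊕ CI ι C.d) :=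
  fun Ω _ _ z => C.Dt Ω (fs z) ∧ T Ω (Sum.elim (um (gD (fs z))) fun s => z (Sum.inr s))

end Core

/-- The data for tuples. -/
structure Tup (k : Type) (n l : ℕ) (Γ : Type) [Field k] [Group Γ] [Rl Γ] : Type 1 where
  p : ℕ
  d : ℕ
  G : MFam k (Fin (n + 1))
  B : MFam k (Fin (n + 1))
  V : MFam k (Fin (n + 1))
  P : Fin (l + 1) → MFam k (Fin (n + 1))
  F : MM k (Fin (n + 1)) (Fin (n + 1))
  γm : Γ →* Matrix (Fin (n + 1)) (Fin (n + 1)) k
  χ : PFun k (Fin (n + 1) × Fin (n + 1))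
  lam : PFun k (Fin (n + 1) × Fin (n + 1))
  lγ : Γ →* Multiplicative k
  gG : IsGrp G
  gB : IsGrp B
  gV : IsGrp V
  gP : ∀ i, IsGrp (P i)
  BP : ∀ i, B.Le (P i)
  PG : ∀ i, (P i).Le G
  VB : V.Le B
  ut : B.UT
  nF : NatM F
  F_mul : ∀ (Ω : Type) [Field Ω] [Algebra k Ω] g g', G Ω g → G Ω g' →
    F Ω (g * g') = F Ω g * F Ω g'
  F_G : ∀ (Ω : Type) [Field Ω] [Algebra k Ω] g, G Ω g → G Ω (F Ω g)
  F_B : ∀ (Ω : Type) [Field Ω] [Algebra k Ω] g, B Ω g → B Ω (F Ω g)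
  F_V : ∀ (Ω : Type) [Field Ω] [Algebra k Ω] g, V Ω g → V Ω (F Ω g)
  stab : ∀ (Ω : Type) [Field Ω] [Algebra k Ω] g, G Ω g → (B Ω g ↔ ∀ a, a ≠ 0 → g a 0 = 0)
  cone : ∀ z : Fin (n + 1) → k, clo {w | ∃ g, ∃ c : k, G k g ∧ w = c • fun a => g a 0} k z →
    ∃ g, ∃ c : k, G k g ∧ z = c • fun a => g a 0
  bru : FinDC G B B
  γV : ∀ γ, V k (γm γ)
  γF : ∀ γ, F k (γm γ) = γm γ
  LS : ∀ (Ω : Type) [Field Ω] [Algebra k Ω] [IsAlgClosed Ω] η, V Ω η →
    ∃ h, V Ω h ∧ h.adjugate * F Ω h = η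
  LP : ∀ (W : Plc k) (h : Matrix (Fin (n + 1)) (Fin (n + 1)) W.Ω)
    (η : Matrix (Fin (n + 1)) (Fin (n + 1)) W.O), V W.Ω h →
    h.adjugate * F W.Ω h = η.map W.i →
      ∃ h₀ : Matrix (Fin (n + 1)) (Fin (n + 1)) W.O, h₀.map W.i = h
  LF : ∀ (Ω : Type) [Field Ω] [Algebra k Ω] h, V Ω h → F Ω h = h → ∃ γ, h = cm Ω (γm γ)
  nχ : IsNatF χ
  nl : IsNatF lam
  aχ : AddOn V χ
  al : AddOn V lam
  AS : ∀ (Ω : Type) [Field Ω] [Algebra k Ω] g, V Ω g →
    χ Ω (um (F Ω g)) - χ Ω (um g) = lam Ω (um g) ^ p - lam Ω (um g)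
  γl : ∀ γ, (lγ γ).toAdd = lam k (um (γm γ))
  hZ : ∀ γ, (lγ γ).toAdd = 0 → γ ∈ (Rl.Z : Subgroup Γ)
  hm : 0 < Rl.m Γ
  onto : ∀ c : k, c ^ p = c → ∃ γ, (lγ γ).toAdd = c
  HL : ∃ Y : Finset (Matrix (Fin (n + 1)) (Fin (n + 1)) k), (∀ y ∈ Y, G k y) ∧ ∀ i g, G k g →
    (∃ y ∈ Y, ∃ r r', V k r ∧ inM (P i) (prevM G F P i) k r' ∧ g = r * y * r') ∨
      LineM d V χ (P i) g ∨ LineM d V χ (prevM G F P i) g

section tup

variable {k : Type} [Field k] {n l : ℕ} {Γ : Type} [Group Γ] [Rl Γ]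

/-- The equations for tuples. -/
def Tup.eqs (T : Tup k n l Γ) : Set (MvPolynomial (TN n l) k) :=
  {f | (∃ d, f.IsHomogeneous d) ∧ ∀ g : Fin (l + 1) → Matrix (Fin (n + 1)) (Fin (n + 1)) k,
    (∀ i, T.G k (g i) ∧ T.P i k ((g i).adjugate * shT (T.F k) g i)) → eval (seg g) f = 0}

/-- The sum of the values on the diagonal blocks. -/
def sumF (l : ℕ) (χ : PFun k (Fin (n + 1) × Fin (n + 1))) : PFun k (TI n l × TI n l) :=
  fun R _ _ x => ∑ i, χ R (um (bl (mat x) i))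

/-- The value on the first diagonal block. -/
def fstF (l : ℕ) (χ : PFun k (Fin (n + 1) × Fin (n + 1))) : PFun k (TI n l × TI n l) :=
  fun R _ _ x => χ R (um (bl (mat x) 0))

end tup

end Pool.Agent.MP_a9d3bd_s.W
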