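import Pool.Agent.MP_a9d3bd_w.IDefs
import Pool.Agent.MP_a9d3bd_s.Canc

/-! Cancellation of a free coordinate. -/

namespace Pool.Agent.MP_a9d3bd_s.W

open Function Matrix MvPolynomial Pool.Agent.MP_a9d3bd_q

variable {k σ Γ : Type} [Field k] [Group Γ] [Rl Γ] [Finite σ] [DecidableEq σ]

omit [DecidableEq σ] in
theorem adm_gyA {L : Type} [Field L] [Algebra k L] {j : ℕ} {S : Fam k σ} {A : Act k σ Γ} (i : σ)
    (c : k) (hS : Cvx S) (st : A.Stab S)
    (hA : ∀ g (Ω : Type) [Field Ω] [Algebra k Ω] x, S Ω x → A.a g Ω x i = x i) {Φ : Raw L σ}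
    (h : AdmF L j (fun Ω _ _ x => S Ω x ∧ x i = algebraMap k Ω c) A Φ) :
    AdmF L (j + 1) S A (gyA (ov L S) i (algebraMap k L c) Φ) := by
  classical
  refine ⟨MP_a9d3bd_s.adm_gyA (A := resA A Rl.Z) i c hS (fun g => st g.1) (fun g => hA g.1)
    h.toAdmF, fun E _ _ _ _ hE x hx => ?_⟩
  by_cases hc : x i = algebraMap L E (algebraMap k L c)
  · refine Finset.sum_eq_zero fun n _ => ?_
    unfold gyA
    rw [hA _ E x hx]
    exact if_neg fun hh => hh.2 hc
  have e : ∀ g, gyA (ov L S) i (algebraMap k L c) Φ E (A.a g E x) =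
      Da Φ E (A.a g E x) (x i - algebraMap L E (algebraMap k L c)) := fun g => by
    unfold gyA
    rw [hA g E x hx, if_pos ⟨(ov_iff L S _).2 (st g E x hx), hc⟩]
  simp only [e]
  unfold Da
  rw [← finsum_sum_comm _ _ fun n _ => Da_fin h.pre hE _ _]
  refine finsum_eq_zero_of_forall_eq_zero fun O => ?_
  let _ := kAlg k L O.K
  have _ := kTower k L O.K
  have hK := O.ff_K hE
  by_cases hi : O.Int x
  swap
  · exact Finset.sum_eq_zero fun n _ => if_neg fun hh => hi ((dv_act_int O A _ x).1 hh)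
  have e' : ∀ g, (if O.Int (A.a g E x) then
      (O.ord (x i - algebraMap L E (algebraMap k L c)) : ℚ) * Φ O.K (O.ra (A.a g E x)) else 0) =
      O.ord (x i - algebraMap L E (algebraMap k L c)) * Φ O.K (A.a g O.K (O.ra x)) := fun g => by
    rw [if_pos ((dv_act_int O A g x).2 hi), (dv_nat O (A.nat g) hi).2]
  simp only [e']
  rw [← Finset.mul_sum]
  by_cases hy : S O.K (O.ra x) ∧ O.ra x i = algebraMap k O.K c
  · rw [h.nrm O.K hK _ hy, mul_zero]
  · rw [Finset.sum_eq_zero fun n _ => h.supp O.K hK _ fun hh => ?_, mul_zero]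
    have h1 := (st.iff _ _).1 hh.1
    exact hy ⟨h1, (hA _ O.K _ h1).symm.trans hh.2⟩

/-- For x over E in the slice let x' = update (cst x) i (X + c) over RatFunc E; it lies in
S by gen and ak_line_le. By adm_gyA, Da Φ _ x' X = 0. A valuation with x' integral and
O.ord X ≠ 0 has 0 < O.ord X and reduces x' to the reduction of cst x; use vert_zero and
ratpt. -/
theorem canc {S : Fam k σ} {A : Act k σ Γ} (i : σ) (c : k) (hS : Cvx S) (st : A.Stab S)
    (hA : ∀ g (Ω : Type) [Field Ω] [Algebra k Ω] x, S Ω x → A.a g Ω x i = x i)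
    (gen : ∀ (Ω : Type) [Field Ω] [Algebra k Ω] (x : σ → Ω) (t : Ω), S Ω x →
      x i = algebraMap k Ω c → ak k (update x i t) ≤ ak k x → S Ω (update x i t))
    (h : IVan S A) : IVan (fun Ω _ _ x => S Ω x ∧ x i = algebraMap k Ω c) A := by
  intro L _ _ j Φ hΦ E _ _ hE x
  let := kAlg k L E
  have := kTower k L E
  by_cases hx : S E x ∧ x i = algebraMap k E c
  swap
  · exact hΦ.supp E hE x hx
  have hc : x i = algebraMap L E (algebraMap k L c) := hx.2
  have h0 := h L (j + 1) _ (adm_gyA i c hS st hA hΦ) (RatFunc E) (ff_ratFunc hE)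
    (update (fun s => cst L E (x s)) i (RatFunc.X + cst L E (x i)))
  have e : RatFunc.X + cst L E (x i) - algebraMap L (RatFunc E) (algebraMap k L c) =
      RatFunc.X := by
    rw [hc, AlgHom.commutes, add_sub_cancel_right]
  have hS' : S (RatFunc E) (update (fun s => cst L E (x s)) i (RatFunc.X + cst L E (x i))) := by
    refine gen _ _ _ ((hS.ext.mapL (cst L E) x).2 hx.1) ?_ ?_
    · rw [hc, AlgHom.commutes, ← IsScalarTower.algebraMap_apply]
    · have := ak_line_le (k := k)
        (update (fun s => Polynomial.C (x s)) i (Polynomial.X + Polynomial.C (x i))) 0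
      rw [ak_down_eq (ak_map (cst L E) x)]
      convert this using 2
      · funext s
        by_cases hs : s = i
        · subst hs
          simp [cst_apply]
        · simp [update_of_ne hs, cst_apply]
      · funext s
        by_cases hs : s = i
        · subst hs
          simp
        · simp [update_of_ne hs]
  rw [gyA, if_pos ⟨(ov_iff L S _).2 hS', by
    rw [update_self, ← sub_ne_zero, e]; exact RatFunc.X_ne_zero⟩, update_self, e] at h0
  rw [← h0, Canc_da hΦ.pre hE i x hc]

end Pool.Agent.MP_a9d3bd_s.W
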