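import Pool.Agent.MP_a9d3bd_w.CDefs
import Pool.Agent.MP_a9d3bd_s.GrpA
import Pool.Agent.MP_a9d3bd_s.PlcA

/-! The core data: elementary properties. -/

namespace Pool.Agent.MP_a9d3bd_s.W

open Function Matrix MvPolynomial Pool.Agent.MP_a9d3bd_q

variable {k ι N Γ : Type} [Field k] [Fintype ι] [DecidableEq ι] [LinearOrder ι] [Fintype N]
  [DecidableEq N] [Group Γ] [Rl Γ] (C : Core k ι N Γ)

section

variable {Ω : Type} [Field Ω] [Algebra k Ω] {g g' b : Matrix ι ι Ω} {y : Matrix ι ι k}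

theorem Core.BG : C.B.Le C.G := fun Ω _ _ m h => C.PG Ω m (C.BP Ω m h)

theorem Core.VG : C.V.Le C.G := fun Ω _ _ m h => C.BG Ω m (C.VB Ω m h)

theorem Core.VP : C.V.Le C.P := fun Ω _ _ m h => C.BP Ω m (C.VB Ω m h)

theorem Core.KG : C.K.Le C.G := fun Ω _ _ m h => C.PG Ω m (C.KP Ω m h)

theorem Core.utV : C.V.UT := fun Ω _ _ m h => C.ut Ω m (C.VB Ω m h)

theorem Core.gH : IsGrp C.H := C.gG

theorem Core.HG : C.H.Le C.G := fun _ _ _ _ h => h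

theorem Core.γH (γ : Γ) : C.H k (C.γm γ) := C.VG k _ (C.γV γ)

theorem Core.dc : FinDC C.G C.H C.B :=
  ⟨{1}, fun y hy => Finset.mem_singleton.1 hy ▸ C.gG.one k, fun g hg =>
    ⟨1, Finset.mem_singleton_self _, g, 1, hg, C.gB.one k, by rw [Matrix.mul_one, Matrix.mul_one]⟩⟩

theorem Core.F_one : C.F Ω 1 = 1 := by
  have h := C.F_mul Ω 1 1 (C.gG.one Ω) (C.gG.one Ω)
  have hd := C.gG.det Ω _ (C.F_G Ω 1 (C.gG.one Ω))
  rw [Matrix.one_mul] at h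
  rw [← adj_mul_cancel hd (C.F Ω 1), ← h, adj_mul_self hd]

theorem Core.F_adj (hg : C.G Ω g) : C.F Ω g.adjugate = (C.F Ω g).adjugate :=
  adj_unique (C.gG.det Ω _ (C.F_G Ω g hg)) (by
    rw [← C.F_mul Ω _ _ (C.gG.adj Ω g hg) hg, adj_mul_self (C.gG.det Ω g hg), C.F_one])

theorem Core.pt_one : C.pt (1 : Matrix ι ι Ω) = cv Ω C.v := by
  rw [Core.pt, C.α_one, one_mulVec]

theorem Core.pt_mul (hg : C.G Ω g) (hg' : C.G Ω g') : C.pt (g * g') = C.α Ω g *ᵥ C.pt g' := by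
  rw [Core.pt, Core.pt, C.α_mul Ω g g' hg hg', mulVec_mulVec]

theorem Core.α_adj (hg : C.G Ω g) (z : N → Ω) : C.α Ω g.adjugate *ᵥ (C.α Ω g *ᵥ z) = z := by
  rw [mulVec_mulVec, ← C.α_mul Ω _ _ (C.gG.adj Ω g hg) hg, adj_mul_self (C.gG.det Ω g hg),
    C.α_one, one_mulVec]

theorem Core.pt_ne (hg : C.G Ω g) : C.pt g ≠ 0 := fun h => by
  have h1 := C.α_adj hg (cv Ω C.v)
  rw [show C.α Ω g *ᵥ cv Ω C.v = 0 from h, mulVec_zero] at h1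
  simpa [cv, C.v₀] using congrFun h1 C.n₀

theorem Core.same_line (hg : C.G Ω g) (hg' : C.G Ω g') {c c' : Ω} (hc : c' ≠ 0)
    (h : c • C.pt g = c' • C.pt g') : C.B Ω (g.adjugate * g') := by
  refine (C.stab Ω _ (C.gG.mul Ω _ _ (C.gG.adj Ω g hg) hg')).2 ⟨c'⁻¹ * c, ?_⟩
  refine (C.pt_mul (C.gG.adj Ω g hg) hg').trans ?_
  rw [← inv_smul_smul₀ hc (C.pt g'), ← h, smul_smul, mulVec_smul, Core.pt, C.α_adj hg]

theorem Core.pt_B (hb : C.B Ω b) : C.pt b = C.pt b C.n₀ • cv Ω C.v ∧ C.pt b C.n₀ ≠ 0 := by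
  obtain ⟨c, hc⟩ := (C.stab Ω b (C.BG Ω b hb)).1 hb
  have h1 : C.pt b = c • cv Ω C.v := hc
  have h2 : C.pt b C.n₀ = c := by simp [h1, cv, C.v₀]
  rw [h2]
  exact ⟨h1, fun h => C.pt_ne (C.BG Ω b hb) (by rw [h1, h, zero_smul])⟩

theorem Core.pt_mul_B (hg : C.G Ω g) (hb : C.B Ω b) : C.pt (g * b) = C.pt b C.n₀ • C.pt g := by
  rw [C.pt_mul hg (C.BG Ω b hb)]
  exact (congrArg _ (C.pt_B hb).1).trans (mulVec_smul _ _ _)

theorem Core.pt_mul_adj (hg : C.G Ω g) (hb : C.B Ω b) :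
    C.pt b C.n₀ • C.pt (g * b.adjugate) = C.pt g := by
  rw [← C.pt_mul_B (C.gG.mul Ω _ _ hg (C.gG.adj Ω b (C.BG Ω b hb))) hb, Matrix.mul_assoc,
    adj_mul_self (C.gB.det Ω b hb), Matrix.mul_one]

theorem Core.Yh_mulB (hg : C.Yh Ω g) (hb : C.B Ω b) : C.Yh Ω (g * b) := by
  refine ⟨C.gG.mul Ω _ _ hg.1 (C.BG Ω b hb), ?_⟩
  rw [adjugate_mul_distrib, C.F_mul Ω _ _ hg.1 (C.BG Ω b hb), Matrix.mul_assoc,
    ← Matrix.mul_assoc g.adjugate]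
  exact C.gP.mul Ω _ _ (C.gP.adj Ω b (C.BP Ω b hb))
    (C.gP.mul Ω _ _ hg.2 (C.BP Ω _ (C.F_B Ω b hb)))

theorem Core.Yh_line (hg : C.Yh Ω g) (hg' : C.G Ω g') {c c' : Ω} (hc : c' ≠ 0)
    (h : c • C.pt g = c' • C.pt g') : C.Yh Ω g' := by
  rw [← mul_adj_cancel (C.gG.det Ω g hg.1) g']
  exact C.Yh_mulB hg (C.same_line hg.1 hg' hc h)

theorem Core.F_γ (γ : Γ) : C.F Ω (cm Ω (C.γm γ)) = cm Ω (C.γm γ) := by
  rw [C.nF.cm_eq, C.γF]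

theorem Core.Yh_γ (γ : Γ) (hg : C.Yh Ω g) : C.Yh Ω (cm Ω (C.γm γ) * g) := by
  have h : C.G Ω (cm Ω (C.γm γ)) := (C.gG.cm_iff _).2 (C.HG k _ (C.γH γ))
  refine ⟨C.gG.mul Ω _ _ h hg.1, ?_⟩
  rw [adjugate_mul_distrib, C.F_mul Ω _ _ h hg.1, C.F_γ, Matrix.mul_assoc,
    adj_mul_cancel (C.gG.det Ω _ h)]
  exact hg.2

theorem Core.pt_γ (γ : Γ) (hg : C.G Ω g) :
    C.pt (cm Ω (C.γm γ) * g) = (Act.lin C.ρ).a γ Ω (C.pt g) := by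
  rw [C.pt_mul ((C.gG.cm_iff _).2 (C.HG k _ (C.γH γ))) hg, C.nα.cm_eq, ← C.γρ]
  rfl

theorem Core.det_γ (γ : Γ) : (C.γm γ).det = 1 := C.gH.det k _ (C.γH γ)

theorem Core.nat_pt {τ : Type} {β : VM k τ ι} (h : NatV β) :
    IsNat (fun R _ _ t => C.pt (β R t) : PMap k τ N) := nat_mulVec (C.nα.app h) (nat_cv C.v)

theorem Core.pt_map {R R' : Type} [CommRing R] [Algebra k R] [CommRing R'] [Algebra k R']
    (φ : R →ₐ[k] R') (m : Matrix ι ι R) : (fun n => φ (C.pt m n)) = C.pt (m.map φ) := by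
  funext n
  rw [Core.pt, Core.pt, ← C.nα R R' φ m]
  simp [mulVec, dotProduct, cv, map_sum]

theorem Core.cl_Yh : IsCl C.Yh.fam :=
  C.gG.cl.and (clM C.gP.cl (natV_mat'.adj.mul (C.nF.app natV_mat')))

theorem Core.cl_Q (y : Matrix ι ι k) : IsCl (C.Q y).fam :=
  C.gH.cl.and (clM C.cl_Yh (natV_mat'.mul (natV_cm y)))

theorem Core.homog : Homog C.eqs := fun _ hf => hf.1

theorem Core.lcl_XC : LCl C.XC := lcl_coneS _

theorem Core.stab_Q (hy : C.G k y) : (Act.lmul C.γm).Stab (C.Q y).fam := by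
  intro γ Ω _ _ t ht
  refine ⟨C.gH.mul Ω _ _ ((C.gH.cm_iff _).2 (C.γH γ)) ht.1, ?_⟩
  exact Matrix.mul_assoc (cm Ω (C.γm γ)) (mat t) (cm Ω y) ▸ C.Yh_γ γ ht.2

end

end Pool.Agent.MP_a9d3bd_s.W
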