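import Pool.Agent.MP_a9d3bd_w.IDefs
import Pool.Agent.MP_a9d3bd_s.Tri

/-! Artin-Schreier covers of triangular groups. -/

namespace Pool.Agent.MP_a9d3bd_s.W

open Function Matrix MvPolynomial Pool.Agent.MP_a9d3bd_q

variable {k σ ι : Type} [Field k] [Fintype ι] [DecidableEq ι] [LinearOrder ι] {p : ℕ}

section

variable {R : Type} [CommRing R]

/-- The block diagonal matrix. -/
def TriAS_b (m : Matrix ι ι R) (t : R) : Matrix (ι ⊕ₗ Fin 2) (ι ⊕ₗ Fin 2) R :=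
  (fromBlocks m 0 0 !![1, t; 0, 1]).submatrix ofLex ofLex

/-- The first block. -/
def TriAS_m (n : Matrix (ι ⊕ₗ Fin 2) (ι ⊕ₗ Fin 2) R) : Matrix ι ι R :=
  n.submatrix (fun a => toLex (Sum.inl a)) fun a => toLex (Sum.inl a)

/-- The corner of the second block. -/
def TriAS_t (n : Matrix (ι ⊕ₗ Fin 2) (ι ⊕ₗ Fin 2) R) : R :=
  n (toLex (Sum.inr 0)) (toLex (Sum.inr 1))

omit [DecidableEq ι] [LinearOrder ι] in
theorem TriAS_mul (m m' : Matrix ι ι R) (t t' : R) :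
    TriAS_b m t * TriAS_b m' t' = TriAS_b (m * m') (t + t') := by
  rw [TriAS_b, TriAS_b, TriAS_b, submatrix_mul_equiv, fromBlocks_multiply]
  simp [add_comm]

omit [Fintype ι] [LinearOrder ι] in
theorem TriAS_one : TriAS_b (1 : Matrix ι ι R) 0 = 1 := by
  rw [TriAS_b, ← one_fin_two, fromBlocks_one, submatrix_one_equiv]

omit [LinearOrder ι] in
theorem TriAS_det (m : Matrix ι ι R) (t : R) : (TriAS_b m t).det = m.det := by
  rw [TriAS_b, det_submatrix_equiv_self, det_fromBlocks_zero₂₁]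
  simp

omit [LinearOrder ι] in
theorem TriAS_adj {m : Matrix ι ι R} (h : m.det = 1) (t : R) :
    (TriAS_b m t).adjugate = TriAS_b m.adjugate (-t) := by
  have h1 : TriAS_b m t * TriAS_b m.adjugate (-t) = 1 := by
    rw [TriAS_mul, mul_adjugate, h, one_smul, add_neg_cancel, TriAS_one]
  rw [← Matrix.mul_one (TriAS_b m t).adjugate, ← h1, ← Matrix.mul_assoc, adjugate_mul, TriAS_det, h,
    one_smul, Matrix.one_mul]

omit [Fintype ι] [DecidableEq ι] [LinearOrder ι] in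
theorem TriAS_map [Algebra k R] {R' : Type} [CommRing R'] [Algebra k R'] (φ : R →ₐ[k] R')
    (m : Matrix ι ι R) (t : R) (a b : ι ⊕ₗ Fin 2) :
    φ (TriAS_b m t a b) = TriAS_b (m.map φ) (φ t) a b := by
  rcases a with a | a <;> rcases b with b | b
  · rfl
  · exact map_zero φ
  · exact map_zero φ
  · fin_cases a <;> fin_cases b
    exacts [map_one φ, rfl, map_zero φ, map_one φ]

omit [Fintype ι] [DecidableEq ι] in
theorem TriAS_ut {m : Matrix ι ι R} (h : m.IsUpperTriangular) (t : R) :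
    (TriAS_b m t).IsUpperTriangular := by
  rintro (a | a) (b | b) hab
  · exact h (Sum.Lex.inl_lt_inl_iff.1 hab)
  · rfl
  · rfl
  · have h1 : b < a := Sum.Lex.inr_lt_inr_iff.1 hab
    fin_cases a <;> fin_cases b
    exacts [absurd h1 (by decide), absurd h1 (by decide), rfl, absurd h1 (by decide)]

end

/-- The Artin-Schreier cover as a family of matrices. -/
def TriAS_S (p : ℕ) (S : MFam k ι) (χ : PFun k (ι × ι)) : MFam k (ι ⊕ₗ Fin 2) :=
  fun Ω _ _ n => n = TriAS_b (TriAS_m n) (TriAS_t n) ∧ S Ω (TriAS_m n) ∧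
    TriAS_t n ^ p - TriAS_t n = χ Ω (um (TriAS_m n))

omit [Fintype ι] [DecidableEq ι] [LinearOrder ι] in
theorem TriAS_iff {S : MFam k ι} {χ : PFun k (ι × ι)} {Ω : Type} [Field Ω] [Algebra k Ω]
    {n : Matrix (ι ⊕ₗ Fin 2) (ι ⊕ₗ Fin 2) Ω} : TriAS_S p S χ Ω n ↔
      ∃ m t, n = TriAS_b m t ∧ S Ω m ∧ t ^ p - t = χ Ω (um m) :=
  ⟨fun h => ⟨_, _, h⟩, by rintro ⟨m, t, rfl, h⟩; exact ⟨rfl, h⟩⟩

omit [Fintype ι] [DecidableEq ι] [LinearOrder ι] in
theorem TriAS_eq {τ : Type} {χ : PFun k (ι × ι)} (hχ : IsNatF χ) (s : τ) (f : ι × ι → τ) :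
    IsCl (fun Ω _ _ x => x s ^ p - x s = χ Ω fun c => x (f c) : Fam k τ) :=
  isCl_eq (g := fun _ _ _ x => x s ^ p - x s) (g' := fun R _ _ x => χ R fun c => x (f c))
    (fun _ _ _ _ _ _ φ x => by rw [map_sub, map_pow]) fun R R' _ _ _ _ φ x => hχ R R' φ _

omit [LinearOrder ι] in
theorem AddOn.one {S : MFam k ι} (hS : IsGrp S) {χ : PFun k (ι × ι)} (h : AddOn S χ) (Ω : Type)
    [Field Ω] [Algebra k Ω] : χ Ω (um 1) = 0 := by
  have h1 := h Ω 1 1 (hS.one Ω) (hS.one Ω)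
  rw [Matrix.one_mul] at h1
  exact left_eq_add.1 h1

omit [LinearOrder ι] in
theorem AddOn.adj {S : MFam k ι} (hS : IsGrp S) {χ : PFun k (ι × ι)} (h : AddOn S χ) {Ω : Type}
    [Field Ω] [Algebra k Ω] {m : Matrix ι ι Ω} (hm : S Ω m) :
    χ Ω (um m.adjugate) = -χ Ω (um m) := by
  have h1 := h Ω _ _ (hS.adj Ω m hm) hm
  rw [adjugate_mul, hS.det Ω m hm, one_smul, h.one hS] at h1
  exact eq_neg_of_add_eq_zero_left h1.symm

omit [LinearOrder ι] in
theorem cl_asP {Y : Fam k σ} (hY : IsCl Y) {S : MFam k ι} (hS : IsCl S.fam) {χ : PFun k (ι × ι)}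
    (hχ : IsNatF χ) : IsCl (asP p Y S χ) :=
  ((hY.comp (Φ := fun _ _ _ x s => x (some (Sum.inl s))) fun _ _ _ _ _ _ _ _ _ => rfl).and
    (hS.comp (Φ := fun _ _ _ x c => x (some (Sum.inr c))) fun _ _ _ _ _ _ _ _ _ => rfl)).and
    (TriAS_eq hχ none fun c => some (Sum.inr c))

omit [LinearOrder ι] in
theorem TriAS_grp (hp : Fb p k) {S : MFam k ι} (hS : IsGrp S) {χ : PFun k (ι × ι)}
    (hχ : IsNatF χ) (ha : AddOn S χ) : IsGrp (TriAS_S p S χ) := by
  have := hp.char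
  have := Fact.mk hp.prime
  refine ⟨?_, fun Ω _ _ n hn => ?_, fun Ω _ _ => ?_, fun Ω _ _ n n' hn hn' => ?_,
    fun Ω _ _ n hn => ?_⟩
  · refine ((isCl_veq (Φ := fun _ _ _ x => x)
      (Ψ := fun _ _ _ x => um (TriAS_b (TriAS_m (mat x)) (TriAS_t (mat x))))
      (fun _ _ _ _ _ _ _ _ _ => rfl) fun _ _ _ _ _ _ φ x c => TriAS_map φ _ _ _ _).and
      ((hS.cl.comp (Φ := fun _ _ _ x => um (TriAS_m (mat x))) fun _ _ _ _ _ _ _ _ _ => rfl).and
        (TriAS_eq (p := p) hχ (toLex (Sum.inr 0), toLex (Sum.inr 1))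
          fun c => (toLex (Sum.inl c.1), toLex (Sum.inl c.2))))).congr
      fun Ω _ _ x => and_congr_left' ⟨fun h => congrArg um h, fun h => congrArg mat h⟩
  · obtain ⟨m, t, rfl, h1, -⟩ := TriAS_iff.1 hn
    rw [TriAS_det, hS.det Ω m h1]
  · refine TriAS_iff.2 ⟨1, 0, TriAS_one.symm, hS.one Ω, ?_⟩
    rw [ha.one hS, zero_pow hp.prime.ne_zero, sub_zero]
  · have := charP_of_injective_algebraMap (algebraMap k Ω).injective p
    obtain ⟨m, t, rfl, h1, h2⟩ := TriAS_iff.1 hn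
    obtain ⟨m', t', rfl, h3, h4⟩ := TriAS_iff.1 hn'
    refine TriAS_iff.2 ⟨_, _, TriAS_mul _ _ _ _, hS.mul Ω _ _ h1 h3, ?_⟩
    rw [ha Ω _ _ h1 h3, ← h2, ← h4, add_pow_char]
    ring
  · have := charP_of_injective_algebraMap (algebraMap k Ω).injective p
    obtain ⟨m, t, rfl, h1, h2⟩ := TriAS_iff.1 hn
    refine TriAS_iff.2 ⟨_, _, TriAS_adj (hS.det Ω m h1) t, hS.adj Ω _ h1, ?_⟩
    rw [ha.adj hS h1, ← h2, neg_pow, neg_one_pow_char]
    ring

/-- All of this is about the old IVan of MP_a9d3bd_s. Let S' be the group of block diagonal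
matrices with index type ι ⊕ₗ Fin 2, first block m in S, second block !![1, t; 0, 1] with
t ^ p - t = χ (um m) (add_pow_char; every k-algebra that is a field has characteristic p). It is
closed and triangular, so MP_a9d3bd_s.tri applies; then use MP_a9d3bd_s.iso. -/
theorem tri_as [IsAlgClosed k] [Finite σ] (hp : Fb p k) {Y : Fam k σ} (hY : Ext Y) {S : MFam k ι}
    (hS : IsGrp S) (hu : S.UT) {χ : PFun k (ι × ι)} (hχ : IsNatF χ) (ha : AddOn S χ)
    (h : MP_a9d3bd_s.IVan Y (Act.triv k σ Unit)) :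
    MP_a9d3bd_s.IVan (asP p Y S χ) (Act.triv k _ Unit) := by
  have hG := TriAS_grp hp hS hχ ha
  have hU : (TriAS_S p S χ).UT := fun Ω _ _ n hn => by
    obtain ⟨m, t, rfl, h1, -⟩ := TriAS_iff.1 hn
    exact TriAS_ut (hu Ω m h1) t
  refine MP_a9d3bd_s.iso (a := fun _ _ _ t => oext (pr (fs t) (TriAS_m (sm t))) (TriAS_t (sm t)))
    (b := fun _ _ _ x => pr (fs fun s => x (some s)) (TriAS_b (sm fun s => x (some s)) (x none)))
    (ext_prodM hY hG.ext) (((ext_prodM hY hS.ext).comp (a := fun _ _ _ x s => x (some s))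
      fun _ _ _ _ _ _ _ _ _ => rfl).and (cl_ext (TriAS_eq hχ none fun c => some (Sum.inr c))))
    (fun _ _ _ _ _ _ φ x c => ?_) (fun _ _ _ _ _ _ φ x c => ?_) (fun Ω _ _ _ t ht => ?_)
    (fun Ω _ _ _ x hx => ?_) (fun g Ω _ _ _ t ht => ?_)
    (MP_a9d3bd_s.tri hp hY hG hU (fun _ _ _ _ _ h => h) h)
  · rcases c with _ | _ | _ <;> rfl
  · rcases c with _ | c
    exacts [rfl, TriAS_map φ _ _ _ _]
  · refine ⟨⟨⟨ht.1, ht.2.2.1⟩, ht.2.2.2⟩, funext ?_⟩
    rintro (s | c)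
    exacts [rfl, (congrFun (congrFun ht.2.1 c.1) c.2).symm]
  · refine ⟨⟨hx.1.1, rfl, hx.1.2, hx.2⟩, funext ?_⟩
    rintro (_ | _ | _) <;> rfl
  · exact ⟨ht, (), rfl⟩

end Pool.Agent.MP_a9d3bd_s.W
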