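import Pool.Agent.MP_a9d3bd_w.CoA
import Pool.Agent.MP_a9d3bd_w.TriAS

/-! The families TW, Dt, TO: elementary properties. -/

namespace Pool.Agent.MP_a9d3bd_s.W

open Function Matrix MvPolynomial Pool.Agent.MP_a9d3bd_q

variable {k ι N Γ : Type} [Field k] [Fintype ι] [DecidableEq ι] [LinearOrder ι] [Fintype N]
  [DecidableEq N] [Group Γ] [Rl Γ] (C : Core k ι N Γ)

section

variable {R : Type}

omit [Fintype ι] [DecidableEq ι] [LinearOrder ι]

@[simp] theorem gD_mkD (g η : Matrix ι ι R) (u : R) : Core.gD (Core.mkD g η u) = g := rfl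

@[simp] theorem eD_mkD (g η : Matrix ι ι R) (u : R) : Core.eD (Core.mkD g η u) = η := rfl

@[simp] theorem mkD_none (g η : Matrix ι ι R) (u : R) : Core.mkD g η u none = u := rfl

theorem mkD_eta (x : Option ((ι × ι) ⊕ ι × ι) → R) :
    Core.mkD (Core.gD x) (Core.eD x) (x none) = x := by
  funext s
  rcases s with _ | s | s <;> rfl

theorem mkD_inj {g g' η η' : Matrix ι ι R} {u u' : R} :
    Core.mkD g η u = Core.mkD g' η' u' ↔ g = g' ∧ η = η' ∧ u = u' :=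
  ⟨fun h => ⟨congrArg Core.gD h, congrArg Core.eD h, congrFun h none⟩,
    fun ⟨a, b, c⟩ => a ▸ b ▸ c ▸ rfl⟩

@[simp] theorem mO_mkO (m w s : Matrix ι ι R) (t : R) : Core.mO (Core.mkO m w s t) = m := rfl

@[simp] theorem wO_mkO (m w s : Matrix ι ι R) (t : R) : Core.wO (Core.mkO m w s t) = w := rfl

@[simp] theorem sO_mkO (m w s : Matrix ι ι R) (t : R) : Core.sO (Core.mkO m w s t) = s := rfl

@[simp] theorem mkO_none (m w s : Matrix ι ι R) (t : R) : Core.mkO m w s t none = t := rfl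

theorem mkO_eta (x : Option (((ι × ι) ⊕ ι × ι) ⊕ ι × ι) → R) :
    Core.mkO (Core.mO x) (Core.wO x) (Core.sO x) (x none) = x := by
  funext s
  rcases s with _ | (s | s) | s <;> rfl

theorem mkD_map {R' : Type} (f : R → R') (g η : Matrix ι ι R) (u : R) :
    (fun s => f (Core.mkD g η u s)) = Core.mkD (g.map f) (η.map f) (f u) := by
  funext s
  rcases s with _ | s | s <;> rfl

theorem mkO_map {R' : Type} (f : R → R') (m w s : Matrix ι ι R) (t : R) :
    (fun c => f (Core.mkO m w s t c)) = Core.mkO (m.map f) (w.map f) (s.map f) (f t) := by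
  funext c
  rcases c with _ | (c | c) | c <;> rfl

theorem natV_gD : NatV (fun _ _ _ x => Core.gD x : VM k (Option ((ι × ι) ⊕ ι × ι)) ι) :=
  natV_mat (nat_proj fun c => some (Sum.inl c))

theorem natV_eD : NatV (fun _ _ _ x => Core.eD x : VM k (Option ((ι × ι) ⊕ ι × ι)) ι) :=
  natV_mat (nat_proj fun c => some (Sum.inr c))

theorem natV_mO :
    NatV (fun _ _ _ x => Core.mO x : VM k (Option (((ι × ι) ⊕ ι × ι) ⊕ ι × ι)) ι) :=
  natV_mat (nat_proj fun c => some (Sum.inl (Sum.inl c)))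

theorem natV_wO :
    NatV (fun _ _ _ x => Core.wO x : VM k (Option (((ι × ι) ⊕ ι × ι) ⊕ ι × ι)) ι) :=
  natV_mat (nat_proj fun c => some (Sum.inl (Sum.inr c)))

theorem natV_sO :
    NatV (fun _ _ _ x => Core.sO x : VM k (Option (((ι × ι) ⊕ ι × ι) ⊕ ι × ι)) ι) :=
  natV_mat (nat_proj fun c => some (Sum.inr c))

theorem nat_mkD {τ : Type} {g η : VM k τ ι} {u : PFun k τ} (hg : NatV g) (hη : NatV η)
    (hu : IsNatF u) :
    IsNat (fun R _ _ t => Core.mkD (g R t) (η R t) (u R t) : PMap k τ (Option ((ι × ι) ⊕ ι × ι))) :=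
  nat_oext (nat_pr (nat_um hg) hη) hu

theorem nat_mkO {τ : Type} {m w s : VM k τ ι} {u : PFun k τ} (hm : NatV m) (hw : NatV w)
    (hs : NatV s) (hu : IsNatF u) :
    IsNat (fun R _ _ t => Core.mkO (m R t) (w R t) (s R t) (u R t) :
      PMap k τ (Option (((ι × ι) ⊕ ι × ι) ⊕ ι × ι))) :=
  nat_oext (nat_pr (nat_pr (nat_um hm) hw) hs) hu

theorem natF_um {τ : Type} {χ : PFun k (ι × ι)} (hχ : IsNatF χ) {β : VM k τ ι} (h : NatV β) :
    IsNatF (fun R _ _ t => χ R (um (β R t)) : PFun k τ) := natF_comp hχ (nat_um h)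

theorem natF_cm {χ : PFun k (ι × ι)} (hχ : IsNatF χ) (R : Type) [CommRing R] [Algebra k R]
    (m : Matrix ι ι k) : χ R (um (cm R m)) = algebraMap k R (χ k (um m)) :=
  (hχ k R (Algebra.ofId k R) (um m)).symm

end

theorem Core.cl_TW : IsCl C.TW :=
  (clM C.gG.cl (natV_mat nat_fs)).and ((clM C.gV.cl natV_sm).and
    (clM C.cl_Yh (natV_sm.mul (natV_mat nat_fs))))

theorem Core.cl_Dt : IsCl C.Dt :=
  (clM C.gG.cl natV_gD).and ((clM C.gV.cl natV_eD).and
    ((clM C.gP.cl ((natV_gD.adj.mul natV_eD).mul (C.nF.app natV_gD))).and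
      (isCl_eq (natF_sub (natF_pow (natF_coord none) _) (natF_coord none))
        (natF_um C.nχ natV_eD))))

theorem Core.Dt_iff {Ω : Type} [Field Ω] [Algebra k Ω] (g η : Matrix ι ι Ω) (u : Ω) :
    C.Dt Ω (Core.mkD g η u) ↔ C.G Ω g ∧ C.V Ω η ∧ C.P Ω (g.adjugate * η * C.F Ω g) ∧
      u ^ C.p - u = C.χ Ω (um η) := Iff.rfl

theorem Core.TO_iff (y : Matrix ι ι k) {Ω : Type} [Field Ω] [Algebra k Ω] (m w s : Matrix ι ι Ω)
    (t : Ω) : C.TO y Ω (Core.mkO m w s t) ↔ ((C.K Ω m ∧ C.V Ω w) ∧ C.V Ω s ∧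
      C.P Ω (cm Ω y.adjugate * s * (cm Ω y.adjugate).adjugate)) ∧
      t ^ C.p - t = C.χ Ω (um s) := Iff.rfl

theorem Core.actD_mkD (γ : Γ) {R : Type} [CommRing R] [Algebra k R] (g η : Matrix ι ι R) (u : R) :
    C.actD.a γ R (Core.mkD g η u) = Core.mkD g η (u + algebraMap k R (C.lγ γ).toAdd) := rfl

theorem Core.lγ_pow (γ : Γ) : (C.lγ γ).toAdd ^ C.p = (C.lγ γ).toAdd := by
  have h := C.AS k _ (C.γV γ)
  rw [C.γF, sub_self, ← C.γl] at h
  exact sub_eq_zero.1 h.symm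

theorem Core.lam_γ (γ : Γ) (R : Type) [CommRing R] [Algebra k R] :
    C.lam R (um (cm R (C.γm γ))) = algebraMap k R (C.lγ γ).toAdd := by
  rw [natF_cm C.nl, C.γl]

omit [Fintype ι] [DecidableEq ι] [LinearOrder ι] in
theorem Fb.as_add {p : ℕ} (hp : Fb p k) {Ω : Type} [Field Ω] [Algebra k Ω] (a b : Ω) :
    (a + b) ^ p - (a + b) = (a ^ p - a) + (b ^ p - b) := by
  have := hp.char
  have := Fact.mk hp.prime
  have : CharP Ω p := charP_of_injective_algebraMap (algebraMap k Ω).injective p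
  rw [add_pow_char]
  ring

omit [Fintype ι] [DecidableEq ι] [LinearOrder ι] in
theorem Fb.as_sub {p : ℕ} (hp : Fb p k) {Ω : Type} [Field Ω] [Algebra k Ω] (a b : Ω) :
    (a - b) ^ p - (a - b) = (a ^ p - a) - (b ^ p - b) := by
  have := Fb.as_add hp (a - b) b
  rw [sub_add_cancel] at this
  rw [this, add_sub_cancel_right]

theorem Core.stab_Dt (hp : Fb C.p k) : C.actD.Stab C.Dt := by
  intro γ Ω _ _ x hx
  refine ⟨hx.1, hx.2.1, hx.2.2.1, ?_⟩
  change (x none + algebraMap k Ω (C.lγ γ).toAdd) ^ C.p - (x none + algebraMap k Ω (C.lγ γ).toAdd) =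
    C.χ Ω (um (Core.eD x))
  rw [Fb.as_add hp, hx.2.2.2, ← map_pow, C.lγ_pow, sub_self, add_zero]

theorem Core.stab_TW : C.actW.Stab C.TW := by
  intro γ Ω _ _ x hx
  refine ⟨hx.1, C.gV.mul Ω _ _ ((C.gV.cm_iff _).2 (C.γV γ)) hx.2.1, ?_⟩
  exact Matrix.mul_assoc (cm Ω (C.γm γ)) (sm x) (mat (fs x)) ▸ C.Yh_γ γ hx.2.2

theorem Core.stab_Yh : (Act.lmul C.γm).Stab C.Yh.fam := fun γ _ _ _ _ hx => C.Yh_γ γ hx

end Pool.Agent.MP_a9d3bd_s.W
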