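import Pool.Agent.MP_a9d3bd_w.XCl
import Pool.Agent.MP_a9d3bd_s.QSC

/-! The first descent: geometry. -/

namespace Pool.Agent.MP_a9d3bd_s.W

open Function Matrix MvPolynomial Pool.Agent.MP_a9d3bd_q

variable {k ι N Γ : Type} [Field k] [Fintype ι] [DecidableEq ι] [LinearOrder ι] [Fintype N]
  [DecidableEq N] [Group Γ] [Rl Γ] (C : Core k ι N Γ)

variable {y : Matrix ι ι k} {Orb : Fam k N}

omit [DecidableEq ι] [LinearOrder ι] in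
theorem CoE_nat (y : Matrix ι ι k) :
    NatV (fun R _ _ t => Core.hA t * cm R y : VM k (Option (ι × ι) ⊕ ι × ι) ι) :=
  (natV_mat (nat_proj fun c => Sum.inl (some c))).mul (natV_cm y)

theorem CoE_G (hy : C.G k y) {Ω : Type} [Field Ω] [Algebra k Ω] {h : Matrix ι ι Ω}
    (hh : C.H Ω h) : C.G Ω (h * cm Ω y) :=
  C.gG.mul _ _ _ (C.HG _ _ hh) ((C.gG.cm_iff y).2 hy)

theorem Core.nat_aA (y : Matrix ι ι k) : IsNat (C.aA y) :=
  nat_pr (nat_smul (natF_coord (Sum.inl none)) (C.nat_pt (CoE_nat y))) ((CoE_nat y).mul natV_sm)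

theorem Core.lcl_TA (y : Matrix ι ι k) : LCl (C.TA y) :=
  lcl_prodM (lcl_optN (cl_lcl (C.cl_Q y))) grp_B.lcl

theorem Core.TA_iff {Ω : Type} [Field Ω] [Algebra k Ω] (h : Matrix ι ι Ω) (c : Ω)
    (b : Matrix ι ι Ω) : C.TA y Ω (pr (oext (um h) c) b) ↔ (C.Q y Ω h ∧ c ≠ 0) ∧ Bf k ι Ω b :=
  Iff.rfl

theorem Core.aA_eq {R : Type} [CommRing R] [Algebra k R] (h : Matrix ι ι R) (c : R)
    (b : Matrix ι ι R) : C.aA y R (pr (oext (um h) c) b) =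
      pr (c • C.pt (h * cm R y)) (h * cm R y * b) := rfl

omit [Fintype ι] [DecidableEq ι] [LinearOrder ι] in
theorem TA_eta {R : Type} (t : Option (ι × ι) ⊕ ι × ι → R) :
    pr (oext (um (Core.hA t)) (t (Sum.inl none))) (sm t) = t := by
  funext s
  rcases s with (_ | _) | _ <;> rfl

theorem Core.ya_iff {Ω : Type} [Field Ω] [Algebra k Ω] [IsAlgClosed Ω] (x : N ⊕ ι × ι → Ω) :
    C.YA y Ω x ↔ ∃ h, ∃ c : Ω, ∃ b, C.Q y Ω h ∧ c ≠ 0 ∧ Bf k ι Ω b ∧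
      x = pr (c • C.pt (h * cm Ω y)) (h * cm Ω y * b) := by
  refine (im_iff (C.lcl_TA y).good (C.nat_aA y) x).trans ⟨?_, ?_⟩
  · rintro ⟨t, ht, rfl⟩
    exact ⟨Core.hA t, t (Sum.inl none), sm t, ht.1.1, ht.1.2, ht.2, rfl⟩
  · rintro ⟨h, c, b, hq, hc, hb, rfl⟩
    exact ⟨pr (oext (um h) c) b, ⟨⟨hq, hc⟩, hb⟩, rfl⟩

theorem Core.good_YA (y : Matrix ι ι k) : Good (C.YA y) :=
  good_im (C.lcl_TA y).good (C.nat_aA y)

theorem Core.stab_TA (hy : C.G k y) : C.actT.Stab (C.TA y) :=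
  stab_prodM (stab_optN (C.stab_Q hy)) _

theorem Core.stab_YA (hy : C.G k y) : C.actY.Stab (C.YA y) := by
  refine stab_of_ac (ext_im _ _) fun g Ω _ _ _ x hx => ?_
  obtain ⟨h, c, b, hq, hc, hb, rfl⟩ := (C.ya_iff x).1 hx
  refine (C.ya_iff _).2 ⟨cm Ω (C.γm g) * h, c, b, C.stab_Q hy g Ω (um h) hq, hc, hb, ?_⟩
  rw [Matrix.mul_assoc (cm Ω (C.γm g)) h, C.pt_γ g hq.2.1, Matrix.mul_assoc (cm Ω (C.γm g))]
  show pr (cm Ω (C.ρ g) *ᵥ (c • C.pt (h * cm Ω y))) _ = pr (c • (cm Ω (C.ρ g) *ᵥ _)) _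
  rw [Matrix.mulVec_smul]
  rfl

/-- By hO.hl, fs o = c • pt (h * y) with h integral and c a unit. Use same_line,
Yh_line and put b = (h * y).adjugate * sm o. -/
theorem Core.ya_hl (hy : C.G k y) (hO : C.Orb1 C.H y Orb) (V : Plc k)
    {t : Option (ι × ι) ⊕ ι × ι → V.Ω} {o : N ⊕ ι × ι → V.O} (ht : C.TA y V.Ω t)
    (ho : V.gen o = C.aA y V.Ω t) (hs : Orb V.κ (fs (V.sp o))) :
    ∃ o', C.TA y V.Ω (V.gen o') ∧ C.TA y V.κ (V.sp o') ∧ C.aA y V.O o' = o := by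
  have hq : C.Q y V.Ω (Core.hA t) := ht.1.1
  have hc : t (Sum.inl none) ≠ 0 := ht.1.2
  have hb : Bf k ι V.Ω (sm t) := ht.2
  have e1 : V.gen (fs o) = t (Sum.inl none) • C.pt (Core.hA t * cm V.Ω y) := congrArg fs ho
  have e2 : (sm o).map V.i = Core.hA t * cm V.Ω y * sm t := congrArg sm ho
  obtain ⟨h, c, hh, hu, e3⟩ := hO.hl V (fs o) ((hO.iff _ _).2 ⟨_, _, hq.1, hc, e1⟩) hs
  have em : (h * cm V.O y).map V.i = h.map V.i * cm V.Ω y := by rw [mul_map, cm_map]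
  have hc' : V.π c ≠ 0 := (V.unit_iff c).1 hu
  have hG := CoE_G C hy hh
  have e4 : V.i c • C.pt (h.map V.i * cm V.Ω y)
      = t (Sum.inl none) • C.pt (Core.hA t * cm V.Ω y) := by
    rw [← e1, e3, V.gen_smul, ← em, ← C.pt_map]
    rfl
  have hY : C.Q y V.Ω (h.map V.i) := ⟨hh, C.Yh_line hq.2 hG (V.gen_ne hc') e4.symm⟩
  have hB : Bf k ι V.Ω (((h * cm V.O y).adjugate * sm o).map V.i) := by
    rw [mul_map, adj_map, em, e2, ← Matrix.mul_assoc]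
    exact grp_B.mul _ _ _ (C.gB.le_B C.ut _ _ (C.same_line hG hq.2.1 hc e4)) hb
  refine ⟨pr (oext (um h) c) ((h * cm V.O y).adjugate * sm o), ?_, ?_, ?_⟩
  · rw [V.gen_pr, V.gen_oext, V.gen_um]
    exact (C.TA_iff _ _ _).2 ⟨⟨hY, V.gen_ne hc'⟩, hB⟩
  · rw [V.sp_pr, V.sp_oext, V.sp_um]
    exact (C.TA_iff _ _ _).2 ⟨⟨V.cl_sp (C.cl_Q y) (o := um h) hY, hc'⟩, grp_B.sp V hB⟩
  · rw [C.aA_eq, mul_adj_cancel (C.gG.det_O V (em ▸ hG)), ← e3, pr_fs_sm]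

/-- By cvx_of_plc with the convex family fun Ω _ _ x => Orb Ω (fs x). -/
theorem Core.cvx_YA (hy : C.G k y) (hO : C.Orb1 C.H y Orb) : Cvx (C.YA y) := by
  refine cvx_of_plc (ext_im _ _) (hO.lc.cvx.comp nat_fs) (fun Ω _ _ _ x hx => ?_)
    fun V o ho hs => ?_
  · obtain ⟨h, c, b, hq, hc, -, rfl⟩ := (C.ya_iff x).1 hx
    exact (hO.iff _ _).2 ⟨h, c, hq.1, hc, rfl⟩
  · obtain ⟨t, ht, e⟩ := (im_iff (C.lcl_TA y).good (C.nat_aA y) _).1 ho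
    obtain ⟨o', -, h2, rfl⟩ := C.ya_hl hy hO V ht e.symm hs
    rw [V.sp_nat (C.nat_aA y)]
    exact mem_im _ h2

end Pool.Agent.MP_a9d3bd_s.W
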