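import Pool.Agent.MP_a9d3bd_w.Up
import Pool.Agent.MP_a9d3bd_s.Tri

/-! Products with triangular groups. -/

namespace Pool.Agent.MP_a9d3bd_s.W

open Function Matrix MvPolynomial Pool.Agent.MP_a9d3bd_q

variable {k σ ι Γ : Type} [Field k] [Group Γ] [Rl Γ] [Fintype ι] [DecidableEq ι] [LinearOrder ι]
  {Y : Fam k σ} {A : Act k σ Γ} {R : MFam k ι} {D : Finset (ι × ι)} {a b : ι}

variable [Finite σ]

omit [LinearOrder ι] in
theorem tri_bot (hY : Ext Y) (hR : IsGrp R) (st : A.Stab Y) (h : IVan Y A) :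
    IVan (trF Y R ∅) (A.left (ι × ι)) := by
  refine iso (a := fun _ _ _ t => pr t 1) (b := fun _ _ _ x => fs x) hY (ext_im _ _)
    (nat_pr nat_id natV_one) nat_fs (fun Ω _ _ _ t ht => ⟨?_, rfl⟩) (fun Ω _ _ _ x hx => ?_)
    (fun g Ω _ _ _ t ht => ⟨st g Ω t ht, rfl⟩) h
  · exact (trF_iff hY hR _).2 ⟨ht, 1, hR.one Ω, (trD_empty _).symm⟩
  · obtain ⟨hy, r, -, e⟩ := (trF_iff hY hR x).1 hx
    rw [trD_empty] at e
    exact ⟨hy, by rw [← e, pr_fs_sm]⟩

omit [Finite σ] in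
theorem tri_top (hY : Ext Y) (hR : IsGrp R) (hu : R.UT)
    (h : IVan (trF Y R (posD ι)) (A.left (ι × ι))) : IVan (prodM Y R) (A.left (ι × ι)) := by
  refine ivan_congr (ext_im _ _) (ext_prodM hY hR.ext) (fun Ω _ _ _ x => ?_) h
  refine (trF_iff hY hR x).trans (and_congr_right fun _ => ⟨?_, fun hr => ?_⟩)
  · rintro ⟨r, hr, e⟩
    rwa [e, trD_top (hu Ω r hr)]
  · exact ⟨_, hr, (trD_top (hu Ω _ hr)).symm⟩

/-- By up_cyl for the coordinate Sum.inr (a, b), the constant (1 : Matrix ι ι k) a b and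
ne := a = b. Given r and a value u, solve for the entry of s in step_left and use
FullStep for the trivial place; see pr_trD_update, pr_trD_update'. -/
theorem tri_full (hY : Ext Y) (hR : IsGrp R) (hu : R.UT) (st : A.Stab Y) (hD : IC D)
    (hab : (a, b) ∉ D) (hD' : IC (insert (a, b) D)) (hf : FullStep R D a b)
    (h : IVan (trF Y R D) (A.left (ι × ι))) :
    IVan (trF Y R (insert (a, b) D)) (A.left (ι × ι)) := by
  let _ := Classical.decEq σ
  have hfs : ∀ {Ω : Type} (x : σ ⊕ ι × ι → Ω) (u : Ω),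
      fs (update x (Sum.inr (a, b)) u) = fs x := fun x u =>
    funext fun s => update_of_ne Sum.inl_ne_inr _ _
  refine up_cyl (Y := trF Y R D) (S := trF Y R (insert (a, b) D)) (Sum.inr (a, b))
    ((1 : Matrix ι ι k) a b) (a = b) (ext_im _ _) (ext_im _ _) (trF_stab hY hR st)
    (fun Ω _ _ _ y hy => ?_) (fun Ω _ _ _ x => ?_) (fun g Ω _ _ x u => ?_) h
  · obtain ⟨-, r, -, e⟩ := (trF_iff hY hR y).1 hy
    rw [one_algebraMap, ← trD_not_mem r hab, ← e]
    rfl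
  · rw [one_algebraMap, trF_iff hY hR, trF_iff hY hR, hfs]
    constructor
    · rintro ⟨hy, r, hr, e⟩
      refine ⟨⟨hy, r, hr, ?_⟩, fun hab' => ?_⟩
      · rw [← pr_fs_sm x, e, pr_trD_update hab, sm_pr]
      · change sm x a b ≠ 0
        rw [e, trD_mem r (Finset.mem_insert_self _ _), ← hab']
        exact (ut_diag_unit (hu Ω r hr) (hR.det Ω r hr) a).ne_zero
    · rintro ⟨⟨hy, r, hr, e⟩, hne⟩
      obtain ⟨r', h1, h2, h3⟩ := TriA_solve hR hu hD hab hD' hf hr hne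
      refine ⟨hy, r', h1, ?_⟩
      have h4 := pr_trD_update' (a := a) (b := b) (fs x) h2
      rw [← e, h3, ← hfs x ((1 : Matrix ι ι Ω) a b), pr_fs_sm, update_idem, update_eq_self] at h4
      exact congrArg sm h4
  · funext s
    rcases s with s | c
    · rw [update_of_ne Sum.inl_ne_inr]
      exact congrFun (congrArg (A.a g Ω) (hfs x u)) s
    · by_cases hc : (Sum.inr c : σ ⊕ ι × ι) = Sum.inr (a, b)
      · rw [hc, update_self]
        exact update_self _ _ _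
      · rw [update_of_ne hc]
        exact update_of_ne hc _ _

variable [IsAlgClosed k] {p : ℕ}

theorem Tri_dead (hp : Fb p k) (hY : Ext Y) (hR : IsGrp R) (hu : R.UT) (st : A.Stab Y)
    (hD : IC D) (hab : (a, b) ∉ D) (hD' : IC (insert (a, b) D)) (hf : FinStep R D a b) {e : ℕ}
    (he : 0 < e)
    (hf' : ∀ (Ω : Type) [Field Ω] [Algebra k Ω] s, kerD R D Ω s → s a b ^ p ^ e = s a b)
    (hF : ∀ (Ω : Type) [Field Ω] [Algebra k Ω] m, R Ω m → R Ω (fro (p ^ e) m))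
    (h : IVan (trF Y R D) (A.left (ι × ι))) {u : Matrix ι ι k} (hru : R k u) :
    Dead (trF Y R (insert (a, b) D)) (A.left (ι × ι)) (lgF Y R (insert (a, b) D) (p ^ e))
      (lgA σ (insert (a, b) D) u) := by
  have hq : 1 < p ^ e := hp.one_lt he
  have hT : Ext (lgF Y R (insert (a, b) D) (p ^ e)) := ext_im _ _
  have hS : Ext (trF Y R (insert (a, b) D)) := ext_im _ _
  have hS' : Ext (trF Y R D) := ext_im _ _
  refine corr (b := lgB k σ D) hT hS hS' (nat_lgA _ u) (nat_lgB D) ?_ ?_ ?_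
    (proper_lgA hY hR hu hD' hq hF hru)
    (proper_lgB hY hR hu hD hab hD' hf (by omega)) ?_ ?_ h
  · refine maps_of_ac hT hS (nat_lgA _ u) fun Ω _ _ _ t ht => ?_
    obtain ⟨y, r, hy, hr, rfl⟩ := (lgF_iff hY hR _ t).1 ht
    rw [Tri_A hR hu hD' hF hru y hr]
    exact (trF_iff hY hR _).2 ⟨hy, _, hR.mul Ω _ _ ((hR.cm_iff u).2 hru)
      (hR.mul Ω _ _ (hF Ω r hr) (hR.adj Ω r hr)), rfl⟩
  · refine maps_of_ac hT hS' (nat_lgB D) fun Ω _ _ _ t ht => ?_
    obtain ⟨y, r, hy, hr, rfl⟩ := (lgF_iff hY hR _ t).1 ht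
    rw [Tri_B]
    exact (trF_iff hY hR _).2 ⟨hy, r, hr, rfl⟩
  · intro Ω _ _ _ x hx
    obtain ⟨hy, r, hr, hm⟩ := (trF_iff hY hR x).1 hx
    refine ⟨_, (lgF_iff hY hR _ _).2 ⟨fs x, r, hy, hr, rfl⟩, ?_⟩
    rw [Tri_B, ← hm, pr_fs_sm]
  · intro Ω _ _ _ t t' ht ht' hb
    obtain ⟨y, r, hy, hr, rfl⟩ := (lgF_iff hY hR _ t).1 ht
    obtain ⟨y', r', hy', hr', rfl⟩ := (lgF_iff hY hR _ t').1 ht'
    rw [Tri_B, Tri_B] at hb
    obtain ⟨rfl, hc⟩ := pr_inj.1 hb
    refine ⟨1, one_mem _, ?_⟩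
    rw [(A.left (ι × ι)).one, ← lam_fib hp hR hu hD hab hD' hf' hr hr' hc]
    rfl
  · intro g Ω _ _ _ t ht
    obtain ⟨y, r, hy, hr, rfl⟩ := (lgF_iff hY hR _ t).1 ht
    exact ⟨_, (lgF_iff hY hR _ _).2 ⟨A.a g Ω y, r, st g Ω y hy, hr, rfl⟩, rfl, rfl⟩

/-- Take e from Fb.frob_grp for the entries f a b, f ∈ F. For every rational point u of
R apply corr to T = lgF Y R D' q with a = lgA σ D' u, b = lgB k σ D (fib by lam_fib
with γ = 1). Then use ivan_of_dead with the index type of rational points of R and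
langR. -/
theorem tri_fin (hp : Fb p k) (hY : Ext Y) (hR : IsGrp R) (hu : R.UT) (st : A.Stab Y) (hD : IC D)
    (hab : (a, b) ∉ D) (hD' : IC (insert (a, b) D)) (hf : FinStep R D a b)
    (h : IVan (trF Y R D) (A.left (ι × ι))) :
    IVan (trF Y R (insert (a, b) D)) (A.left (ι × ι)) := by
  classical
  obtain ⟨F, -, hF2⟩ := id hf
  obtain ⟨e, he, hfix, hF⟩ := hp.frob_grp hR (F.image fun f => f a b)
  have hf' : ∀ (Ω : Type) [Field Ω] [Algebra k Ω] s, kerD R D Ω s → s a b ^ p ^ e = s a b := by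
    intro Ω _ _ s hs
    obtain ⟨f, hfF, hs⟩ := hF2 Ω s hs
    rw [hs, ← map_pow, hfix _ (Finset.mem_image_of_mem (fun f : Matrix ι ι k => f a b) hfF)]
  refine ivan_of_dead (Λ := {u : Matrix ι ι k // R k u})
    (T := lgF Y R (insert (a, b) D) (p ^ e)) (a := fun u => lgA σ (insert (a, b) D) u.1)
    (ext_im _ _) (ext_im _ _) (fun u => nat_lgA _ u.1) ?_
    fun u => Tri_dead hp hY hR hu st hD hab hD' hf he hf' hF h u.2
  intro Ω _ _ _ x hx
  obtain ⟨hy, r, hr, hm⟩ := (trF_iff hY hR x).1 hx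
  obtain ⟨t, z, ht, hz, rfl⟩ := langR hR (hp.one_lt he) hF hr
  refine ⟨⟨t, ht⟩, _, (lgF_iff hY hR _ _).2 ⟨fs x, z, hy, hz, rfl⟩, ?_⟩
  rw [Tri_A hR hu hD' hF ht _ hz, ← hm, pr_fs_sm]

theorem tri (hp : Fb p k) (hY : Ext Y) (hR : IsGrp R) (hu : R.UT) (st : A.Stab Y)
    (h : IVan Y A) : IVan (prodM Y R) (A.left (ι × ι)) :=
  tri_top hY hR hu <| ic_induct (P := fun D => IVan (trF Y R D) (A.left (ι × ι)))
    (tri_bot hY hR st h) fun _ _ _ hD hab hD' h =>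
      (dich hR hu hD hab hD').elim (fun hf => tri_fin hp hY hR hu st hD hab hD' hf h)
        fun hf => tri_full hY hR hu st hD hab hD' hf h

end Pool.Agent.MP_a9d3bd_s.W
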