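import Pool.Agent.MP_a9d3bd_w.Des
import Pool.Agent.MP_a9d3bd_w.Tri
import Pool.Agent.MP_a9d3bd_s.DCB

/-! Extension of the structure group. -/

namespace Pool.Agent.MP_a9d3bd_s.W

open Function Matrix MvPolynomial Pool.Agent.MP_a9d3bd_q

variable {k σ ι Γ : Type} [Field k] [Group Γ] [Rl Γ] [Fintype ι] [DecidableEq ι] [LinearOrder ι]
  [Finite σ] {Z W : Fam k (σ ⊕ ι × ι)} {K R R' : MFam k ι} {A : Act k (σ ⊕ ι × ι) Γ}
  [IsAlgClosed k]

/-- By strat, cvx_strat, des and tri. -/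
theorem dc {p : ℕ} (hp : Fb p k) (h : DCD Z W K R R' A) (hZ : IVan Z A) : IVan W A := by
  obtain ⟨Λ, y, r, hy, cov, ord, eq⟩ := h.strata
  have hW : ∀ l, Ext (dcW Z R' (y l)) := fun l => ext_im _ _
  have le : ∀ l (Ω : Type) [Field Ω] [Algebra k Ω] [IsAlgClosed Ω] x,
      dcW Z R' (y l) Ω x → W Ω x := fun l Ω _ _ _ x hx => h.dcW_le (hy l) hx
  exact strat h.cvx.ext hW (fun l => h.dcW_stab) le cov ord fun l =>
    des (h.desc (hy l) (cvx_strat h.cvx hW le cov ord eq l))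
      (tri hp h.good.ext h.gR' h.ut h.stZ hZ)

end Pool.Agent.MP_a9d3bd_s.W
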