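import Pool.Agent.MP_a9d3bd_w.CoE
import Pool.Agent.MP_a9d3bd_w.DC

/-! The first descent. -/

namespace Pool.Agent.MP_a9d3bd_s.W

open Function Matrix MvPolynomial Pool.Agent.MP_a9d3bd_q

variable {k ι N Γ : Type} [Field k] [Fintype ι] [DecidableEq ι] [LinearOrder ι] [Fintype N]
  [DecidableEq N] [Group Γ] [Rl Γ] (C : Core k ι N Γ)

variable [IsAlgClosed k] {p : ℕ} {y : Matrix ι ι k} {Orb : Fam k N}

omit [IsAlgClosed k] in
theorem CoF_nat (y : Matrix ι ι k) : NatP (fun Ω _ _ t s =>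
    pr (oext (um (Core.hA t * (cm Ω y * s.adjugate * (cm Ω y).adjugate)))
      (t (Sum.inl none) * C.pt s C.n₀)) (s * sm t) : PMM k (Option (ι × ι) ⊕ ι × ι) ι) := by
  refine natP_of ?_
  have h1 : NatV (fun _ _ _ t => Core.hA (fs t) :
      VM k ((Option (ι × ι) ⊕ ι × ι) ⊕ ι × ι) ι) :=
    natV_mat (nat_proj fun c => Sum.inl (Sum.inl (some c)))
  have h2 : NatV (fun _ _ _ t => sm (fs t) : VM k ((Option (ι × ι) ⊕ ι × ι) ⊕ ι × ι) ι) :=
    natV_mat (nat_proj fun c => Sum.inl (Sum.inr c))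
  exact nat_pr (nat_oext (nat_um (h1.mul (((natV_cm y).mul natV_sm.adj).mul (natV_cm y).adj)))
    (natF_mul (natF_coord (Sum.inl (Sum.inl none))) (natF_of (C.nat_pt natV_sm) C.n₀)))
    (natV_sm.mul h2)

omit [IsAlgClosed k] in
theorem CoF_split {Ω : Type} [Field Ω] [Algebra k Ω] {t t' : Option (ι × ι) ⊕ ι × ι → Ω}
    (e : C.aA y Ω t = C.aA y Ω t') :
    t (Sum.inl none) • C.pt (Core.hA t * cm Ω y) = t' (Sum.inl none) • C.pt (Core.hA t' * cm Ω y) ∧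
      Core.hA t * cm Ω y * sm t = Core.hA t' * cm Ω y * sm t' := pr_inj.1 e

omit [IsAlgClosed k] in
theorem CoF_TA {Ω : Type} [Field Ω] [Algebra k Ω] {t : Option (ι × ι) ⊕ ι × ι → Ω}
    (ht : C.TA y Ω t) : ((C.H Ω (Core.hA t) ∧ C.Yh Ω (Core.hA t * cm Ω y)) ∧
      t (Sum.inl none) ≠ 0) ∧ (sm t).IsUpperTriangular ∧ (sm t).det = 1 := ht

omit [IsAlgClosed k] in
/-- If aA t = aA t' put s = sm t' * (sm t).adjugate = (h' * y).adjugate * (h * y). -/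
theorem Core.desc (hy : C.G k y) (hO : C.Orb1 C.H y Orb) :
    Desc (C.TA y) (C.YA y) (C.aA y) (fun _ _ _ t => sm t) (inM C.B (cjM C.H y))
      (fun Ω _ _ t s => pr (oext (um (Core.hA t * (cm Ω y * s.adjugate * (cm Ω y).adjugate)))
        (t (Sum.inl none) * C.pt s C.n₀)) (s * sm t)) C.actT C.actY where
  good := (C.lcl_TA y).good
  cvx := C.cvx_YA hy hO
  na := C.nat_aA y
  nβ := natV_sm
  nμ := CoF_nat C y
  grp := C.gB.inter (C.gH.cj (C.gG.det _ _ hy))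
  ut := fun Ω _ _ m h => C.ut Ω m h.1
  maps := maps_im _ _
  onto := onto_im (C.lcl_TA y).good (C.nat_aA y)
  tri := fun _ _ _ _ _ ht => ht.2
  fib := fun Ω _ _ _ t t' ht ht' e => by
    obtain ⟨⟨⟨hH, hY⟩, hc⟩, -, -⟩ := CoF_TA C ht
    obtain ⟨⟨⟨hH', hY'⟩, -⟩, -, -⟩ := CoF_TA C ht'
    obtain ⟨e1, e2⟩ := CoF_split C e
    have dy : (cm Ω y).det = 1 := det_cm (C.gG.det _ _ hy)
    refine ⟨(Core.hA t' * cm Ω y).adjugate * (Core.hA t * cm Ω y),
      ⟨C.same_line hY'.1 hY.1 hc e1.symm, ?_⟩, ?_⟩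
    · change C.H Ω (cm Ω y * ((Core.hA t' * cm Ω y).adjugate * (Core.hA t * cm Ω y)) *
        (cm Ω y).adjugate)
      rw [adjugate_mul_distrib]
      simp only [Matrix.mul_assoc]
      rw [mul_adj_cancel dy, mul_adj_self dy, Matrix.mul_one]
      exact C.gH.mul _ _ _ (C.gH.adj _ _ hH') hH
    · rw [Matrix.mul_assoc, e2, adj_mul_cancel (C.gG.det _ _ hY'.1)]
  inj := fun Ω _ _ _ t t' ht ht' e eb => by
    obtain ⟨⟨⟨-, hY⟩, -⟩, -, db⟩ := CoF_TA C ht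
    obtain ⟨e1, e2⟩ := CoF_split C e
    have dy : (cm Ω y).det = 1 := det_cm (C.gG.det _ _ hy)
    have eb' : sm t = sm t' := eb
    have e3 : Core.hA t * cm Ω y = Core.hA t' * cm Ω y := by
      rw [← eb'] at e2
      have := congrArg (· * (sm t).adjugate) e2
      simpa only [Matrix.mul_assoc _ (sm t), mul_adj_self db, Matrix.mul_one] using this
    have e4 : Core.hA t = Core.hA t' := by
      have := congrArg (· * (cm Ω y).adjugate) e3
      simpa only [Matrix.mul_assoc, mul_adj_self dy, Matrix.mul_one] using this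
    rw [← e3] at e1
    have e5 : t (Sum.inl none) = t' (Sum.inl none) := smul_left_injective Ω (C.pt_ne hY.1) e1
    rw [← TA_eta t, ← TA_eta t', e4, e5, eb']
  act := fun Ω _ _ _ t s ht hs => by
    obtain ⟨⟨⟨hH, hY⟩, hc⟩, ub, db⟩ := CoF_TA C ht
    obtain ⟨hB, hs2⟩ := hs
    have dy : (cm Ω y).det = 1 := det_cm (C.gG.det _ _ hy)
    have ds : s.det = 1 := C.gB.det _ _ hB
    have e1 : Core.hA t * (cm Ω y * s.adjugate * (cm Ω y).adjugate) * cm Ω y =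
        Core.hA t * cm Ω y * s.adjugate := by
      simp only [Matrix.mul_assoc]
      rw [adj_mul_self dy, Matrix.mul_one]
    refine ⟨(C.TA_iff _ _ _).2 ⟨⟨⟨C.gH.mul _ _ _ hH ?_, ?_⟩, mul_ne_zero hc (C.pt_B hB).2⟩,
      ut_mul (C.ut _ _ hB) ub, by rw [det_mul, ds, db, one_mul]⟩, ?_, rfl⟩
    · have h1 := C.gH.adj _ _ hs2
      rwa [adjugate_mul_distrib, adjugate_mul_distrib, adj_adj dy,
        ← Matrix.mul_assoc] at h1
    · rw [e1]
      exact C.Yh_mulB hY (C.gB.adj _ _ hB)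
    · rw [C.aA_eq, e1, mul_smul, C.pt_mul_adj hY.1 hB, Matrix.mul_assoc, adj_mul_cancel ds]
      rfl
  hl := fun V t o ht ho hs => by
    obtain ⟨h, c, b, hQ, hc, -, e⟩ := (C.ya_iff _).1 hs
    refine C.ya_hl hy hO V ht ho ((hO.iff _ _).2 ⟨h, c, hQ.1, hc, ?_⟩)
    rw [e, fs_pr]
  stT := C.stab_TA hy
  stY := C.stab_YA hy
  eqv := fun g Ω _ _ _ t ht => by
    obtain ⟨⟨⟨-, hY⟩, -⟩, -, -⟩ := CoF_TA C ht
    refine ⟨?_, rfl⟩
    change pr (t (Sum.inl none) • C.pt (cm Ω (C.γm g) * Core.hA t * cm Ω y))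
        (cm Ω (C.γm g) * Core.hA t * cm Ω y * sm t) =
      pr (cm Ω (C.ρ g) *ᵥ (t (Sum.inl none) • C.pt (Core.hA t * cm Ω y)))
        (cm Ω (C.γm g) * (Core.hA t * cm Ω y * sm t))
    rw [Matrix.mul_assoc (cm Ω (C.γm g)), C.pt_γ g hY.1, Matrix.mulVec_smul,
      Matrix.mul_assoc (cm Ω (C.γm g))]
    rfl

/-- By up_ne, tri and des. -/
theorem Core.ivan_YA (hp : Fb p k) (hy : C.G k y) (hO : C.Orb1 C.H y Orb)
    (h : IVan (C.Q y).fam (Act.lmul C.γm)) : IVan (C.YA y) C.actY :=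
  des (C.desc hy hO) (tri hp (ext_optN (cl_ext (C.cl_Q y))) grp_B ut_B (stab_optN (C.stab_Q hy))
    (up_ne (cl_ext (C.cl_Q y)) (C.stab_Q hy) h))

end Pool.Agent.MP_a9d3bd_s.W
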