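import Pool.Agent.MP_a9d3bd_w.IDefs
import Pool.Agent.MP_a9d3bd_s.Kpt
import Pool.Agent.MP_a9d3bd_s.GrpA

/-! Curves. -/

namespace Pool.Agent.MP_a9d3bd_s.W

open Function Matrix MvPolynomial Pool.Agent.MP_a9d3bd_q

variable {k τ ι : Type} [Field k] [Fintype ι] [DecidableEq ι] {d : ℕ}

omit [Fintype ι] in
theorem cr1_zero {R : Type} [CommRing R] (c : Fin d → Matrix ι ι R) : cr1 c 0 = 1 := by
  simp [cr1]

omit [Fintype ι] in
theorem cr1_const {R : Type} [CommRing R] (t : R) :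
    cr1 (fun _ : Fin d => (0 : Matrix ι ι R)) t = 1 := by
  simp [cr1]

omit [Fintype ι] in
theorem crv_zero {R : Type} [CommRing R] (c : CI ι d → R) (b : Bool) : crv c b 0 = 1 := by
  exact cr1_zero _

omit [Fintype ι] in
theorem natV_crv {c : PMap k τ (CI ι d)} (hc : IsNat c) (b : Bool) {t : PFun k τ}
    (ht : IsNatF t) : NatV (fun R _ _ x => crv (c R x) b (t R x) : VM k τ ι) := by
  intro R R' _ _ _ _ φ y
  refine Matrix.ext fun i j => ?_
  have h1 : φ ((1 : Matrix ι ι R) i j) = (1 : Matrix ι ι R') i j :=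
    congrFun (congrFun (one_map (ι := ι) φ) i) j
  simp only [crv, cr1, Matrix.map_apply, Matrix.add_apply, Matrix.sum_apply, Matrix.smul_apply,
    Matrix.of_apply, smul_eq_mul, map_add, map_sum, map_mul, map_pow, h1, hc R R' φ y,
    ht R R' φ y]

variable {G V P : MFam k ι} {F : MM k ι ι} {χ : PFun k (ι × ι)}

theorem cl_lnAt (hV : IsCl V.fam) (hP : IsCl P.fam) (hF : NatM F) (hχ : IsNatF χ) {g : VM k τ ι}
    (hg : NatV g) {c : PMap k τ (CI ι d)} (hc : IsNat c) {t : PFun k τ} (ht : IsNatF t) :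
    IsCl (fun Ω _ _ x => LnAt V P F χ Ω (g Ω x) (c Ω x) (t Ω x) : Fam k τ) := by
  exact (clM hV (natV_crv hc false ht)).and ((clM hV (natV_crv hc true ht)).and
    ((clM hP ((hg.adj.mul (natV_crv hc false ht)).mul hg)).and
      ((clM hP (hF.app ((hg.adj.mul (natV_crv hc true ht)).mul hg))).and
        (isCl_eq (natF_add (natF_comp hχ (nat_um (natV_crv hc false ht)))
          (natF_comp hχ (nat_um (natV_crv hc true ht)))) ht))))

theorem cl_LTF (hG : IsCl G.fam) (hV : IsCl V.fam) (hP : IsCl P.fam) (hF : NatM F)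
    (hχ : IsNatF χ) : IsCl (LTF G V P F χ d) := by
  exact (clM hG (natV_mat nat_fs)).and (Pool.Agent.MP_a9d3bd_ag.IsCl.forall fun t : k =>
    cl_lnAt hV hP hF hχ (natV_mat nat_fs) (nat_proj Sum.inr) (natF_const t))

/-- By trans3 with γ = Unit, K the family of all points, and W from cl_lnAt on
Option ((ι × ι) ⊕ CI ι d). -/
theorem LTF.all [IsAlgClosed k] (hV : IsCl V.fam) (hP : IsCl P.fam) (hF : NatM F) (hχ : IsNatF χ)
    {Ω : Type} [Field Ω] [Algebra k Ω] {x : (ι × ι) ⊕ CI ι d → Ω} (hx : LTF G V P F χ d Ω x)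
    (t : Ω) : LnAt V P F χ Ω (mat (fs x)) (fun s => x (Sum.inr s)) t := by
  have hW : IsCl (fun Ω _ _ z => LnAt V P F χ Ω (mat (fs fun s => z (some s)))
      (fun s => z (some (Sum.inr s))) (z none) : Fam k (Option ((ι × ι) ⊕ CI ι d))) :=
    cl_lnAt hV hP hF hχ (natV_mat (nat_proj fun s => some (Sum.inl s)))
      (nat_proj fun s => some (Sum.inr s)) (natF_coord none)
  have hf : Nat2 (fun _ _ _ u y => oext y (u ()) :
      PMap2 k Unit ((ι × ι) ⊕ CI ι d) (Option ((ι × ι) ⊕ CI ι d))) :=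
    nat2_of (nat_oext (nat_proj Sum.inr) (natF_coord (Sum.inl ())))
  exact trans3 (γ := Unit) isCl_true hf hW x (fun s _ => hx.2 (s ())) (x := fun _ => t) trivial

theorem grp_preM (hG : IsGrp G) (hP : IsGrp P) (hF : NatM F)
    (mul : ∀ (Ω : Type) [Field Ω] [Algebra k Ω] g g', G Ω g → G Ω g' →
      F Ω (g * g') = F Ω g * F Ω g')
    (mem : ∀ (Ω : Type) [Field Ω] [Algebra k Ω] g, G Ω g → G Ω (F Ω g)) :
    IsGrp (preM G F P) := by
  have h1 : ∀ (Ω : Type) [Field Ω] [Algebra k Ω], F Ω 1 = 1 := by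
    intro Ω _ _
    have h2 := mul Ω 1 1 (hG.one Ω) (hG.one Ω)
    have h3 := hG.det _ _ (mem Ω 1 (hG.one Ω))
    rw [Matrix.mul_one] at h2
    have h4 := adj_mul_cancel h3 (F Ω 1)
    rw [← h2, adj_mul_self h3] at h4
    exact h4.symm
  refine ⟨hG.cl.and (clM hP.cl (hF.app natV_mat')), fun Ω _ _ m a => hG.det _ _ a.1,
    fun Ω _ _ => ⟨hG.one Ω, ?_⟩, fun Ω _ _ m m' a b => ⟨hG.mul _ _ _ a.1 b.1, ?_⟩,
    fun Ω _ _ m a => ⟨hG.adj _ _ a.1, ?_⟩⟩
  · rw [h1]
    exact hP.one Ω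
  · rw [mul Ω m m' a.1 b.1]
    exact hP.mul _ _ _ a.2 b.2
  · have h2 := mul Ω _ _ (hG.adj _ _ a.1) a.1
    rw [adj_mul_self (hG.det _ _ a.1), h1] at h2
    rw [adj_unique (hP.det _ _ a.2) h2.symm]
    exact hP.adj _ _ a.2

end Pool.Agent.MP_a9d3bd_s.W
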