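import Pool.Agent.MP_a9d3bd_w.IDefs
import Pool.Agent.MP_a9d3bd_s.Hom

/-! Homotopies. -/

namespace Pool.Agent.MP_a9d3bd_s.W

open Function Matrix MvPolynomial Pool.Agent.MP_a9d3bd_q

variable {k L σ Γ : Type} [Field k] [Field L] [Algebra k L] [Group Γ] [Finite σ] {j : ℕ}

omit [Finite σ] in
theorem Hom2_int {F : Type} [Field F] [Algebra L F] (O : DV L F) {y : σ → F} {T : F}
    (hy : O.Int y) (hT : T ∈ O.O) : O.Int (oext y T) := fun c => by
  cases c with
  | none => exact hT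
  | some s => exact hy s

omit [Finite σ] in
theorem Hom2_main {f f' : PMap k (Option σ) σ} (hf : IsNat f) (hf' : IsNat f') {Φ : Raw L σ}
    (hΦ : IsPreA j Φ) {E : Type} [Field E] [Algebra L E] [Algebra k E] [IsScalarTower k L E]
    [IsScalarTower k L (RatFunc E)] (hE : FF L E j) {x : σ → E}
    (h1 : f' (RatFunc E) (oext (f (RatFunc E) (oext (fun s => cst L E (x s)) RatFunc.X))
      RatFunc.X) = fun s => cst L E (x s)) :
    Da Φ (RatFunc E) (f (RatFunc E) (oext (fun s => cst L E (x s)) RatFunc.X))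
      ((RatFunc.X - 1) / RatFunc.X) = Φ E (f E (oext x 1)) - Φ E (f E (oext x 0)) := by
  classical
  have hF := ff_ratFunc hE
  obtain ⟨O₀, c₀, p₀, d₀, m₀, r₀, u₀⟩ := ratpt hE 0
  obtain ⟨O₁, c₁, p₁, d₁, m₁, r₁, u₁⟩ := ratpt hE 1
  have val : ∀ (O : DV L (RatFunc E)) (c : ∀ z, cst L E z ∈ O.O), RatFunc.X ∈ O.O →
      hdeg (O.homIn (cst L E) c) = 1 → ∀ t : E, O.res RatFunc.X = O.homIn (cst L E) c t →
      O.Int (f (RatFunc E) (oext (fun s => cst L E (x s)) RatFunc.X)) ∧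
        Φ O.K (O.ra (f (RatFunc E) (oext (fun s => cst L E (x s)) RatFunc.X))) =
          Φ E (f E (oext x t)) := by
    intro O c hX hd t ht
    letI := kAlg k L O.K
    haveI := kTower k L O.K
    obtain ⟨h2, h3⟩ := dv_nat O hf (Hom2_int O (y := fun s => cst L E (x s)) (fun s => c _) hX)
    refine ⟨h2, ?_⟩
    have h4 := hΦ.ext E O.K hE (O.ff_K hF) (O.homIn (cst L E) c) (f E (oext x t))
    rw [hd, Nat.cast_one, one_mul, ← nat_mapL hf] at h4
    rw [← h4, h3]
    congr 2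
    funext s
    cases s with
    | none => exact ht
    | some s => exact (O.homIn_apply _ c _).symm
  obtain ⟨i₀, v₀⟩ := val O₀ c₀ m₀ d₀ 0 r₀
  obtain ⟨i₁, v₁⟩ := val O₁ c₁ m₁ d₁ 1 r₁
  simp only [map_zero, sub_zero, map_one] at p₀ u₀ p₁ u₁
  have x0 : (RatFunc.X : RatFunc E) ≠ 0 := RatFunc.X_ne_zero
  have x1 : (RatFunc.X : RatFunc E) - 1 ≠ 0 := fun h => by
    rw [h, O₁.ord_zero] at p₁
    exact zero_ne_one p₁
  have q₀ := (Hom_ord O₀ x0 x1).1 (by omega)
  have q₁ := (Hom_ord O₁ x0 x1).2.1 (by omega)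
  have hne : O₀ ≠ O₁ := fun h => by
    rw [h, q₁] at p₀
    exact zero_ne_one p₀
  rw [Da, finsum_eq_sum_of_support_subset (s := {O₀, O₁}), Finset.sum_pair hne, if_pos i₀,
    if_pos i₁, v₀, v₁, O₀.ord_div x1 x0, O₁.ord_div x1 x0, p₀, p₁, q₀, q₁]
  · push_cast
    ring
  intro O hO
  rw [mem_support] at hO
  split_ifs at hO with hi
  swap
  · exact absurd rfl hO
  obtain ⟨hX, hp⟩ := (Hom_ord O x0 x1).2.2 (Int.cast_ne_zero.1 (left_ne_zero_of_mul hO))
  have hr : O.res RatFunc.X = 0 ∨ O.res RatFunc.X = 1 := hp.imp O.res_eq_zero_of_pos fun h => by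
    have := O.res_eq_zero_of_pos h
    rwa [O.res_sub hX O.O.one_mem, O.res_one, sub_eq_zero] at this
  have hc : ∀ z, cst L E z ∈ O.O := by
    by_contra hc
    refine right_ne_zero_of_mul hO (vert_zero hΦ hE hF (cst L E) O (not_forall.1 hc) ?_)
    letI := kAlg k L O.K
    haveI := kTower k L O.K
    have h2 := (dv_nat O hf' (Hom2_int O hi hX)).1
    rw [h1] at h2
    rw [(dv_nat O hf (Hom2_int O h2 hX)).2]
    refine (af_le_iff _ _).1 ((af_nat_leL L hf _).trans ((af_le_iff _ _).2 ?_))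
    rintro (_ | s)
    · change O.res RatFunc.X ∈ _
      rcases hr with h | h
      · rw [h]
        exact zero_mem _
      · rw [h]
        exact one_mem _
    · exact res_mem_rf _ O _
  rw [Finset.coe_pair]
  exact hp.imp (u₀ O hc) (u₁ O hc)

/-- As Hom_main and hom_inv of MP_a9d3bd_s/Hom. Over RatFunc E use rat for the point
y = f (oext (cst x) X) and the function (X - 1) / X. If its order at O is not 0, then X is integral
with residue 0 or 1 (Hom_ord), and y is integral if and only if cst x is (dv_nat for f, and for f'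
with h1). The reduction of y is f (oext (O.ra (cst x)) (O.res X)). If O does not contain E its
coordinates lie in O.rf (af_nat_leL, res_mem_rf) and vert_zero applies; otherwise use ratpt at 0
and at 1. -/
theorem hom2 {S : Fam k σ} (hS : Ext S) {f f' : PMap k (Option σ) σ} (hf : IsNat f)
    (hf' : IsNat f')
    (h1 : ∀ (Ω : Type) [Field Ω] [Algebra k Ω] x T, S Ω x →
      S Ω (f Ω (oext x T)) ∧ f' Ω (oext (f Ω (oext x T)) T) = x)
    {A : Act k σ Γ} {Φ : Raw L σ} (hΦ : MP_a9d3bd_s.AdmF L j S A Φ) {E : Type} [Field E]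
    [Algebra L E] [Algebra k E] [IsScalarTower k L E] (hE : FF L E j) {x : σ → E} (hx : S E x) :
    Φ E (f E (oext x 1)) = Φ E (f E (oext x 0)) := by
  have : IsScalarTower k L (RatFunc E) := IsScalarTower.of_algebraMap_eq fun c => by
    rw [IsScalarTower.algebraMap_apply k E (RatFunc E),
      IsScalarTower.algebraMap_apply L E (RatFunc E), ← IsScalarTower.algebraMap_apply k L E]
  obtain ⟨h2, h3⟩ := h1 (RatFunc E) _ RatFunc.X ((hS.mapL (cst L E) x).2 hx)
  rw [← sub_eq_zero, ← Hom2_main hf hf' hΦ.pre hE h3]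
  refine hΦ.rat _ (ff_ratFunc hE) _ _ h2 (div_ne_zero (fun h => ?_) RatFunc.X_ne_zero)
  obtain ⟨O, -, p, -⟩ := ratpt hE 1
  rw [map_one, h, O.ord_zero] at p
  exact zero_ne_one p

/-- By hom2 an admissible functional is invariant under all of Γ, so nrm says that
Rl.m Γ times its value is zero. -/
theorem ivan_of_hom [Rl Γ] (hm : 0 < Rl.m Γ) {S : Fam k σ} (hS : Ext S) {A : Act k σ Γ}
    (h : ∀ g, ∃ f f' : PMap k (Option σ) σ, IsNat f ∧ IsNat f' ∧
      ∀ (Ω : Type) [Field Ω] [Algebra k Ω] x, S Ω x → f Ω (oext x 0) = x ∧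
        f Ω (oext x 1) = A.a g Ω x ∧
        ∀ T, S Ω (f Ω (oext x T)) ∧ f' Ω (oext (f Ω (oext x T)) T) = x) : IVan S A := by
  intro L _ _ j Φ hΦ E _ _ hE x
  letI := kAlg k L E
  haveI := kTower k L E
  by_cases hx : S E x
  swap
  · exact hΦ.supp E hE x hx
  have h1 : ∀ g, Φ E (A.a g E x) = Φ E x := fun g => by
    obtain ⟨f, f', hf, hf', h2⟩ := h g
    have h3 := hom2 hS hf hf' (fun Ω _ _ x T hx => (h2 Ω x hx).2.2 T) hΦ.toAdmF hE hx
    rwa [(h2 E x hx).1, (h2 E x hx).2.1] at h3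
  have h2 := hΦ.nrm E hE x hx
  simp only [h1, Finset.sum_const, Finset.card_range, nsmul_eq_mul] at h2
  exact (mul_eq_zero.1 h2).resolve_left (Nat.cast_ne_zero.2 hm.ne')

end Pool.Agent.MP_a9d3bd_s.W
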