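import Pool.Agent.MP_a9d3bd_w.CoB
import Pool.Agent.MP_a9d3bd_w.Crv
import Pool.Agent.MP_a9d3bd_w.Hom2

/-! The part with curves. -/

namespace Pool.Agent.MP_a9d3bd_s.W

open Function Matrix MvPolynomial Pool.Agent.MP_a9d3bd_q

variable {k ι N Γ : Type} [Field k] [Fintype ι] [DecidableEq ι] [LinearOrder ι] [Fintype N]
  [DecidableEq N] [Group Γ] [Rl Γ] (C : Core k ι N Γ)

/-- The common value of the parameter of the two curves. -/
def CoH_r (a : k) : PFun k (Option (Option ((ι × ι) ⊕ ι × ι) ⊕ CI ι C.d)) := fun R _ _ y =>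
  (algebraMap k R a * y none) ^ C.p - algebraMap k R a * y none

/-- The point of one of the curves. -/
def CoH_v (a : k) (b : Bool) : VM k (Option (Option ((ι × ι) ⊕ ι × ι) ⊕ CI ι C.d)) ι :=
  fun R _ _ y => crv (fun s => y (some (Sum.inr s))) b (CoH_r C a R y)

/-- The homotopy. -/
def CoH_f (a : k) : PMap k (Option (Option ((ι × ι) ⊕ ι × ι) ⊕ CI ι C.d))
    (Option ((ι × ι) ⊕ ι × ι) ⊕ CI ι C.d) := fun R _ _ y =>
  Sum.elim (Core.mkD (Core.gD fun s => y (some (Sum.inl s)))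
    (CoH_v C a false R y * (Core.eD fun s => y (some (Sum.inl s))) * C.F R (CoH_v C a true R y))
    (y (some (Sum.inl none)) + algebraMap k R a * y none + C.lam R (um (CoH_v C a true R y))))
    fun s => y (some (Sum.inr s))

/-- The inverse of the homotopy. -/
def CoH_f' (a : k) : PMap k (Option (Option ((ι × ι) ⊕ ι × ι) ⊕ CI ι C.d))
    (Option ((ι × ι) ⊕ ι × ι) ⊕ CI ι C.d) := fun R _ _ y =>
  Sum.elim (Core.mkD (Core.gD fun s => y (some (Sum.inl s)))
    ((CoH_v C a false R y).adjugate * (Core.eD fun s => y (some (Sum.inl s))) *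
      (C.F R (CoH_v C a true R y)).adjugate)
    (y (some (Sum.inl none)) - algebraMap k R a * y none - C.lam R (um (CoH_v C a true R y))))
    fun s => y (some (Sum.inr s))

theorem CoH_nr (a : k) : IsNatF (CoH_r C a) :=
  natF_sub (natF_pow (natF_mul (natF_const a) (natF_coord none)) _)
    (natF_mul (natF_const a) (natF_coord none))

theorem CoH_nv (a : k) (b : Bool) : NatV (CoH_v C a b) :=
  natV_crv (nat_proj fun s => some (Sum.inr s)) b (CoH_nr C a)

theorem CoH_nf (a : k) : IsNat (CoH_f C a) :=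
  nat_elim (nat_mkD (natV_gD.comp (nat_proj fun s => some (Sum.inl s)))
    (((CoH_nv C a false).mul (natV_eD.comp (nat_proj fun s => some (Sum.inl s)))).mul
      (C.nF.app (CoH_nv C a true)))
    (natF_add (natF_add (natF_coord (some (Sum.inl none)))
      (natF_mul (natF_const a) (natF_coord none))) (natF_um C.nl (CoH_nv C a true))))
    (nat_proj fun s => some (Sum.inr s))

theorem CoH_nf' (a : k) : IsNat (CoH_f' C a) :=
  nat_elim (nat_mkD (natV_gD.comp (nat_proj fun s => some (Sum.inl s)))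
    (((CoH_nv C a false).adj.mul (natV_eD.comp (nat_proj fun s => some (Sum.inl s)))).mul
      (C.nF.app (CoH_nv C a true)).adj)
    (natF_sub (natF_sub (natF_coord (some (Sum.inl none)))
      (natF_mul (natF_const a) (natF_coord none))) (natF_um C.nl (CoH_nv C a true))))
    (nat_proj fun s => some (Sum.inr s))

omit [Fintype ι] [DecidableEq ι] [LinearOrder ι] in
theorem CoH_eta {R : Type} {τ : Type} (x : Option ((ι × ι) ⊕ ι × ι) ⊕ τ → R) :
    ∃ g η u c, x = Sum.elim (Core.mkD g η u) c :=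
  ⟨Core.gD (fs x), Core.eD (fs x), x (Sum.inl none), fun s => x (Sum.inr s), by
    funext s
    rcases s with (_ | s | s) | s <;> rfl⟩

theorem CoH_Dt (hp : Fb C.p k) {Ω : Type} [Field Ω] [Algebra k Ω] {g η : Matrix ι ι Ω} {u t : Ω}
    {c : CI ι C.d → Ω} (hx : C.Dt Ω (Core.mkD g η u))
    (h : LnAt C.V C.P C.F C.χ Ω g c (t ^ C.p - t)) :
    C.Dt Ω (Core.mkD g (crv c false (t ^ C.p - t) * η * C.F Ω (crv c true (t ^ C.p - t)))
      (u + t + C.lam Ω (um (crv c true (t ^ C.p - t))))) := by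
  obtain ⟨h1, h2, h3, h4⟩ := (C.Dt_iff g η u).1 hx
  obtain ⟨k1, k2, k3, k4, k5⟩ := h
  generalize crv c false (t ^ C.p - t) = v at *
  generalize crv c true (t ^ C.p - t) = w at *
  have hw := C.VG Ω w k2
  have ha := C.gG.adj Ω g h1
  refine (C.Dt_iff _ _ _).2 ⟨h1, C.gV.mul Ω _ _ (C.gV.mul Ω _ _ k1 h2) (C.F_V Ω w k2), ?_, ?_⟩
  · have := C.gP.mul Ω _ _ (C.gP.mul Ω _ _ k3 h3) k4
    rw [C.F_mul Ω _ _ (C.gG.mul Ω _ _ ha hw) h1, C.F_mul Ω _ _ ha hw, C.F_adj h1] at this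
    simp only [Matrix.mul_assoc, mul_adj_cancel (C.gG.det Ω g h1),
      mul_adj_cancel (C.gG.det Ω _ (C.F_G Ω g h1))] at this ⊢
    exact this
  · rw [Fb.as_add hp, Fb.as_add hp, h4, ← C.AS Ω w k2, ← k5,
      C.aχ Ω _ _ (C.gV.mul Ω _ _ k1 h2) (C.F_V Ω w k2), C.aχ Ω _ _ k1 h2]
    ring

/-- By ivan_of_hom. Let a = lγ γ, so a ^ p = a. For z = (mkD g η u, c) and a parameter T put
r = (a T) ^ p - a T, v = crv c false r, w = crv c true r; f replaces η by v * η * F w and u by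
u + a T + lam w, and f' replaces η by v.adjugate * η * (F w).adjugate and u by u - a T - lam w.
Use LTF.all, the identity g⁻¹ v η (F w) (F g) = (g⁻¹ v g) (g⁻¹ η F g) F (g⁻¹ w g), C.aχ, C.AS,
Fb.as_add; for T = 0 and T = 1 one has r = 0 (crv_zero, F_one, AddOn.one). -/
theorem Core.ivan_DL [IsAlgClosed k] (hp : Fb C.p k) {T : Fam k ((ι × ι) ⊕ CI ι C.d)} (hT : Ext T)
    (le : ∀ (Ω : Type) [Field Ω] [Algebra k Ω] t, T Ω t → C.LT Ω t) :
    IVan (C.DL T) (C.actD.left (CI ι C.d)) := by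
  refine ivan_of_hom C.hm (((cl_ext C.cl_Dt).comp nat_fs).and (hT.comp (nat_elim
    (nat_um (natV_gD.comp nat_fs)) (nat_proj Sum.inr)))) fun γ =>
    ⟨CoH_f C (C.lγ γ).toAdd, CoH_f' C (C.lγ γ).toAdd, CoH_nf C _, CoH_nf' C _,
      fun Ω _ _ x hx => ?_⟩
  obtain ⟨g, η, u, c, rfl⟩ := CoH_eta x
  obtain ⟨a, ha⟩ : ∃ a, a = algebraMap k Ω (C.lγ γ).toAdd := ⟨_, rfl⟩
  have hf : ∀ t : Ω, CoH_f C (C.lγ γ).toAdd Ω (oext (Sum.elim (Core.mkD g η u) c) t) =
      Sum.elim (Core.mkD g (crv c false ((a * t) ^ C.p - a * t) * η *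
        C.F Ω (crv c true ((a * t) ^ C.p - a * t)))
        (u + a * t + C.lam Ω (um (crv c true ((a * t) ^ C.p - a * t))))) c := fun t => by
    rw [ha]; rfl
  have h0 : ∀ t : Ω, (a * t) ^ C.p - a * t = 0 →
      CoH_f C (C.lγ γ).toAdd Ω (oext (Sum.elim (Core.mkD g η u) c) t) =
        Sum.elim (Core.mkD g η (u + a * t)) c := fun t h => by
    rw [hf, h, crv_zero, crv_zero, C.F_one, Matrix.one_mul, Matrix.mul_one, C.al.one C.gV, add_zero]
  refine ⟨?_, ?_, fun t => ?_⟩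
  · rw [h0 0 (by rw [mul_zero, zero_pow hp.prime.ne_zero, sub_zero]), mul_zero, add_zero]
  · rw [h0 1 (by rw [mul_one, ha, ← map_pow, C.lγ_pow, sub_self]), mul_one, ha]
    rfl
  · have h1 : LnAt C.V C.P C.F C.χ Ω g c ((a * t) ^ C.p - a * t) :=
      LTF.all C.gV.cl C.gP.cl C.nF C.nχ (le Ω _ hx.2) _
    rw [hf]
    refine ⟨⟨CoH_Dt C hp hx.1 h1, hx.2⟩, ?_⟩
    have e : ∀ (η' : Matrix ι ι Ω) (u' : Ω),
        CoH_f' C (C.lγ γ).toAdd Ω (oext (Sum.elim (Core.mkD g η' u') c) t) =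
        Sum.elim (Core.mkD g ((crv c false ((a * t) ^ C.p - a * t)).adjugate * η' *
          (C.F Ω (crv c true ((a * t) ^ C.p - a * t))).adjugate)
          (u' - a * t - C.lam Ω (um (crv c true ((a * t) ^ C.p - a * t))))) c := fun _ _ => by
      rw [ha]; rfl
    rw [e, Matrix.mul_assoc (crv c false _), adj_mul_cancel (C.gV.det Ω _ h1.1), Matrix.mul_assoc,
      mul_adj_self (C.gV.det Ω _ (C.F_V Ω _ h1.2.1)), Matrix.mul_one]
    congr 2
    ring

end Pool.Agent.MP_a9d3bd_s.W
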