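import Pool.Agent.MP_a9d3bd_w.Corr
import Pool.Agent.MP_a9d3bd_s.CorrB

/-! Formal properties of IVan. -/

namespace Pool.Agent.MP_a9d3bd_s.W

open Function Matrix MvPolynomial Pool.Agent.MP_a9d3bd_q

variable {k σ τ Γ : Type} [Field k] [Group Γ] [Rl Γ] {S S' : Fam k σ} {T : Fam k τ}
  {A : Act k σ Γ}

/-- By lift_fin, IsPreA.ext and hdeg_pos. -/
theorem ivan_of_dead [Finite τ] {Λ : Type} {a : Λ → PMap k τ σ} (hS : Ext S) (hT : Ext T)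
    (ha : ∀ l, IsNat (a l))
    (cov : ∀ (Ω : Type) [Field Ω] [Algebra k Ω] [IsAlgClosed Ω] x, S Ω x →
      ∃ l t, T Ω t ∧ a l Ω t = x) (h : ∀ l, Dead S A T (a l)) : IVan S A := by
  intro L _ _ j Φ hΦ E _ _ hE x
  letI := kAlg k L E
  haveI := kTower k L E
  by_cases hx : S E x
  · obtain ⟨l, E', _, _, _, _, ψ, t, hE', ht, hat, -⟩ := lift_fin (L := L) hS hT ha cov hE hx
    have h1 := h l L j Φ hΦ E' hE' t ht
    rw [hat, hΦ.pre.ext E E' hE hE' ψ x] at h1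
    have h2 : (hdeg ψ : ℚ) ≠ 0 := by
      exact_mod_cast (hdeg_pos hE hE' ψ).ne'
    exact (mul_eq_zero.1 h1).resolve_left h2
  · exact hΦ.supp E hE x hx

/-- By corr with b the identity. -/
theorem pull [Finite σ] [Finite τ] {AT : Act k τ Γ} {a : PMap k τ σ} (hT : Ext T) (hS : Ext S)
    (ha : IsNat a) (ma : Maps T S a) (oa : Onto T S a) (pa : Proper T S a)
    (eqv : ∀ g (Ω : Type) [Field Ω] [Algebra k Ω] [IsAlgClosed Ω] t, T Ω t →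
      T Ω (AT.a g Ω t) ∧ a Ω (AT.a g Ω t) = A.a g Ω (a Ω t))
    (h : IVan T AT) : IVan S A := by
  have hd : Dead S A T a := by
    refine corr (b := fun _ _ _ t => t) (A' := AT) hT hS hT ha nat_id ma
      (fun _ _ _ _ ht => ht) (fun _ _ _ _ y hy => ⟨y, hy, rfl⟩) pa (proper_id T) ?_ ?_ h
    · intro Ω _ _ _ t t' _ _ e
      refine ⟨1, one_mem _, ?_⟩
      rw [A.one]
      exact congrArg (a Ω) e.symm
    · intro g Ω _ _ _ t ht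
      obtain ⟨h1, h2⟩ := eqv g Ω t ht
      exact ⟨AT.a g Ω t, h1, rfl, h2⟩
  refine ivan_of_dead (Λ := Unit) (a := fun _ => a) hS hT (fun _ => ha) ?_ fun _ => hd
  intro Ω _ _ _ x hx
  obtain ⟨t, ht, e⟩ := oa Ω x hx
  exact ⟨(), t, ht, e⟩

theorem iso [Finite σ] [Finite τ] {AT : Act k τ Γ} {a : PMap k τ σ} {b : PMap k σ τ}
    (hT : Ext T) (hS : Ext S) (ha : IsNat a) (hb : IsNat b)
    (h1 : ∀ (Ω : Type) [Field Ω] [Algebra k Ω] [IsAlgClosed Ω] t, T Ω t →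
      S Ω (a Ω t) ∧ b Ω (a Ω t) = t)
    (h2 : ∀ (Ω : Type) [Field Ω] [Algebra k Ω] [IsAlgClosed Ω] x, S Ω x →
      T Ω (b Ω x) ∧ a Ω (b Ω x) = x)
    (eqv : ∀ g (Ω : Type) [Field Ω] [Algebra k Ω] [IsAlgClosed Ω] t, T Ω t →
      T Ω (AT.a g Ω t) ∧ a Ω (AT.a g Ω t) = A.a g Ω (a Ω t))
    (h : IVan T AT) : IVan S A :=
  pull hT hS ha (maps_of_ac hT hS ha fun Ω _ _ _ t ht => (h1 Ω t ht).1)
    (fun Ω _ _ _ y hy => ⟨b Ω y, (h2 Ω y hy).1, (h2 Ω y hy).2⟩)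
    (proper_of_inv hb (fun Ω _ _ _ t ht => (h1 Ω t ht).2) fun Ω _ _ _ y hy => (h2 Ω y hy).1)
    eqv h

theorem ivan_congr (hS : Ext S) (hS' : Ext S')
    (e : ∀ (Ω : Type) [Field Ω] [Algebra k Ω] [IsAlgClosed Ω] x, S Ω x ↔ S' Ω x) (h : IVan S A) :
    IVan S' A := by
  intro L _ _ j Φ hΦ
  refine h L j Φ ⟨⟨hΦ.pre, ?_, ?_, hΦ.kd, ?_⟩, ?_⟩
  · intro E _ _ _ _ hE x hx
    exact hΦ.supp E hE x fun hx' => hx (hS'.of_ac hS (fun Ω _ _ _ y hy => (e Ω y).2 hy) hx')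
  · intro E _ _ _ _ hE x g hx hg
    exact hΦ.rat E hE x g (hS.of_ac hS' (fun Ω _ _ _ y hy => (e Ω y).1 hy) hx) hg
  · intro g E _ _ _ _ hE x hx
    exact hΦ.inv g E hE x (hS.of_ac hS' (fun Ω _ _ _ y hy => (e Ω y).1 hy) hx)
  · intro E _ _ _ _ hE x hx
    exact hΦ.nrm E hE x (hS.of_ac hS' (fun Ω _ _ _ y hy => (e Ω y).1 hy) hx)

/-- Vanishing of all functionals that kill the cycles defined over the base field is enough. -/
theorem of_old (h : MP_a9d3bd_s.IVan S (Act.triv k σ Unit)) : IVan S A :=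
  fun L _ _ j Φ hΦ => h L j Φ ⟨hΦ.pre, hΦ.supp, hΦ.rat, hΦ.kd, fun _ _ _ _ _ _ _ _ _ => rfl⟩

end Pool.Agent.MP_a9d3bd_s.W
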