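import Pool.Agent.MP_a9d3bd_w.CoB
import Pool.Agent.MP_a9d3bd_w.CorrB
import Pool.Agent.MP_a9d3bd_s.Frob

/-! The Lang cover. -/

namespace Pool.Agent.MP_a9d3bd_s.W

open Function Matrix MvPolynomial Pool.Agent.MP_a9d3bd_q

variable {k ι N Γ : Type} [Field k] [Fintype ι] [DecidableEq ι] [LinearOrder ι] [Fintype N]
  [DecidableEq N] [Group Γ] [Rl Γ] (C : Core k ι N Γ)

section

variable {Ω : Type} [Field Ω] [Algebra k Ω] {g h : Matrix ι ι Ω}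

theorem CoL_lang (hg : C.G Ω g) (hh : C.V Ω h) :
    (h * g).adjugate * C.F Ω (h * g) = g.adjugate * (h.adjugate * C.F Ω h) * C.F Ω g := by
  rw [C.F_mul Ω _ _ (C.VG Ω _ hh) hg, adjugate_mul_distrib]
  simp only [Matrix.mul_assoc]

theorem CoL_as (hh : C.V Ω h) :
    C.lam Ω (um h) ^ C.p - C.lam Ω (um h) = C.χ Ω (um (h.adjugate * C.F Ω h)) := by
  rw [C.aχ Ω _ _ (C.gV.adj Ω _ hh) (C.F_V Ω _ hh), C.aχ.adj C.gV hh, ← C.AS Ω _ hh]
  ring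

theorem CoL_γ (γ : Γ) (hh : C.V Ω h) :
    (cm Ω (C.γm γ) * h).adjugate * C.F Ω (cm Ω (C.γm γ) * h) = h.adjugate * C.F Ω h := by
  have h1 : C.V Ω (cm Ω (C.γm γ)) := (C.gV.cm_iff _).2 (C.γV γ)
  rw [CoL_lang C (C.VG Ω _ hh) h1, C.F_γ, adj_mul_self (C.gV.det Ω _ h1), Matrix.mul_one]

theorem CoL_lam (γ : Γ) (hh : C.V Ω h) :
    C.lam Ω (um (cm Ω (C.γm γ) * h)) = C.lam Ω (um h) + algebraMap k Ω (C.lγ γ).toAdd := by
  rw [C.al Ω _ _ ((C.gV.cm_iff _).2 (C.γV γ)) hh, C.lam_γ, add_comm]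

end

/-- As Core.ivan_Q of MP_a9d3bd_s/CoD. Apply corr with T = S = TW, a the identity and
b (g, h) = mkD g (h.adjugate * F h) (lam h), then ivan_of_dead. Maps: C.AS, C.aχ, AddOn.adj.
Onto: take h from C.LS; c = u - lam h satisfies c ^ p = c (Fb.as_sub), so it comes from k
(frob_fixed) and from some γ (C.onto); use γ h. Proper: C.LP. fib: C.LF, C.al, C.lam_γ, C.hZ. -/
theorem Core.ivan_TW [IsAlgClosed k] (hp : Fb C.p k) (h : IVan C.Dt C.actD) :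
    IVan C.TW C.actW := by
  have hT := cl_ext C.cl_TW
  have hD := cl_ext C.cl_Dt
  refine ivan_of_dead (Λ := Unit) (a := fun _ _ _ _ t => t) hT hT (fun _ => nat_id)
    (fun Ω _ _ _ x hx => ⟨(), x, hx, rfl⟩) fun _ => ?_
  refine corr (A' := C.actD) (S' := C.Dt)
    (b := fun R _ _ t => Core.mkD (mat (fs t)) ((sm t).adjugate * C.F R (sm t))
      (C.lam R (um (sm t)))) hT hT hD nat_id
    (nat_mkD (natV_mat nat_fs) (natV_sm.adj.mul (C.nF.app natV_sm)) (natF_um C.nl natV_sm))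
    (fun Ω _ _ t ht => ht)
    (fun Ω _ _ t ht => (C.Dt_iff _ _ _).2 ⟨ht.1, ?_, ?_, CoL_as C ht.2.1⟩)
    (fun Ω _ _ _ x hx => ?_) (proper_id _)
    (fun V t o ht ho _ => ?_) (fun Ω _ _ _ t t' ht ht' e => ?_)
    (fun g Ω _ _ _ t ht => ⟨C.actW.a g Ω t, C.stab_TW g Ω t ht, ?_, rfl⟩) h
  · exact C.gV.mul Ω _ _ (C.gV.adj Ω _ ht.2.1) (C.F_V Ω _ ht.2.1)
  · have := ht.2.2.2
    rw [CoL_lang C ht.1 ht.2.1] at this
    exact this
  · obtain ⟨m, hm, e⟩ := C.LS Ω (Core.eD x) hx.2.1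
    have h1 : (x none - C.lam Ω (um m)) ^ C.p = x none - C.lam Ω (um m) := by
      have := Fb.as_sub hp (x none) (C.lam Ω (um m))
      rw [hx.2.2.2, CoL_as C hm, e, sub_self] at this
      exact sub_eq_zero.1 this
    obtain ⟨c, hc⟩ := frob_fixed (k := k) hp.prime.one_lt h1
    obtain ⟨γ, hγ⟩ := C.onto c ((algebraMap k Ω).injective (by rw [map_pow, hc, h1]))
    have h2 : C.V Ω (cm Ω (C.γm γ) * m) := C.gV.mul Ω _ _ ((C.gV.cm_iff _).2 (C.γV γ)) hm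
    refine ⟨pr (um (Core.gD x)) (cm Ω (C.γm γ) * m), ⟨hx.1, h2, ?_, ?_⟩, ?_⟩
    · exact C.gG.mul Ω _ _ (C.VG Ω _ h2) hx.1
    · rw [sm_pr, fs_pr, mat_um, CoL_lang C hx.1 h2, CoL_γ C γ hm, e]
      exact hx.2.2.1
    · simp only [sm_pr, fs_pr, mat_um]
      rw [CoL_γ C γ hm, CoL_lam C γ hm, e, hγ, hc, add_sub_cancel, mkD_eta]
  · obtain ⟨h₀, e⟩ := C.LP V (sm t) (Core.eD o) ht.2.1 (congrArg Core.eD ho).symm
    have e₁ : V.gen (um (Core.gD o)) = fs t := congrArg (fun x => um (Core.gD x)) ho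
    have e' : V.gen (pr (um (Core.gD o)) h₀) = t := by rw [V.gen_pr, e, e₁, pr_fs_sm]
    exact ⟨_, e', V.cl_sp C.cl_TW (e' ▸ ht)⟩
  · obtain ⟨e0, e1, e3⟩ := mkD_inj.1 e
    have hG := C.VG Ω _ ht.2.1
    have hG' := C.VG Ω _ ht'.2.1
    have d := C.gG.det Ω _ hG
    have d' := C.gG.det Ω _ hG'
    have dF := C.gG.det Ω _ (C.F_G Ω _ hG)
    have e2 : C.F Ω (sm t') = sm t' * ((sm t).adjugate * C.F Ω (sm t)) := by
      rw [e1, mul_adj_cancel d']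
    obtain ⟨γ, hγ⟩ := C.LF Ω (sm t' * (sm t).adjugate)
      (C.gV.mul Ω _ _ ht'.2.1 (C.gV.adj Ω _ ht.2.1)) (by
        rw [C.F_mul Ω _ _ hG' (C.gG.adj Ω _ hG), C.F_adj hG, e2, Matrix.mul_assoc,
          Matrix.mul_assoc, mul_adj_self dF, Matrix.mul_one])
    have e4 : cm Ω (C.γm γ) * sm t = sm t' := by
      rw [← hγ, Matrix.mul_assoc, adj_mul_self d, Matrix.mul_one]
    refine ⟨γ, C.hZ γ ((algebraMap k Ω).injective ?_), ?_⟩
    · have := CoL_lam C γ ht.2.1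
      rw [e4, ← e3] at this
      rw [map_zero]
      exact (left_eq_add.1 this)
    · have e5 : fs t = fs t' := congrArg um e0
      show t' = pr (fs t) (cm Ω (C.γm γ) * sm t)
      rw [e4, e5, pr_fs_sm]
  · show Core.mkD (mat (fs t)) ((cm Ω (C.γm g) * sm t).adjugate * C.F Ω (cm Ω (C.γm g) * sm t))
      (C.lam Ω (um (cm Ω (C.γm g) * sm t))) = _
    rw [CoL_γ C g ht.2.1, CoL_lam C g ht.2.1, C.actD_mkD]

end Pool.Agent.MP_a9d3bd_s.W
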