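import Pool.Agent.MP_a9d3bd_w.IDefs
import Pool.Agent.MP_a9d3bd_s.Cone

/-! From the punctured cone to the projective variety. -/

namespace Pool.Agent.MP_a9d3bd_s.W

open Function Matrix MvPolynomial Pool.Agent.MP_a9d3bd_q

variable {k ι Γ : Type} [Field k] [Group Γ] [Rl Γ] [Fintype ι] [DecidableEq ι]
  {S : Set (MvPolynomial ι k)} {ρ : Γ →* Matrix ι ι k}

theorem adm_gys (hS : Homog S) (st : (Act.lin ρ).Stab (coneS S)) {L : Type} [Field L]
    [Algebra k L] {j : ℕ} {Φ : Raw L ι} (h : AdmP L j S (Act.lin ρ) Φ) :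
    AdmP L (j + 1) S (Act.lin ρ) (gys (MvPolynomial.map (algebraMap k L) '' S) 0 1 Φ) := by
  refine ⟨MP_a9d3bd_s.adm_gys (ρ := ρ.comp (Rl.Z : Subgroup Γ).subtype) hS (fun g => st g.1)
    h.toAdmP, fun E _ _ _ _ hE y hy => ?_⟩
  have hy0 := (coneS_iff L _).1 hy
  have e : ∀ g, gys (MvPolynomial.map (algebraMap k L) '' S) 0 1 Φ E ((Act.lin ρ).a g E y) =
      -Dm Φ E ((Act.lin ρ).a g E y) := fun g => by
    simp only [gys]
    rw [if_pos ((coneS_iff L _).1 (st g E y hy)), map_zero, Dv_zero]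
    simp
  simp only [e]
  rw [Finset.sum_neg_distrib, neg_eq_zero]
  unfold Dm
  rw [← finsum_sum_comm _ _ fun n _ => Dm_fin h.fn.pre hE _]
  refine finsum_eq_zero_of_forall_eq_zero fun O => ?_
  let _ := kAlg k L O.K
  have _ := kTower k L O.K
  simp only [(dv_lin (ρ := ρ) O _ y).1, (dv_lin (ρ := ρ) O _ y).2]
  rw [← Finset.mul_sum, h.nrm O.K (O.ff_K hE) (O.red y)
    ((coneS_iff L _).2 ⟨O.red_ne hy0.1, O.on_red (homog_map hS) hy0.2⟩), mul_zero]

theorem adm_psi (hS : Homog S) (st : (Act.lin ρ).Stab (coneS S)) {L : Type} [Field L]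
    [Algebra k L] {j : ℕ} {Φ : Raw L ι} (h : AdmP L j S (Act.lin ρ) Φ)
    (h0 : ∀ (K : Type) [Field K] [Algebra L K], FF L K (j + 1) → ∀ y : ι → K, y ≠ 0 →
      On (MvPolynomial.map (algebraMap k L) '' S) y → Dm Φ K y = 0) :
    AdmF L (j + 1) (coneS S) (Act.lin ρ) (psi (MvPolynomial.map (algebraMap k L) '' S) Φ) := by
  classical
  refine ⟨MP_a9d3bd_s.adm_psi (ρ := ρ.comp (Rl.Z : Subgroup Γ).subtype) hS (fun g => st g.1)
    h.toAdmP h0, fun E _ _ _ _ hE y hy => ?_⟩
  have hy0 := (coneS_iff L _).1 hy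
  have e : ∀ g, psi (MvPolynomial.map (algebraMap k L) '' S) Φ E ((Act.lin ρ).a g E y) =
      ∑ᶠ O : DV L E, if 0 < O.mu ((Act.lin ρ).a g E y) then
        (O.mu ((Act.lin ρ).a g E y) : ℚ) * Φ O.K (O.red ((Act.lin ρ).a g E y)) else 0 :=
    fun g => if_pos ((coneS_iff L _).1 (st g E y hy))
  simp only [e]
  rw [← finsum_sum_comm _ _ fun n _ => (Dm_fin h.fn.pre hE ((Act.lin ρ).a (Rl.s n) E y)).subset
    fun O hO => (ite_ne_right_iff.1 hO).2]
  refine finsum_eq_zero_of_forall_eq_zero fun O => ?_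
  let _ := kAlg k L O.K
  have _ := kTower k L O.K
  simp only [(dv_lin (ρ := ρ) O _ y).1, (dv_lin (ρ := ρ) O _ y).2]
  split_ifs
  · rw [← Finset.mul_sum, h.nrm O.K (O.ff_K hE) (O.red y)
      ((coneS_iff L _).2 ⟨O.red_ne hy0.1, O.on_red (homog_map hS) hy0.2⟩), mul_zero]
  · exact Finset.sum_const_zero

/-- Downward induction on j; for Fintype.card ι ≤ j all points are degenerate (td_kf_le). -/
theorem cone (hS : Homog S) (st : (Act.lin ρ).Stab (coneS S)) (h : IVan (coneS S) (Act.lin ρ)) :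
    PVan S (Act.lin ρ) := by
  intro L _ _
  have key : ∀ n j : ℕ, Fintype.card ι ≤ j + n → ∀ Φ : Raw L ι, AdmP L j S (Act.lin ρ) Φ →
      ∀ (E : Type) [Field E] [Algebra L E], FF L E j → ∀ y : ι → E, Φ E y = 0 := by
    intro n
    induction n with
    | zero =>
      intro j hj Φ hΦ E _ _ hE y
      letI := kAlg k L E
      haveI := kTower k L E
      by_cases hy : y = 0
      · exact hΦ.supp E hE y fun h1 => h1.2 hy
      · refine hΦ.fn.pre.degen E hE y fun h1 => ?_
        have h2 := (nd_iff hE y).1 h1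
        have h3 := td_kf_le (k := L) hy
        omega
    | succ n ih =>
      intro j hj Φ hΦ E _ _ hE y
      letI := kAlg k L E
      haveI := kTower k L E
      by_cases hy : coneS S E y
      · rw [coneS_iff L] at hy
        have h0 : ∀ (K : Type) [Field K] [Algebra L K], FF L K (j + 1) → ∀ y : ι → K, y ≠ 0 →
            On (MvPolynomial.map (algebraMap k L) '' S) y → Dm Φ K y = 0 := by
          intro K _ _ hK z hz hz'
          have h1 := ih (j + 1) (by omega) _ (adm_gys hS st hΦ) K hK z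
          unfold gys at h1
          rw [if_pos ⟨hz, hz'⟩, map_zero, Dv_zero] at h1
          simpa using h1
        rw [← psi_X (homog_map hS) hΦ.fn.pre hE hy.1 hy.2]
        exact h L (j + 1) _ (adm_psi hS st hΦ h0) _ (ff_ratFunc hE) _
      · exact hΦ.supp E hE y hy
  intro j Φ hΦ
  exact key (Fintype.card ι) j (by omega) Φ hΦ

end Pool.Agent.MP_a9d3bd_s.W
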