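import Pool.Agent.MP_a9d3bd_w.Up
import Pool.Agent.MP_a9d3bd_w.Canc
import Pool.Agent.MP_a9d3bd_s.GLA

/-! Cancellation of a factor SL. -/

namespace Pool.Agent.MP_a9d3bd_s.W

open Function Matrix MvPolynomial Pool.Agent.MP_a9d3bd_q

variable {k σ ι Γ : Type} [Field k] [Group Γ] [Rl Γ] [Finite σ] [Fintype ι] [DecidableEq ι]
  {Y : Fam k σ} {A : Act k σ Γ}

/-- By up_ne and pull for the map (y, s, c) ↦ (y, s * diagonal (update 1 i c)). For
properness note that c is the determinant of the image, a unit. -/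
theorem sl_gl [Nonempty ι] (ρ : Γ →* Matrix ι ι k) (hρ : ∀ g, (ρ g).det = 1) (hY : Ext Y)
    (st : A.Stab Y) (h : IVan (prodM Y (SLf k ι)) (A.lm ρ)) :
    IVan (prodM Y (GLf k ι)) (A.lm ρ) := by
  obtain ⟨i⟩ := ‹Nonempty ι›
  have hZ : Ext (prodM Y (SLf k ι)) := ext_prodM hY grp_SL.ext
  have st' : (A.lm ρ).Stab (prodM Y (SLf k ι)) := by
    intro g Ω _ _ x hx
    refine ⟨st g Ω _ hx.1, ?_⟩
    change (cm Ω (ρ g) * sm x).det = 1
    have h2 : (sm x).det = 1 := hx.2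
    rw [Matrix.det_mul, det_cm (hρ g), h2, one_mul]
  have hd : NatV (fun _ _ _ t => GLB_dg i (t none) : VM k (Option (σ ⊕ ι × ι)) ι) :=
    fun R R' _ _ _ _ φ y => GLB_map i φ (y none)
  refine pull (AT := (A.lm ρ).opt)
    (a := fun _ _ _ t => rmul (fun s => t (some s)) (GLB_dg i (t none))) (ext_optN hZ)
    (ext_prodM hY lcl_GL.ext) (nat_rmul (nat_proj some) hd) ?_ ?_ ?_ ?_ (up_ne hZ st' h)
  · intro Ω _ _ t ht
    refine ⟨ht.1.1, ?_⟩
    change (sm (fun s => t (some s)) * GLB_dg i (t none)).det ≠ 0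
    have h2 : (sm fun s => t (some s)).det = 1 := ht.1.2
    rw [Matrix.det_mul, h2, GLB_det, one_mul]
    exact ht.2
  · intro Ω _ _ _ y hy
    have h2 : (sm y).det ≠ 0 := hy.2
    refine ⟨oext (rmul y (GLB_dg i (sm y).det⁻¹)) (sm y).det, ⟨⟨hy.1, ?_⟩, h2⟩, ?_⟩
    · change (sm y * GLB_dg i (sm y).det⁻¹).det = 1
      rw [Matrix.det_mul, GLB_det, mul_inv_cancel₀ h2]
    · change rmul (rmul y (GLB_dg i (sm y).det⁻¹)) (GLB_dg i (sm y).det) = y
      rw [rmul_rmul, GLB_mul i (inv_mul_cancel₀ h2), rmul_one]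
  · intro V t o ht ho hsp
    have h1 : V.π (sm o).det ≠ 0 := by
      rw [← det_map]
      exact hsp.2
    obtain ⟨u, hu⟩ := (V.loc _ h1).exists_right_inv
    have h2 : (sm fun s => t (some s)).det = 1 := ht.1.2
    have h3 : V.i (sm o).det = t none := by
      rw [← det_map, ← V.sm_gen, ho, sm_rmul, Matrix.det_mul, h2, GLB_det, one_mul]
    refine ⟨oext (rmul o (GLB_dg i u)) (sm o).det, ?_, ⟨⟨hsp.1, ?_⟩, h1⟩⟩
    · have h4 : t none * V.i u = 1 := by rw [← h3, ← map_mul, hu, map_one]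
      have h5 : V.gen (rmul o (GLB_dg i u)) = rmul (V.gen o) (GLB_dg i (V.i u)) :=
        GLB_rmul_map i V.i o u
      rw [V.gen_oext, h5, ho, rmul_rmul, GLB_mul i h4, rmul_one, h3, oext_eta]
    · change ((sm o * GLB_dg i u).map V.π).det = 1
      rw [det_map, Matrix.det_mul, GLB_det, hu, map_one]
  · intro g Ω _ _ _ t ht
    refine ⟨stab_optN st' g Ω t ht, ?_⟩
    change pr _ (cm Ω (ρ g) * sm (fun s => t (some s)) * GLB_dg i (t none)) =
      pr _ (cm Ω (ρ g) * (sm (fun s => t (some s)) * GLB_dg i (t none)))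
    rw [Matrix.mul_assoc]
    rfl

/-- By hom_inv an admissible functional for A.left is admissible for A.lm ρ. -/
theorem gl_left (ρ : Γ →* Matrix ι ι k) (hρ : ∀ g, (ρ g).det = 1) (hY : Ext Y) (st : A.Stab Y)
    (h : IVan (prodM Y (GLf k ι)) (A.lm ρ)) :
    IVan (prodM Y (GLf k ι)) (A.left (ι × ι)) := by
  intro L _ _ j Φ hΦ
  have h1 : ∀ g (E : Type) [Field E] [Algebra L E] [Algebra k E] [IsScalarTower k L E],
      FF L E j → ∀ x, prodM Y (GLf k ι) E x →
        Φ E ((A.lm ρ).a g E x) = Φ E ((A.left (ι × ι)).a g E x) := fun g E _ _ _ _ hE x hx =>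
    hom_inv hY hΦ.toAdmF (γ := ρ g) (by rw [hρ]; exact one_ne_zero) hE (st g E _ hx.1)
      (m := sm x) hx.2
  refine h L j Φ ⟨⟨hΦ.pre, hΦ.supp, hΦ.rat, hΦ.kd, fun g E _ _ _ _ hE x hx => ?_⟩,
    fun E _ _ _ _ hE x hx => ?_⟩
  · exact (h1 g.1 E hE x hx).trans (hΦ.inv g E hE x hx)
  · rw [← hΦ.nrm E hE x hx]
    exact Finset.sum_congr rfl fun i _ => h1 _ E hE x hx

theorem GLA_step (hY : Cvx Y) (st : A.Stab Y) {C : Finset (ι × ι)} {c : ι × ι} (hc : c ∉ C)
    (h : IVan (GLA_S Y C) (A.left (ι × ι))) : IVan (GLA_S Y (insert c C)) (A.left (ι × ι)) := by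
  classical
  have h1 := canc (Sum.inr c) ((1 : Matrix ι ι k) c.1 c.2) (GLA_cvx hY C) (GLA_stab st C)
    (fun _ _ _ _ _ _ => rfl) (fun Ω _ _ x t hx _ hle => by
      have e : fs (update x (Sum.inr c) t) = fs x := by
        funext s
        exact update_of_ne Sum.inl_ne_inr _ _
      refine ⟨⟨e ▸ hx.1.1, fun h0 => hx.1.2 ?_⟩, fun d => ?_⟩
      · exact natF_zero (natF_det natV_sm) hle h0
      · rw [update_of_ne fun e' => hc (by rw [← Sum.inr_injective e']; exact d.2)]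
        exact hx.2 d) h
  have e : GLA_S Y (insert c C) = (fun Ω _ _ x =>
      GLA_S Y C Ω x ∧ x (Sum.inr c) = algebraMap k Ω ((1 : Matrix ι ι k) c.1 c.2) :
        Fam k (σ ⊕ ι × ι)) := by
    funext Ω _ _ x
    refine propext ⟨fun hx => ⟨⟨hx.1, fun d => hx.2 ⟨d.1, Finset.mem_insert_of_mem d.2⟩⟩,
      hx.2 ⟨c, Finset.mem_insert_self c C⟩⟩, fun hx => ⟨hx.1.1, fun d => ?_⟩⟩
    rcases Finset.mem_insert.1 d.2 with e | e
    · rw [e]
      exact hx.2
    · exact hx.1.2 ⟨d.1, e⟩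
  rw [e]
  exact h1

/-- For a finite set C of positions let S C be the part of prodM Y GLf where the entries at
the positions in C are those of the identity matrix. Induct on C with canc and
ivan_congr, and finish with iso. -/
theorem gl_canc (hY : Cvx Y) (st : A.Stab Y) (h : IVan (prodM Y (GLf k ι)) (A.left (ι × ι))) :
    IVan Y A := by
  have h1 : ∀ C : Finset (ι × ι), IVan (GLA_S Y C) (A.left (ι × ι)) := by
    intro C
    induction C using Finset.induction_on with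
    | empty =>
      have e : GLA_S Y (∅ : Finset (ι × ι)) = prodM Y (GLf k ι) := by
        funext Ω _ _ x
        simp [GLA_S]
      rw [e]
      exact h
    | insert c C hc ih => exact GLA_step hY st hc ih
  refine iso (a := fun _ _ _ t => fs t) (b := fun _ _ _ y => pr y 1) (GLA_cvx hY _).ext hY.ext
    nat_fs (nat_pr nat_id natV_one) (fun Ω _ _ _ t ht => ⟨ht.1.1, ?_⟩)
    (fun Ω _ _ _ y hy => ⟨⟨⟨hy, ?_⟩, fun c => (GLA_one Ω _ _).symm⟩, rfl⟩)
    (fun g Ω _ _ _ t ht => ⟨GLA_stab st _ g Ω t ht, rfl⟩) (h1 Finset.univ)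
  · funext s
    cases s with
    | inl s => rfl
    | inr c => exact ((ht.2 ⟨c, Finset.mem_univ c⟩).trans (GLA_one Ω _ _)).symm
  · show (1 : Matrix ι ι Ω).det ≠ 0
    rw [Matrix.det_one]
    exact one_ne_zero

theorem slc [Nonempty ι] (ρ : Γ →* Matrix ι ι k) (hρ : ∀ g, (ρ g).det = 1) (hY : Cvx Y)
    (st : A.Stab Y) (h : IVan (prodM Y (SLf k ι)) (A.lm ρ)) : IVan Y A :=
  gl_canc hY st (gl_left ρ hρ hY.ext st (sl_gl ρ hρ hY.ext st h))

end Pool.Agent.MP_a9d3bd_s.W
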