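import Pool.Agent.MP_a9d3bd_w.CoF
import Pool.Agent.MP_a9d3bd_s.Bru
import Pool.Agent.MP_a9d3bd_w.GL
import Pool.Agent.MP_a9d3bd_w.Cone

/-! From the group to the projective variety. -/

namespace Pool.Agent.MP_a9d3bd_s.W

open Function Matrix MvPolynomial Pool.Agent.MP_a9d3bd_q

variable {k ι N Γ : Type} [Field k] [Fintype ι] [DecidableEq ι] [LinearOrder ι] [Fintype N]
  [DecidableEq N] [Group Γ] [Rl Γ] (C : Core k ι N Γ)

variable [IsAlgClosed k] {p : ℕ} {y : Matrix ι ι k} {Orb : Fam k N}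

omit [IsAlgClosed k] in
theorem CoM_lcl (hO : C.Orb1 C.H y Orb) : LCl (C.CY Orb) := C.lcl_XC.and hO.lc

omit [IsAlgClosed k] in
theorem CoM_G {Ω : Type} [Field Ω] [Algebra k Ω] (hy : C.G k y) {h : Matrix ι ι Ω}
    (hh : C.H Ω h) : C.G Ω (h * cm Ω y) :=
  C.gG.mul Ω _ _ (C.HG Ω h hh) ((C.gG.cm_iff y).2 hy)

omit [IsAlgClosed k] in
theorem CoM_map {R R' : Type} [CommRing R] [Algebra k R] [CommRing R'] [Algebra k R']
    (φ : R →ₐ[k] R') (h : Matrix ι ι R) (c : R) :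
    (fun n => φ ((c • C.pt (h * cm R y)) n)) = φ c • C.pt (h.map φ * cm R' y) := by
  rw [← cm_map φ y, ← mul_map, ← C.pt_map φ]
  funext n
  simp

theorem CoM_ya {Ω : Type} [Field Ω] [Algebra k Ω] [IsAlgClosed Ω] (hy : C.G k y)
    {h : Matrix ι ι Ω} {c : Ω} (hh : C.H Ω h) (hc : c ≠ 0)
    (hx : C.XC Ω (c • C.pt (h * cm Ω y))) :
    C.YA y Ω (pr (c • C.pt (h * cm Ω y)) (h * cm Ω y)) := by
  obtain ⟨g, c', hg, _, e⟩ := (C.xc_iff _).1 hx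
  refine (C.ya_iff _).2 ⟨h, c, 1, ⟨hh, C.Yh_line hg (CoM_G C hy hh) hc e.symm⟩, hc,
    grp_B.one Ω, ?_⟩
  rw [Matrix.mul_one]

/-- For hl take g = h * cm y from hO.hl. -/
theorem Core.dcd (hy : C.G k y) (hO : C.Orb1 C.H y Orb) :
    DCD (C.YA y) (prodM (C.CY Orb) (SLf k ι)) (SLf k ι) (Bf k ι) (Bf k ι) C.actY := by
  refine ⟨C.good_YA y, cvx_prodM (CoM_lcl C hO).cvx grp_SL.cvx, grp_SL, grp_B, grp_B,
    grp_B.le_SL, grp_B.le_SL, ut_B, bruhat, C.stab_YA hy, ?_, ?_, ?_, ?_, ?_, ?_, ?_, ?_⟩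
  · intro g Ω _ _ x hx
    refine ⟨C.cy_stab hy hO g Ω _ hx.1, ?_⟩
    have h2 : (sm x).det = 1 := hx.2
    change (cm Ω (C.γm g) * sm x).det = 1
    rw [Matrix.det_mul, det_cm (C.det_γ g), h2, one_mul]
  · intro g Ω _ _ x m
    change pr ((Act.lin C.ρ).a g Ω (fs x)) (cm Ω (C.γm g) * (sm x * m)) =
      pr ((Act.lin C.ρ).a g Ω (fs x)) (cm Ω (C.γm g) * sm x * m)
    rw [Matrix.mul_assoc]
  · intro Ω _ _ _ x hx
    obtain ⟨h, c, b, hQ, _, hb, rfl⟩ := (C.ya_iff x).1 hx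
    rw [sm_pr, Matrix.det_mul, C.gG.det Ω _ (CoM_G C hy hQ.1), hb.2, one_mul]
  · intro Ω _ _ _ x r hx hr
    obtain ⟨h, c, b, hQ, hc, hb, rfl⟩ := (C.ya_iff x).1 hx
    refine (C.ya_iff _).2 ⟨h, c, b * r, hQ, hc, grp_B.mul Ω _ _ hb hr, ?_⟩
    rw [rmul_pr, Matrix.mul_assoc _ b r]
  · intro Ω _ _ _ x g hx hg
    obtain ⟨h, c, b, hQ, hc, hb, rfl⟩ := (C.ya_iff x).1 hx
    refine ⟨(C.cy_iff hy hO _).2 ⟨h, c, hQ, hc, rfl⟩, ?_⟩
    have h2 : g.det = 1 := hg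
    change (h * cm Ω y * b * g).det = 1
    rw [Matrix.det_mul, Matrix.det_mul, C.gG.det Ω _ (CoM_G C hy hQ.1), hb.2, h2, one_mul,
      one_mul]
  · intro Ω _ _ _ w hw
    obtain ⟨h, c, hQ, hc, e⟩ := (C.cy_iff hy hO _).1 hw.1
    have hd := C.gG.det Ω _ (CoM_G C hy hQ.1)
    have h2 : (sm w).det = 1 := hw.2
    refine ⟨pr (c • C.pt (h * cm Ω y)) (h * cm Ω y * 1), (h * cm Ω y).adjugate * sm w,
      (C.ya_iff _).2 ⟨h, c, 1, hQ, hc, grp_B.one Ω, rfl⟩, ?_, ?_⟩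
    · change ((h * cm Ω y).adjugate * sm w).det = 1
      rw [Matrix.det_mul, det_adj hd, h2, one_mul]
    · rw [rmul_pr, Matrix.mul_one, mul_adj_cancel hd, ← e, pr_fs_sm]
  · intro Ω _ _ _ x x' hx hx' e
    obtain ⟨h, c, b, hQ, hc, hb, rfl⟩ := (C.ya_iff x).1 hx
    obtain ⟨h', c', b', hQ', hc', hb', rfl⟩ := (C.ya_iff x').1 hx'
    have h1 := C.same_line (CoM_G C hy hQ.1) (CoM_G C hy hQ'.1) hc' e
    have h2 := C.gB.le_B C.ut Ω _ h1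
    have h3 := grp_B.mul Ω _ _ (grp_B.adj Ω _ hb) (grp_B.mul Ω _ _ h2 hb')
    rw [sm_pr, sm_pr, Matrix.adjugate_mul_distrib (h * cm Ω y) b, Matrix.mul_assoc,
      ← Matrix.mul_assoc (h * cm Ω y).adjugate]
    exact h3
  · intro V o hg hs
    obtain ⟨h, c, hh, hc, e⟩ := hO.hl V (fs o) hg.1.2 hs.1.2
    have hπ : V.π c ≠ 0 := (V.unit_iff c).1 hc
    have e1 : V.gen (fs o) = V.i c • C.pt (h.map V.i * cm V.Ω y) := by
      rw [e]; exact CoM_map C V.i h c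
    have e2 : V.sp (fs o) = V.π c • C.pt (h.map V.π * cm V.κ y) := by
      rw [e]; exact CoM_map C V.π h c
    refine ⟨h * cm V.O y, ?_, ?_⟩
    · rw [V.gen_pr, mul_map, cm_map, e1]
      refine CoM_ya C hy hh (V.gen_ne hπ) ?_
      rw [← e1]
      exact hg.1.1
    · rw [V.sp_pr, mul_map, cm_map, e2]
      refine CoM_ya C hy (C.gH.sp V hh) hπ ?_
      rw [← e2]
      exact hs.1.1

/-- By dc and slc. -/
theorem Core.ivan_CY [Nonempty ι] (hp : Fb p k) (hy : C.G k y) (hO : C.Orb1 C.H y Orb)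
    (h : IVan (C.Q y).fam (Act.lmul C.γm)) : IVan (C.CY Orb) (Act.lin C.ρ) :=
  slc C.γm C.det_γ (CoM_lcl C hO).cvx (C.cy_stab hy hO)
    (W.dc hp (C.dcd hy hO) (C.ivan_YA hp hy hO h))

/-- By strat for the orbits of the members of the finite set of C.dc (orbC, cover,
xc_iff, pt_mul_B), and cone. -/
theorem Core.pvan [Nonempty ι] (hp : Fb p k)
    (h : ∀ y, C.G k y → IVan (C.Q y).fam (Act.lmul C.γm)) : PVan C.eqs (Act.lin C.ρ) := by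
  obtain ⟨Y, hY, hcov⟩ := C.dc
  obtain ⟨Orb, r, hO, hord⟩ := C.orbC C.gH C.HG (fun l : Y => l.1) fun l => hY l.1 l.2
  have hk : ∀ z, C.XC k z → ∃ l, Orb l k z := by
    intro z hz
    obtain ⟨g, c, hg, hc, rfl⟩ := (C.xc_iff z).1 hz
    obtain ⟨y, hyY, s, s', hs, hs', rfl⟩ := hcov g hg.1
    refine ⟨⟨y, hyY⟩, ((hO ⟨y, hyY⟩).iff k _).2
      ⟨s, c * C.pt s' C.n₀, hs, mul_ne_zero hc (C.pt_B hs').2, ?_⟩⟩
    rw [C.pt_mul_B (C.gG.mul k _ _ (C.HG k s hs) (hY y hyY)) hs', cm_self, smul_smul]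
  refine W.cone C.homog C.xc_stab
    (strat (W := fun l => C.CY (Orb l)) (r := r) C.lcl_XC.ext
    (fun l => (CoM_lcl C (hO l)).ext) (fun l => C.cy_stab (hY l.1 l.2) (hO l))
    (fun l Ω _ _ _ x hx => hx.1) ?_ ?_ fun l => C.ivan_CY hp (hY l.1 l.2) (hO l) (h _ (hY l.1 l.2)))
  · intro Ω _ _ _ x hx
    obtain ⟨l, hl⟩ := cover C.lcl_XC.good (fun l => (hO l).lc) hk hx
    exact ⟨l, hx, hl⟩
  · intro l l' V o h h'
    rcases hord l l' V o h.2 h'.2 with a | a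
    · exact Or.inl ⟨h'.1, a⟩
    · exact Or.inr a

end Pool.Agent.MP_a9d3bd_s.W
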