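import Pool.Agent.MP_a9d3bd_w.CoA
import Pool.Agent.MP_a9d3bd_s.Strata

/-! Orbits in the cone. -/

namespace Pool.Agent.MP_a9d3bd_s.W

open Function Matrix MvPolynomial Pool.Agent.MP_a9d3bd_q

variable {k ι N Γ : Type} [Field k] [Fintype ι] [DecidableEq ι] [LinearOrder ι] [Fintype N]
  [DecidableEq N] [Group Γ] [Rl Γ] (C : Core k ι N Γ)

/-- The action of scalars and of `M` on the cone. -/
def CoO_ad {M : MFam k ι} (hM : IsGrp M) (le : M.Le C.G) : AD k (Bool ⊕ ι × ι) N where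
  K Ω _ _ g := g (Sum.inl false) * g (Sum.inl true) = 1 ∧ M Ω (sm g)
  mul _ _ _ g g' := pr (fun b => g (Sum.inl b) * g' (Sum.inl b)) (sm g * sm g')
  act R _ _ g z := g (Sum.inl false) • (C.α R (sm g) *ᵥ z)
  cl := (isCl_eq (natF_mul (natF_coord _) (natF_coord _)) natF_one).and (clM hM.cl natV_sm)
  nmul R R' _ _ _ _ φ x y s := by
    cases s with
    | inl b => exact map_mul φ _ _
    | inr c => exact congrFun (congrFun (mul_map φ (sm x) (sm y)) c.1) c.2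
  nact := nat2_of (nat_smul (natF_coord (Sum.inl (Sum.inl false)))
    (nat_mulVec (C.nα.app (natV_sm.comp nat_fs)) (nat_proj Sum.inr)))
  ne := ⟨pr (fun _ => 1) 1, mul_one _, hM.one k⟩
  hmul Ω _ _ g g' h h' := ⟨(mul_mul_mul_comm _ _ _ _).trans (by rw [h.1, h'.1, mul_one]),
    hM.mul Ω _ _ h.2 h'.2⟩
  assoc Ω _ _ g g' x h h' := by
    rw [sm_pr, C.α_mul Ω _ _ (le Ω _ h.2) (le Ω _ h'.2), mulVec_smul, mulVec_mulVec, smul_smul]
    rfl
  inv Ω _ _ g h := by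
    refine ⟨pr (fun b => g (Sum.inl (!b))) (sm g).adjugate,
      ⟨(mul_comm _ _).trans h.1, hM.adj Ω _ h.2⟩, fun x => ?_⟩
    rw [sm_pr, mulVec_smul, C.α_adj (le Ω _ h.2), smul_smul]
    exact (congrArg (· • x) ((mul_comm _ _).trans h.1)).trans (one_smul _ _)

theorem CoO_pt {Ω : Type} [Field Ω] [Algebra k Ω] {h : Matrix ι ι Ω} {y : Matrix ι ι k}
    (hh : C.G Ω h) (hy : C.G k y) : C.α Ω h *ᵥ cv Ω (C.pt y) = C.pt (h * cm Ω y) := by
  rw [C.pt_mul hh ((C.gG.cm_iff y).2 hy)]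
  exact congrArg _ (C.pt_map (Algebra.ofId k Ω) y)

theorem CoO_ptO (V : Plc k) {h : Matrix ι ι V.O} {y : Matrix ι ι k}
    (hh : C.G V.Ω (h.map V.i)) (hy : C.G k y) :
    C.α V.O h *ᵥ cv V.O (C.pt y) = C.pt (h * cm V.O y) := by
  refine V.gen_inj (Eq.trans ?_ (C.pt_map V.i _).symm)
  rw [mul_map, cm_map, ← CoO_pt C hh hy, ← C.nα _ _ V.i h, ← V.gen_cv]
  funext n
  exact RingHom.map_mulVec (V.i : V.O →+* V.Ω) _ _ n

/-- Apply strata to the action of triples (c, c', h) with c * c' = 1 and h in M, with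
index type Bool ⊕ ι × ι, by z ↦ c • (C.α h *ᵥ z), and the points C.pt (y l). In the clause
hl check C.α h *ᵥ cv (C.pt y) = C.pt (h * cm y) after mapping to V.Ω. -/
theorem Core.orbC [IsAlgClosed k] {M : MFam k ι} (hM : IsGrp M) (le : M.Le C.G) {Λ : Type}
    [Finite Λ] (y : Λ → Matrix ι ι k) (hy : ∀ l, C.G k (y l)) :
    ∃ (Orb : Λ → Fam k N) (r : Λ → ℕ), (∀ l, C.Orb1 M (y l) (Orb l)) ∧
      ∀ l l' (V : Plc k) (o : N → V.O), Orb l V.Ω (V.gen o) → Orb l' V.κ (V.sp o) →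
        Orb l V.κ (V.sp o) ∨ r l' < r l := by
  obtain ⟨Orb, r, h1, h2, h3, -, h4⟩ := strata (CoO_ad C hM le) fun l => C.pt (y l)
  refine ⟨Orb, r, fun l => ⟨h1 l, fun Ω _ _ _ z => (h2 l Ω z).trans ⟨?_, ?_⟩,
    fun V o a b => ?_⟩, h3⟩
  · rintro ⟨g, hg, rfl⟩
    exact ⟨sm g, g (Sum.inl false), hg.2, left_ne_zero_of_mul_eq_one hg.1,
      congrArg (g (Sum.inl false) • ·) (CoO_pt C (le Ω _ hg.2) (hy l))⟩
  · rintro ⟨h, c, hh, hc, rfl⟩
    exact ⟨pr (fun b => if b then c⁻¹ else c) h, ⟨mul_inv_cancel₀ hc, hh⟩,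
      congrArg (c • ·) (CoO_pt C (le Ω _ hh) (hy l)).symm⟩
  · obtain ⟨g, hg, rfl⟩ := h4 l V o a b
    refine ⟨sm g, g (Sum.inl false), hg.2, IsUnit.of_mul_eq_one (g (Sum.inl true)) (V.inj ?_),
      congrArg (g (Sum.inl false) • ·) (CoO_ptO C V (h := sm g) (le _ _ hg.2) (hy l))⟩
    rw [map_mul, map_one]
    exact hg.1

end Pool.Agent.MP_a9d3bd_s.W
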