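import Pool.Agent.MP_a9d3bd_w.CoB
import Pool.Agent.MP_a9d3bd_s.GV

/-! The part over a double coset. -/

namespace Pool.Agent.MP_a9d3bd_s.W

open Function Matrix MvPolynomial Pool.Agent.MP_a9d3bd_q

variable {k ι N Γ : Type} [Field k] [Fintype ι] [DecidableEq ι] [LinearOrder ι] [Fintype N]
  [DecidableEq N] [Group Γ] [Rl Γ] (C : Core k ι N Γ)

variable {y η : Matrix ι ι k} {u : k} {Orb : MFam k ι}

/-- The data of the base point over an extension field. -/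
theorem CoP_base (h0 : C.Dt k (Core.mkD y η u)) (Ω : Type) [Field Ω] [Algebra k Ω] :
    C.G Ω (cm Ω y) ∧ C.V Ω (cm Ω η) ∧ C.P Ω ((cm Ω y).adjugate * cm Ω η * C.F Ω (cm Ω y)) ∧
      algebraMap k Ω u ^ C.p - algebraMap k Ω u = C.χ Ω (um (cm Ω η)) := by
  obtain ⟨h1, h2, h3, h4⟩ := (C.Dt_iff y η u).1 h0
  refine ⟨(C.gG.cm_iff _).2 h1, (C.gV.cm_iff _).2 h2, ?_, ?_⟩
  · rw [C.nF.cm_eq, ← cm_adj, ← cm_mul, ← cm_mul]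
    exact (C.gP.cm_iff _).2 h3
  · rw [natF_cm C.nχ, ← h4, map_sub, map_pow]

omit [LinearOrder ι] in
theorem CoP_cj {Ω : Type} [Field Ω] [Algebra k Ω] (hy : y.det = 1) (s : Matrix ι ι Ω) :
    cm Ω y.adjugate * s * (cm Ω y.adjugate).adjugate = (cm Ω y).adjugate * s * cm Ω y := by
  rw [cm_adj, adj_adj (det_cm hy)]

theorem Core.nat_aO (y η : Matrix ι ι k) (u : k) : IsNat (C.aO y η u) :=
  nat_mkD ((natV_wO.adj.mul (natV_cm y)).mul natV_mO)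
    (((natV_wO.adj.mul natV_sO).mul (natV_cm η)).mul (C.nF.app natV_wO))
    (natF_add (natF_add (natF_coord none) (natF_const u)) (natF_um C.nl natV_wO))

theorem Core.nat_μO (y η : Matrix ι ι k) : NatP (C.μO y η) :=
  natP_of (nat_mkO
    ((((natV_cm y).adj.mul natV_sm).mul (natV_cm y)).mul (natV_mO.comp nat_fs))
    (natV_sm.mul (natV_wO.comp nat_fs))
    ((((natV_sm.mul (natV_sO.comp nat_fs)).mul (natV_cm η)).mul (C.nF.app natV_sm).adj).mul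
      (natV_cm η).adj)
    (natF_sub (natF_coord (Sum.inl none)) (natF_um C.nl natV_sm)))

theorem Core.grp_SO (hy : C.G k y) : IsGrp (inM C.V (cjM C.P y.adjugate)) :=
  C.gV.inter (C.gP.cj (det_adj (C.gG.det k y hy)))

theorem Core.cl_TO (hy : C.G k y) : IsCl (C.TO y) :=
  cl_asP (cl_prodM C.gK.cl C.gV.cl) (C.grp_SO hy).cl C.nχ

/-- The image of a point of TO lies in Dt: with g = w⁻¹ y m and η' = w⁻¹ s η F w one has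
g⁻¹ η' F g = m⁻¹ (y⁻¹ s y) (y⁻¹ η F y) F m. -/
theorem Core.aO_mem (hp : Fb C.p k) (hy : C.G k y) (h0 : C.Dt k (Core.mkD y η u)) {Ω : Type}
    [Field Ω] [Algebra k Ω] {t : Option (((ι × ι) ⊕ ι × ι) ⊕ ι × ι) → Ω} (ht : C.TO y Ω t) :
    C.Dt Ω (C.aO y η u Ω t) := by
  obtain ⟨hY, hH, hB, hu⟩ := CoP_base C h0 Ω
  rw [← mkO_eta t] at ht
  obtain ⟨⟨⟨hm, hw⟩, hs, hP⟩, hc⟩ := (C.TO_iff y _ _ _ _).1 ht
  rw [CoP_cj (C.gG.det k y hy)] at hP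
  have hwG := C.VG Ω _ hw
  have hmG := C.KG Ω _ hm
  have hFw := C.F_V Ω _ hw
  have ha := C.gV.adj Ω _ hw
  refine (C.Dt_iff _ _ _).2 ⟨C.gG.mul Ω _ _ (C.gG.mul Ω _ _ (C.gG.adj Ω _ hwG) hY) hmG,
    C.gV.mul Ω _ _ (C.gV.mul Ω _ _ (C.gV.mul Ω _ _ ha hs) hH) hFw, ?_, ?_⟩
  · have := C.gP.mul Ω _ _ (C.gP.mul Ω _ _ (C.gP.mul Ω _ _ (C.gP.adj Ω _ (C.KP Ω _ hm)) hP) hB)
      (C.KF Ω _ hm)
    rw [C.F_mul Ω _ _ (C.gG.mul Ω _ _ (C.gG.adj Ω _ hwG) hY) hmG,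
      C.F_mul Ω _ _ (C.gG.adj Ω _ hwG) hY, C.F_adj hwG]
    simpa only [adjugate_mul_distrib, adj_adj (C.gV.det Ω _ hw), Matrix.mul_assoc,
      mul_adj_cancel (C.gV.det Ω _ hw), mul_adj_cancel (C.gV.det Ω _ hFw),
      mul_adj_cancel (C.gG.det Ω _ hY)] using this
  · rw [Fb.as_add hp, Fb.as_add hp, hc, hu, ← C.AS Ω _ hw,
      C.aχ Ω _ _ (C.gV.mul Ω _ _ (C.gV.mul Ω _ _ ha hs) hH) hFw,
      C.aχ Ω _ _ (C.gV.mul Ω _ _ ha hs) hH, C.aχ Ω _ _ ha hs, C.aχ.adj C.gV hw]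
    ring

/-- The preimage of a point of Dt whose first matrix is v y m. -/
theorem Core.aO_inv (hp : Fb C.p k) (hy : C.G k y) (h0 : C.Dt k (Core.mkD y η u)) {Ω : Type}
    [Field Ω] [Algebra k Ω] {v m e : Matrix ι ι Ω} {c : Ω} (hv : C.V Ω v) (hm : C.K Ω m)
    (h : C.Dt Ω (Core.mkD (v * cm Ω y * m) e c)) :
    C.TO y Ω (Core.mkO m v.adjugate
      (v.adjugate * e * (C.F Ω v.adjugate).adjugate * (cm Ω η).adjugate)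
      (c - algebraMap k Ω u - C.lam Ω (um v.adjugate))) := by
  obtain ⟨hY, hH, hB, hu⟩ := CoP_base C h0 Ω
  obtain ⟨-, he, hP, hc⟩ := (C.Dt_iff _ _ _).1 h
  have hvG := C.VG Ω _ hv
  have hmG := C.KG Ω _ hm
  have ha := C.gV.adj Ω _ hv
  have hFa := C.F_V Ω _ ha
  have hFY := C.F_G Ω _ hY
  have hFm := C.F_G Ω _ hmG
  have hFv := C.F_G Ω _ hvG
  refine (C.TO_iff y _ _ _ _).2 ⟨⟨⟨hm, ha⟩, C.gV.mul Ω _ _ (C.gV.mul Ω _ _ (C.gV.mul Ω _ _ ha he)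
    (C.gV.adj Ω _ hFa)) (C.gV.adj Ω _ hH), ?_⟩, ?_⟩
  · have := C.gP.mul Ω _ _ (C.gP.mul Ω _ _ (C.gP.mul Ω _ _ (C.KP Ω _ hm) hP)
      (C.gP.adj Ω _ (C.KF Ω _ hm))) (C.gP.adj Ω _ hB)
    rw [C.F_mul Ω _ _ (C.gG.mul Ω _ _ hvG hY) hmG, C.F_mul Ω _ _ hvG hY] at this
    rw [CoP_cj (C.gG.det k y hy), C.F_adj hvG]
    simpa only [adjugate_mul_distrib, adj_adj (C.gG.det Ω _ hY), adj_adj (C.gG.det Ω _ hFv),
      Matrix.mul_assoc, mul_adj_cancel (C.gG.det Ω _ hmG), mul_adj_cancel (C.gG.det Ω _ hFm),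
      mul_adj_cancel (C.gG.det Ω _ hFY)] using this
  · rw [Fb.as_sub hp, Fb.as_sub hp, hc, hu, ← C.AS Ω _ ha,
      C.aχ Ω _ _ (C.gV.mul Ω _ _ (C.gV.mul Ω _ _ ha he) (C.gV.adj Ω _ hFa)) (C.gV.adj Ω _ hH),
      C.aχ Ω _ _ (C.gV.mul Ω _ _ ha he) (C.gV.adj Ω _ hFa), C.aχ Ω _ _ ha he,
      C.aχ.adj C.gV hFa, C.aχ.adj C.gV hH]
    ring

/-- The structure group preserves TO. -/
theorem Core.μO_mem (hp : Fb C.p k) (hy : C.G k y) (h0 : C.Dt k (Core.mkD y η u)) {Ω : Type}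
    [Field Ω] [Algebra k Ω] {t : Option (((ι × ι) ⊕ ι × ι) ⊕ ι × ι) → Ω} (ht : C.TO y Ω t)
    {s : Matrix ι ι Ω} (hs : inM C.V (cjM C.K y.adjugate) Ω s) :
    C.TO y Ω (C.μO y η Ω t s) ∧ C.aO y η u Ω (C.μO y η Ω t s) = C.aO y η u Ω t := by
  obtain ⟨hY, hH, hB, hu⟩ := CoP_base C h0 Ω
  rw [← mkO_eta t] at ht
  obtain ⟨⟨⟨hm, hw⟩, hσ, hP⟩, hc⟩ := (C.TO_iff y _ _ _ _).1 ht
  rw [CoP_cj (C.gG.det k y hy)] at hP
  have hsV : C.V Ω s := hs.1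
  have hsK : C.K Ω ((cm Ω y).adjugate * s * cm Ω y) := CoP_cj (C.gG.det k y hy) s ▸ hs.2
  have hsG := C.VG Ω _ hsV
  have hFs := C.F_V Ω _ hsV
  have hFY := C.F_G Ω _ hY
  refine ⟨(C.TO_iff y _ _ _ _).2 ⟨⟨⟨C.gK.mul Ω _ _ hsK hm, C.gV.mul Ω _ _ hsV hw⟩,
    C.gV.mul Ω _ _ (C.gV.mul Ω _ _ (C.gV.mul Ω _ _ (C.gV.mul Ω _ _ hsV hσ) hH)
      (C.gV.adj Ω _ hFs)) (C.gV.adj Ω _ hH), ?_⟩, ?_⟩, mkD_inj.2 ⟨?_, ?_, ?_⟩⟩
  · have := C.gP.mul Ω _ _ (C.gP.mul Ω _ _ (C.gP.mul Ω _ _ (C.gP.mul Ω _ _ (C.KP Ω _ hsK) hP) hB)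
      (C.gP.adj Ω _ (C.KF Ω _ hsK))) (C.gP.adj Ω _ hB)
    rw [C.F_mul Ω _ _ (C.gG.mul Ω _ _ (C.gG.adj Ω _ hY) hsG) hY,
      C.F_mul Ω _ _ (C.gG.adj Ω _ hY) hsG, C.F_adj hY] at this
    rw [CoP_cj (C.gG.det k y hy)]
    simpa only [adjugate_mul_distrib, adj_adj (C.gG.det Ω _ hY), adj_adj (C.gG.det Ω _ hFY),
      Matrix.mul_assoc, mul_adj_cancel (C.gG.det Ω _ hY),
      mul_adj_cancel (C.gG.det Ω _ hFY)] using this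
  · rw [Fb.as_sub hp, hc, ← C.AS Ω _ hsV,
      C.aχ Ω _ _ (C.gV.mul Ω _ _ (C.gV.mul Ω _ _ (C.gV.mul Ω _ _ hsV hσ) hH) (C.gV.adj Ω _ hFs))
        (C.gV.adj Ω _ hH),
      C.aχ Ω _ _ (C.gV.mul Ω _ _ (C.gV.mul Ω _ _ hsV hσ) hH) (C.gV.adj Ω _ hFs),
      C.aχ Ω _ _ (C.gV.mul Ω _ _ hsV hσ) hH, C.aχ Ω _ _ hsV hσ, C.aχ.adj C.gV hFs,
      C.aχ.adj C.gV hH]
    ring
  · simp only [Core.μO, mO_mkO, wO_mkO, adjugate_mul_distrib, Matrix.mul_assoc,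
      mul_adj_cancel (C.gG.det Ω _ hY), adj_mul_cancel (C.gG.det Ω _ hsG)]
  · simp only [Core.μO, sO_mkO, wO_mkO, adjugate_mul_distrib, Matrix.mul_assoc,
      C.F_mul Ω _ _ hsG (C.VG Ω _ hw), adj_mul_cancel (C.gV.det Ω _ hH),
      adj_mul_cancel (C.gG.det Ω _ hsG), adj_mul_cancel (C.gV.det Ω _ hFs)]
  · simp only [Core.μO, mkO_none, wO_mkO, C.al Ω _ _ hsV hw]
    ring

/-- All of this is about the old IVan. By gv with x = 1 (C.bru), MP_a9d3bd_s.tri, ivan_weaken and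
tri_as. -/
theorem Core.ivan_TO [IsAlgClosed k] (hp : Fb C.p k) (hy : C.G k y) :
    MP_a9d3bd_s.IVan (C.TO y) (Act.triv k _ Unit) := by
  have h1 : MP_a9d3bd_s.IVan C.K.fam (Act.triv k (ι × ι) Unit) :=
    gv hp C.gK C.gB C.gB C.BK C.BK (x := 1) det_one (fun Ω _ _ m hm => by
      rw [cm_one, adjugate_one, Matrix.one_mul, Matrix.mul_one]
      exact C.ut Ω m hm) C.ut C.bru
  have h2 := MP_a9d3bd_s.tri hp C.gK.ext C.gV C.utV (stab_triv _) h1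
  refine tri_as hp (ext_prodM C.gK.ext C.gV.ext) (C.grp_SO hy) (fun Ω _ _ m hm => C.utV Ω m hm.1)
    C.nχ (fun Ω _ _ m m' hm hm' => C.aχ Ω m m' hm.1 hm'.1)
    (MP_a9d3bd_s.ivan_weaken (fun g => ⟨g, fun Ω _ _ x _ => ?_⟩) h2)
  funext c
  cases c <;> rfl

end Pool.Agent.MP_a9d3bd_s.W
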