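import Pool.Agent.MP_a9d3bd_w.CoP
import Pool.Agent.MP_a9d3bd_s.Des
import Pool.Agent.MP_a9d3bd_s.Kpt

/-! Descent to the part over a double coset. -/

namespace Pool.Agent.MP_a9d3bd_s.W

open Function Matrix MvPolynomial Pool.Agent.MP_a9d3bd_q

variable {k ι N Γ : Type} [Field k] [Fintype ι] [DecidableEq ι] [LinearOrder ι] [Fintype N]
  [DecidableEq N] [Group Γ] [Rl Γ] (C : Core k ι N Γ)

variable {y η : Matrix ι ι k} {u : k} {Orb : MFam k ι}

theorem CoQ_TO {Ω : Type} [Field Ω] [Algebra k Ω]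
    {t : Option (((ι × ι) ⊕ ι × ι) ⊕ ι × ι) → Ω} (ht : C.TO y Ω t) :
    C.K Ω (Core.mO t) ∧ C.V Ω (Core.wO t) := ht.1.1

/-- The image of the point of aO_inv. -/
theorem CoQ_aO (hη : η.det = 1) {R : Type} [CommRing R] [Algebra k R] {v : Matrix ι ι R}
    (hv : v.det = 1) (hF : (C.F R v.adjugate).det = 1) (m e : Matrix ι ι R) (c : R) :
    C.aO y η u R (Core.mkO m v.adjugate
      (v.adjugate * e * (C.F R v.adjugate).adjugate * (cm R η).adjugate)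
      (c - algebraMap k R u - C.lam R (um v.adjugate))) = Core.mkD (v * cm R y * m) e c := by
  refine mkD_inj.2 ⟨?_, ?_, ?_⟩
  · rw [wO_mkO, mO_mkO, adj_adj hv]
  · rw [wO_mkO, sO_mkO, adj_adj hv]
    simp only [Matrix.mul_assoc]
    rw [adj_mul_cancel (det_cm hη), adj_mul_self hF, Matrix.mul_one, mul_adj_cancel hv]
  · rw [wO_mkO, mkO_none]
    ring

omit [LinearOrder ι] in
theorem CoQ_fib {R : Type} [CommRing R] {w w' m m' Y : Matrix ι ι R} (hw : w'.det = 1)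
    (hm : m.det = 1) (hY : Y.det = 1) (e : w.adjugate * Y * m = w'.adjugate * Y * m') :
    Y.adjugate * (w' * w.adjugate) * Y = m' * m.adjugate := by
  have h1 : w.adjugate * Y = w'.adjugate * Y * m' * m.adjugate := by
    rw [← e, Matrix.mul_assoc _ m, mul_adj_self hm, Matrix.mul_one]
  rw [Matrix.mul_assoc, Matrix.mul_assoc, h1]
  simp only [Matrix.mul_assoc]
  rw [mul_adj_cancel hw, adj_mul_cancel hY]

omit [LinearOrder ι] in
theorem CoQ_left {R : Type} [CommRing R] {a x x' : Matrix ι ι R} (ha : a.det = 1)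
    (e : a * x = a * x') : x = x' := by
  rw [← adj_mul_cancel ha x, e, adj_mul_cancel ha]

omit [LinearOrder ι] in
theorem CoQ_right {R : Type} [CommRing R] {a x x' : Matrix ι ι R} (ha : a.det = 1)
    (e : x * a = x' * a) : x = x' := by
  rw [← Matrix.mul_one x, ← mul_adj_self ha, ← Matrix.mul_assoc, e, Matrix.mul_assoc,
    mul_adj_self ha, Matrix.mul_one]

theorem CoQ_maps (hp : Fb C.p k) (hy : C.G k y) (h0 : C.Dt k (Core.mkD y η u))
    (lc : LCl Orb.fam)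
    (iff : ∀ (Ω : Type) [Field Ω] [Algebra k Ω] [IsAlgClosed Ω] m,
      Orb Ω m ↔ ∃ s s', C.V Ω s ∧ C.K Ω s' ∧ m = s * cm Ω y * s') :
    Maps (C.TO y) (C.DO Orb) (C.aO y η u) :=
  maps_of_ac (cl_ext (C.cl_TO hy)) ((cl_ext C.cl_Dt).and (lclM lc natV_gD).ext) (C.nat_aO y η u)
    fun Ω _ _ _ t ht => ⟨C.aO_mem hp hy h0 ht, (iff Ω _).2 ⟨(Core.wO t).adjugate, Core.mO t,
      C.gV.adj Ω _ (CoQ_TO C ht).2, (CoQ_TO C ht).1, rfl⟩⟩

theorem CoQ_hl (hp : Fb C.p k) (hy : C.G k y) (h0 : C.Dt k (Core.mkD y η u))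
    (hm : Maps (C.TO y) (C.DO Orb) (C.aO y η u))
    (hl : ∀ (V : Plc k) (m : Matrix ι ι V.O), Orb V.Ω (m.map V.i) → Orb V.κ (m.map V.π) →
      ∃ s s' : Matrix ι ι V.O, C.V V.Ω (s.map V.i) ∧ C.K V.Ω (s'.map V.i) ∧
        m = s * cm V.O y * s') :
    HLift (C.TO y) (C.DO Orb) (C.aO y η u) := by
  intro V t o ht e ho
  have h1 : C.DO Orb V.Ω (V.gen o) := e ▸ hm V.Ω t ht
  obtain ⟨v, m, hv, hk, e1⟩ := hl V (Core.gD o) h1.2 ho.2
  have hF : (C.F V.O v.adjugate).det = 1 := C.gG.det_O V (by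
    rw [C.nF V.O V.Ω V.i, adj_map]
    exact C.F_G _ _ (C.gG.adj _ _ (C.VG _ _ hv)))
  have e2 : V.gen o = Core.mkD (v.map V.i * cm V.Ω y * m.map V.i) ((Core.eD o).map V.i)
      (V.i (o none)) := by
    rw [← cm_map V.i y, ← mul_map, ← mul_map, ← e1]
    exact (mkD_eta (V.gen o)).symm
  have h2 := C.aO_inv hp hy h0 hv hk (e2 ▸ h1.1)
  have h3 : C.TO y V.Ω (V.gen (Core.mkO m v.adjugate
      (v.adjugate * Core.eD o * (C.F V.O v.adjugate).adjugate * (cm V.O η).adjugate)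
      (o none - algebraMap k V.O u - C.lam V.O (um v.adjugate)))) := by
    unfold Plc.gen
    rw [mkO_map, mul_map, mul_map, mul_map, adj_map, adj_map, adj_map, cm_map,
      C.nF V.O V.Ω V.i, adj_map, map_sub, map_sub, V.i.commutes, C.nl V.O V.Ω V.i, um_map,
      adj_map]
    exact h2
  refine ⟨_, h3, V.cl_sp (C.cl_TO hy) h3, ?_⟩
  rw [CoQ_aO C (C.gV.det k η h0.2.1) (C.gV.det_O V hv) hF, ← e1, mkD_eta]

/-- Use aO_mem, aO_inv, μO_mem. For fib take s = w' * w.adjugate. For hl take v, m from hl and the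
point of aO_inv over the valuation ring; check the image after mapping to the fraction field
(Plc.gen_inj, Plc.gen_nat). -/
theorem Core.descO (hp : Fb C.p k) (hy : C.G k y) (h0 : C.Dt k (Core.mkD y η u))
    (lc : LCl Orb.fam)
    (iff : ∀ (Ω : Type) [Field Ω] [Algebra k Ω] [IsAlgClosed Ω] m,
      Orb Ω m ↔ ∃ s s', C.V Ω s ∧ C.K Ω s' ∧ m = s * cm Ω y * s')
    (hl : ∀ (V : Plc k) (m : Matrix ι ι V.O), Orb V.Ω (m.map V.i) → Orb V.κ (m.map V.π) →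
      ∃ s s' : Matrix ι ι V.O, C.V V.Ω (s.map V.i) ∧ C.K V.Ω (s'.map V.i) ∧
        m = s * cm V.O y * s') :
    Desc (C.TO y) (C.DO Orb) (C.aO y η u) (fun _ _ _ t => Core.wO t)
      (inM C.V (cjM C.K y.adjugate)) (C.μO y η) (Act.triv k _ Unit) (Act.triv k _ Unit) := by
  have hd : y.det = 1 := C.gG.det k y hy
  have hη : η.det = 1 := C.gV.det k η h0.2.1
  have hm := CoQ_maps C hp hy h0 lc iff
  refine ⟨cl_good (C.cl_TO hy), (cl_cvx C.cl_Dt).and (lclM lc natV_gD).cvx, C.nat_aO y η u,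
    natV_wO, C.nat_μO y η, C.gV.inter (C.gK.cj (det_adj hd)), fun Ω _ _ m h => C.utV Ω m h.1, hm,
    ?_, fun Ω _ _ _ t ht => C.gV.le_B C.utV Ω _ (CoQ_TO C ht).2, ?_, ?_,
    fun Ω _ _ _ t s ht hs => ⟨(C.μO_mem hp hy h0 ht hs).1, (C.μO_mem hp hy h0 ht hs).2, rfl⟩,
    CoQ_hl C hp hy h0 hm hl, stab_triv _, stab_triv _, fun _ _ _ _ _ _ _ => ⟨rfl, rfl⟩⟩
  · intro Ω _ _ _ x hx
    obtain ⟨v, m, hv, hk, e⟩ := (iff Ω _).1 hx.2
    have e1 : x = Core.mkD (v * cm Ω y * m) (Core.eD x) (x none) := by rw [← e, mkD_eta]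
    refine ⟨_, C.aO_inv hp hy h0 hv hk (e1 ▸ hx.1), ?_⟩
    rw [CoQ_aO C hη (C.gV.det Ω v hv) (C.gG.det Ω _ (C.F_G _ _ (C.gG.adj _ _ (C.VG _ _ hv)))),
      ← e1]
  · intro Ω _ _ _ t t' ht ht' e
    obtain ⟨e1, -, -⟩ := mkD_inj.1 e
    obtain ⟨hk, hw⟩ := CoQ_TO C ht
    obtain ⟨hk', hw'⟩ := CoQ_TO C ht'
    refine ⟨Core.wO t' * (Core.wO t).adjugate, ⟨C.gV.mul Ω _ _ hw' (C.gV.adj Ω _ hw), ?_⟩, ?_⟩
    · change C.K Ω _
      rw [cm_adj, adj_adj (det_cm hd),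
        CoQ_fib (C.gV.det Ω _ hw') (C.gK.det Ω _ hk) (det_cm hd) e1]
      exact C.gK.mul Ω _ _ hk' (C.gK.adj Ω _ hk)
    · rw [Matrix.mul_assoc, adj_mul_self (C.gV.det Ω _ hw), Matrix.mul_one]
  · intro Ω _ _ _ t t' ht _ e e'
    obtain ⟨e1, e2, e3⟩ := mkD_inj.1 e
    change Core.wO t = Core.wO t' at e'
    have hw := (CoQ_TO C ht).2
    have hw1 := det_adj (C.gV.det Ω _ hw)
    rw [← e'] at e1 e2 e3
    have f1 := CoQ_left (by rw [det_mul, hw1, det_cm hd, one_mul]) e1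
    have f2 := CoQ_left hw1 (CoQ_right (det_cm hη)
      (CoQ_right (C.gV.det Ω _ (C.F_V Ω _ hw)) e2))
    have f3 : t none = t' none := add_right_cancel (add_right_cancel e3)
    rw [← mkO_eta t, ← mkO_eta t', f1, f2, f3, e']

/-- All of this is about the old IVan. If DO Orb has no rational point use exists_pt and
ivan_empty. Otherwise let mkD (v y m) e c be one; then
mkD y (v⁻¹ e F v) (c + lam v) is a rational point of Dt. Use MP_a9d3bd_s.des. -/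
theorem Core.ivan_DO [IsAlgClosed k] (hp : Fb C.p k) (hy : C.G k y) (lc : LCl Orb.fam)
    (iff : ∀ (Ω : Type) [Field Ω] [Algebra k Ω] [IsAlgClosed Ω] m,
      Orb Ω m ↔ ∃ s s', C.V Ω s ∧ C.K Ω s' ∧ m = s * cm Ω y * s')
    (hl : ∀ (V : Plc k) (m : Matrix ι ι V.O), Orb V.Ω (m.map V.i) → Orb V.κ (m.map V.π) →
      ∃ s s' : Matrix ι ι V.O, C.V V.Ω (s.map V.i) ∧ C.K V.Ω (s'.map V.i) ∧
        m = s * cm V.O y * s') :
    MP_a9d3bd_s.IVan (C.DO Orb) (Act.triv k _ Unit) := by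
  have hL : LCl (C.DO Orb) := (cl_lcl C.cl_Dt).and (lclM lc natV_gD)
  by_cases h : ∃ x, C.DO Orb k x
  · obtain ⟨x, hx, ho⟩ := h
    obtain ⟨v, m, hv, hk, e⟩ := (iff k _).1 ho
    rw [cm_self] at e
    obtain ⟨-, he, hP, hc⟩ := hx
    have hG := C.VG k v hv
    have hF := C.F_V k v hv
    have h0 : C.Dt k (Core.mkD y (v.adjugate * Core.eD x * C.F k v) (x none + C.lam k (um v))) := by
      refine (C.Dt_iff _ _ _).2 ⟨hy, C.gV.mul k _ _ (C.gV.mul k _ _ (C.gV.adj k v hv) he) hF,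
        ?_, ?_⟩
      · rw [e, C.F_mul k _ _ (C.gG.mul k _ _ hG hy) (C.KG k m hk), C.F_mul k _ _ hG hy,
          adjugate_mul_distrib, adjugate_mul_distrib, ← Matrix.mul_assoc,
          C.gP.mul_iff_right (C.KF k m hk), Matrix.mul_assoc, Matrix.mul_assoc,
          C.gP.mul_iff_left (C.gP.adj k m (C.KP k m hk))] at hP
        simpa only [Matrix.mul_assoc] using hP
      · rw [Fb.as_add hp, hc, ← C.AS k v hv,
          C.aχ k _ _ (C.gV.mul k _ _ (C.gV.adj k v hv) he) hF, C.aχ k _ _ (C.gV.adj k v hv) he,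
          AddOn.adj C.gV C.aχ hv]
        ring
    exact MP_a9d3bd_s.des (C.descO hp hy h0 lc iff hl) (C.ivan_TO hp hy)
  · exact MP_a9d3bd_s.ivan_empty hL.ext fun Ω _ _ _ x hx =>
      h ((exists_pt k hL.good hx).imp fun _ h => h.2)

end Pool.Agent.MP_a9d3bd_s.W
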