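import Pool.Agent.MP_a9d3bd_w.CoB
import Pool.Agent.MP_a9d3bd_w.DC
import Pool.Agent.MP_a9d3bd_w.GL
import Pool.Agent.MP_a9d3bd_s.Bru

/-! From the Lang cover to the group. -/

namespace Pool.Agent.MP_a9d3bd_s.W

open Function Matrix MvPolynomial Pool.Agent.MP_a9d3bd_q

variable {k ι N Γ : Type} [Field k] [Fintype ι] [DecidableEq ι] [LinearOrder ι] [Fintype N]
  [DecidableEq N] [Group Γ] [Rl Γ] (C : Core k ι N Γ)

theorem CoW_VB : C.V.Le (Bf k ι) := C.gV.le_B C.utV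

theorem CoW_stab {M : MFam k ι} (hM : IsGrp M) (h : C.V.Le M) :
    ((Act.lmul C.γm).lm C.γm).Stab (prodM C.Yh.fam M) := fun γ Ω _ _ _ hx =>
  ⟨C.Yh_γ γ hx.1, hM.mul Ω _ _ (h Ω _ ((C.gV.cm_iff _).2 (C.γV γ))) hx.2⟩

theorem CoW_sec {Ω : Type} [Field Ω] [Algebra k Ω] {y : (ι × ι) ⊕ ι × ι → Ω}
    (hy : prodM C.Yh.fam (Bf k ι) Ω y) :
    prodM C.TW (Bf k ι) Ω (pr (pr (fs y) (1 : Matrix ι ι Ω)) (sm y)) := by
  refine ⟨⟨hy.1.1, C.gV.one Ω, ?_⟩, hy.2⟩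
  change C.Yh Ω (1 * mat (fs y))
  rw [Matrix.one_mul]
  exact hy.1

omit [LinearOrder ι] in
theorem CoW_sec_eq {R : Type} [CommRing R] (y : (ι × ι) ⊕ ι × ι → R) :
    pr (um ((1 : Matrix ι ι R) * mat (fs y))) (1 * sm y) = y := by
  rw [Matrix.one_mul, Matrix.one_mul, um_mat, pr_fs_sm]

omit [LinearOrder ι] in
theorem CoW_cancel {R : Type} [CommRing R] {s : Matrix ι ι R} (hs : s.det = 1)
    (h g : Matrix ι ι R) : h * s.adjugate * (s * g) = h * g := by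
  rw [Matrix.mul_assoc, adj_mul_cancel hs]

theorem CoW_maps : Maps (prodM C.TW (Bf k ι)) (prodM C.Yh.fam (Bf k ι))
    (fun _ _ _ t => pr (um (sm (fs t) * mat (fs (fs t)))) (sm (fs t) * sm t)) :=
  fun Ω _ _ _ ht => ⟨ht.1.2.2, grp_B.mul Ω _ _ (CoW_VB C Ω _ ht.1.2.1) ht.2⟩

variable [IsAlgClosed k] {p : ℕ}

omit [IsAlgClosed k] in
/-- By iso with right multiplication by y. -/
theorem Core.ivan_Q {y : Matrix ι ι k} (hy : C.G k y) (h : IVan C.Yh.fam (Act.lmul C.γm)) :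
    IVan (C.Q y).fam (Act.lmul C.γm) := by
  have hd := C.gG.det k y hy
  refine iso (a := fun R _ _ t => um (mat t * (cm R y).adjugate))
    (b := fun R _ _ t => um (mat t * cm R y)) (cl_ext C.cl_Yh) (cl_ext (C.cl_Q y))
    (nat_um (natV_mat'.mul (natV_cm y).adj)) (nat_um (natV_mat'.mul (natV_cm y)))
    (fun Ω _ _ _ t ht => ?_) (fun Ω _ _ _ x hx => ⟨hx.2, ?_⟩)
    (fun g Ω _ _ _ t ht => ⟨C.stab_Yh g Ω t ht, ?_⟩) h
  · have e : mat t * (cm Ω y).adjugate * cm Ω y = mat t := by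
      rw [Matrix.mul_assoc, adj_mul_self (det_cm hd), Matrix.mul_one]
    refine ⟨⟨C.gG.mul Ω _ _ ht.1 (C.gG.adj Ω _ ((C.gG.cm_iff _).2 hy)), ?_⟩, ?_⟩
    · change C.Yh Ω (mat t * (cm Ω y).adjugate * cm Ω y)
      rw [e]
      exact ht
    · exact congrArg um e
  · change um (mat x * cm Ω y * (cm Ω y).adjugate) = x
    rw [Matrix.mul_assoc, mul_adj_self (det_cm hd), Matrix.mul_one, um_mat]
  · exact congrArg um (Matrix.mul_assoc (cm Ω (C.γm g)) (mat t) (cm Ω y).adjugate)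

omit [IsAlgClosed k] in
/-- Points of the total space are ((g, h), b), mapped to (h g, h b). For onto and hl use the
section (g, m) ↦ ((g, 1), m). For fib take s = h'.adjugate * h. -/
theorem Core.descW : Desc (prodM C.TW (Bf k ι)) (prodM C.Yh.fam (Bf k ι))
    (fun _ _ _ t => pr (um (sm (fs t) * mat (fs (fs t)))) (sm (fs t) * sm t))
    (fun _ _ _ t => sm t) C.V
    (fun _ _ _ t s => pr (pr (um (s * mat (fs (fs t)))) (sm (fs t) * s.adjugate)) (s * sm t))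
    (C.actW.left (ι × ι)) ((Act.lmul C.γm).lm C.γm) := by
  refine
    { good := good_prodM (cl_good C.cl_TW) grp_B.good
      cvx := cvx_prodM (cl_cvx C.cl_Yh) grp_B.cvx
      na := nat_pr (nat_um ((natV_sm.comp nat_fs).mul (natV_mat (nat_comp nat_fs nat_fs))))
        ((natV_sm.comp nat_fs).mul natV_sm)
      nβ := natV_sm
      nμ := natP_of (nat_pr (nat_pr
        (nat_um (natV_sm.mul (natV_mat (nat_comp nat_fs (nat_comp nat_fs nat_fs)))))
        ((natV_sm.comp (nat_comp nat_fs nat_fs)).mul natV_sm.adj))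
        (natV_sm.mul (natV_sm.comp nat_fs)))
      grp := C.gV
      ut := C.utV
      maps := CoW_maps C
      onto := fun Ω _ _ _ y hy => ⟨_, CoW_sec C hy, CoW_sec_eq y⟩
      tri := fun Ω _ _ _ t ht => ht.2
      fib := fun Ω _ _ _ t t' ht ht' e => ?_
      inj := fun Ω _ _ _ t t' ht ht' e e' => ?_
      act := fun Ω _ _ _ t s ht hs => ?_
      hl := fun V t o ht e ho => ?_
      stT := stab_prodM C.stab_TW _
      stY := CoW_stab C grp_B (CoW_VB C)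
      eqv := fun g Ω _ _ _ t _ => ⟨?_, rfl⟩ }
  · refine ⟨(sm (fs t')).adjugate * sm (fs t), C.gV.mul Ω _ _ (C.gV.adj Ω _ ht'.1.2.1) ht.1.2.1, ?_⟩
    have e2 : sm (fs t) * sm t = sm (fs t') * sm t' := (pr_inj.1 e).2
    change sm t' = (sm (fs t')).adjugate * sm (fs t) * sm t
    rw [Matrix.mul_assoc, e2, adj_mul_cancel (C.gV.det Ω _ ht'.1.2.1)]
  · have e1 : sm (fs t) * mat (fs (fs t)) = sm (fs t') * mat (fs (fs t')) :=
      um_inj.1 (pr_inj.1 e).1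
    have e2 : sm (fs t) * sm t = sm (fs t') * sm t' := (pr_inj.1 e).2
    have e3 : sm t = sm t' := e'
    have e4 : sm (fs t) = sm (fs t') := by
      have := congrArg (· * (sm t').adjugate) e2
      simp only [e3, Matrix.mul_assoc, mul_adj_self ht'.2.2, Matrix.mul_one] at this
      exact this
    have e5 : mat (fs (fs t)) = mat (fs (fs t')) := by
      rw [← adj_mul_cancel (C.gV.det Ω _ ht.1.2.1) (mat (fs (fs t))), e1, e4,
        adj_mul_cancel (C.gV.det Ω _ ht'.1.2.1)]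
    have e6 : fs (fs t) = fs (fs t') := congrArg um e5
    rw [← pr_fs_sm t, ← pr_fs_sm t', ← pr_fs_sm (fs t), ← pr_fs_sm (fs t'), e3, e4, e6]
  · have hd := C.gV.det Ω s hs
    refine ⟨⟨⟨C.gG.mul Ω _ _ (C.VG Ω s hs) ht.1.1, C.gV.mul Ω _ _ ht.1.2.1 (C.gV.adj Ω s hs), ?_⟩,
      grp_B.mul Ω _ _ (CoW_VB C Ω s hs) ht.2⟩, ?_, rfl⟩
    · change C.Yh Ω (sm (fs t) * s.adjugate * (s * mat (fs (fs t))))
      rw [CoW_cancel hd]
      exact ht.1.2.2
    · change pr (um (sm (fs t) * s.adjugate * (s * mat (fs (fs t)))))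
        (sm (fs t) * s.adjugate * (s * sm t)) = _
      rw [CoW_cancel hd, CoW_cancel hd]
  · have h1 : prodM C.Yh.fam (Bf k ι) V.Ω (V.gen o) := e ▸ CoW_maps C V.Ω t ht
    refine ⟨pr (pr (fs o) 1) (sm o), ?_, ?_, CoW_sec_eq o⟩
    · rw [V.gen_pr, V.gen_pr, one_map]
      exact CoW_sec C h1
    · rw [V.sp_pr, V.sp_pr, one_map]
      exact CoW_sec C ho
  · change pr (um (cm Ω (C.γm g) * sm (fs t) * mat (fs (fs t))))
      (cm Ω (C.γm g) * sm (fs t) * sm t) = _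
    rw [Matrix.mul_assoc, Matrix.mul_assoc]
    rfl

omit [IsAlgClosed k] in
/-- For onto and hl take the matrix 1. -/
theorem Core.dcdW : DCD (prodM C.Yh.fam (Bf k ι)) (prodM C.Yh.fam (SLf k ι)) (SLf k ι) (Bf k ι)
    (Bf k ι) ((Act.lmul C.γm).lm C.γm) := by
  refine
    { good := good_prodM (cl_good C.cl_Yh) grp_B.good
      cvx := cvx_prodM (cl_cvx C.cl_Yh) grp_SL.cvx
      gK := grp_SL
      gR := grp_B
      gR' := grp_B
      le := grp_B.le_SL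
      le' := grp_B.le_SL
      ut := ut_B
      dc := bruhat
      stZ := CoW_stab C grp_B (CoW_VB C)
      stW := CoW_stab C grp_SL C.gV.le_SL
      comm := fun g Ω _ _ x m => ?_
      det := fun Ω _ _ _ x hx => hx.2.2
      zR := fun Ω _ _ _ x r hx hr => ⟨hx.1, grp_B.mul Ω _ _ hx.2 hr⟩
      zW := fun Ω _ _ _ x g hx hg => ⟨hx.1, grp_SL.mul Ω _ _ hx.2.2 hg⟩
      onto := fun Ω _ _ _ w hw => ⟨pr (fs w) 1, sm w, ⟨hw.1, grp_B.one Ω⟩, hw.2, ?_⟩
      fib := fun Ω _ _ _ x x' hx hx' _ => grp_B.mul Ω _ _ (grp_B.adj Ω _ hx.2) hx'.2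
      hl := fun V o h1 h2 => ⟨1, ?_, ?_⟩ }
  · exact congrArg (pr _) (Matrix.mul_assoc (cm Ω (C.γm g)) (sm x) m).symm
  · rw [rmul_pr, Matrix.one_mul, pr_fs_sm]
  · rw [V.gen_pr, one_map]
    exact ⟨h1.1, grp_B.one _⟩
  · rw [V.sp_pr, one_map]
    exact ⟨h2.1, grp_B.one _⟩

theorem Core.ivan_Yh [Nonempty ι] (hp : Fb p k) (h : IVan C.TW C.actW) :
    IVan C.Yh.fam (Act.lmul C.γm) :=
  slc C.γm C.det_γ (cl_cvx C.cl_Yh) C.stab_Yh (W.dc hp C.dcdW
    (des C.descW (tri hp (cl_ext C.cl_TW) grp_B ut_B C.stab_TW h)))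

end Pool.Agent.MP_a9d3bd_s.W
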