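import Pool.Agent.MP_a9d3bd_w.GenE
import Pool.Agent.MP_a9d3bd_s.QS
import Pool.Agent.MP_a9d3bd_w.CorrB

/-! Finite quasi-sections. -/

namespace Pool.Agent.MP_a9d3bd_s.W

open Function Matrix MvPolynomial Pool.Agent.MP_a9d3bd_q

variable {k σ τ υ Γ : Type} [Field k] {E : Type} [Field E] [Algebra k E]

theorem FinSec_pt [Finite τ] {F : Type} (Ω : Type) [Field F] [Algebra k F] [Algebra F E]
    [IsScalarTower k F E] [Field Ω] [Algebra F Ω] [Algebra k Ω] [IsScalarTower k F Ω]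
    [IsAlgClosed Ω] [Algebra.IsAlgebraic F Ω] {a : PMap k τ σ} (ha : IsNat a) (t : τ → E)
    (y : σ → F) (hy : ∀ s, algebraMap F E (y s) = a E t s)
    (hF : ∀ z : F, ∃ r s : MvPolynomial σ k,
      algebraMap F E z = aeval (a E t) r / aeval (a E t) s) :
    ∃ (t₀ : τ → Ω) (δ : MvPolynomial σ k), ak k t ≤ ak k t₀ ∧ ak k (a Ω t₀) = ak k (a E t) ∧
      aeval (a Ω t₀) δ ≠ 0 ∧ ∀ s, ∃ p : Polynomial (MvPolynomial σ k), p.Monic ∧
        p.eval₂ (aeval (a Ω t₀) : MvPolynomial σ k →ₐ[k] Ω) (aeval (a Ω t₀) δ * t₀ s) = 0 := by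
  classical
  have := Fintype.ofFinite τ
  have hyE : ∀ f : MvPolynomial σ k, algebraMap F E (aeval y f) = aeval (a E t) f := fun f => by
    rw [← funext hy]
    exact (aeval_algebraMap_apply E y f).symm
  obtain ⟨t', ht', -, hat⟩ := QS_pt Ω ha t (δ₀ := 1) (by rw [map_one]; exact one_ne_zero) y hy
  have hyΩ : ∀ f : MvPolynomial σ k, algebraMap F Ω (aeval y f) = aeval (a Ω t') f := fun f => by
    rw [funext hat]
    exact (aeval_algebraMap_apply Ω y f).symm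
  obtain ⟨δ, hδ, hint⟩ := QS_mult (k := k) (Ω := Ω) y (fun z => by
    obtain ⟨r, s, h⟩ := hF z
    refine ⟨r, s, (algebraMap F E).injective ?_⟩
    rw [map_div₀, hyE, hyE, h]) (Finset.univ.image t')
  refine ⟨t', δ, ht', ?_, by rw [← hyΩ]; exact (_root_.map_ne_zero _).2 hδ, fun s => ?_⟩
  · rw [funext hat, ← funext hy]
    exact (Voc0_ak_map (IsScalarTower.toAlgHom k F Ω) y).trans
      (Voc0_ak_map (IsScalarTower.toAlgHom k F E) y).symm
  · obtain ⟨p, hp, he⟩ := hint _ (Finset.mem_image_of_mem _ (Finset.mem_univ s))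
    refine ⟨p, hp, ?_⟩
    rw [← he, hyΩ]
    congr 1
    exact RingHom.ext fun f => (hyΩ f).symm

theorem FinSec_ev {a : PMap k τ σ} (ha : IsNat a) (δ : MvPolynomial σ k)
    (p : Polynomial (MvPolynomial σ k)) (s : τ) (t : τ → E) :
    aeval t (p.eval₂ (aeval (a (MvPolynomial τ k) X) : MvPolynomial σ k →ₐ[k] MvPolynomial τ k)
      (aeval (a (MvPolynomial τ k) X) δ * X s)) =
      p.eval₂ (aeval (a E t) : MvPolynomial σ k →ₐ[k] E) (aeval (a E t) δ * t s) := by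
  rw [← RingHom.coe_coe (aeval t), Polynomial.hom_eval₂, RingHom.coe_coe, map_mul, aeval_X,
    Pool.Agent.MP_a9d3bd_ag.PresA_comp ha]
  congr 1
  exact RingHom.ext fun f => Pool.Agent.MP_a9d3bd_ag.PresA_comp ha t f

/-- Let t be a point of T over x, F = af k (a t) and Ω₀ its algebraic closure. By QS_pt there is
t₀ over Ω₀ with ak k t ≤ ak k t₀ and a t₀ = a t. Take δ₁ from qs at t₀ (with δ₀ = 1) and δ₂ from
QS_mult for the coordinates of t₀; put δ = δ₁ * δ₂, and let T' be the family of the t' with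
ak k t₀ ≤ ak k t' and aeval (a t') δ ≠ 0. Onto: qs for the trivial place. Proper: the monic
equations of δ₂ (a t₀) * t₀ s are polynomial relations in t₀, so they hold for t'; use
Plc.int_of_root and V.loc. -/
theorem fin_sec [Finite τ] {T : Fam k τ} (hT : IsCl T) {a : PMap k τ σ} (ha : IsNat a)
    {x : σ → E} (hx : Im a T E x) : ∃ (δ : MvPolynomial σ k) (T' : Fam k τ), aeval x δ ≠ 0 ∧
      Ext T' ∧ (∀ (Ω : Type) [Field Ω] [Algebra k Ω] t, T' Ω t → T Ω t) ∧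
      Onto T' (nbd (ak k x) δ) a ∧ Maps T' (nbd (ak k x) δ) a ∧
      Proper T' (nbd (ak k x) δ) a := by
  obtain ⟨Ω, _, _, t, ht, e⟩ := hx
  obtain ⟨t₀, δ₂, h1, h2, h3, h4⟩ := FinSec_pt (F := af k (a Ω t))
    (AlgebraicClosure (af k (a Ω t))) ha t
    (fun s => ⟨a Ω t s, IntermediateField.subset_adjoin _ _ ⟨s, rfl⟩⟩) (fun _ => rfl)
    fun z => (IntermediateField.mem_adjoin_range_iff k (a Ω t) z.1).1 z.2
  obtain ⟨δ₁, h5, h6⟩ := qs ha t₀ (δ₀ := 1) (by rw [map_one]; exact one_ne_zero)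
  have h7 := h2.trans e
  refine ⟨δ₁ * δ₂, fun R _ _ t' => ak k t₀ ≤ ak k t' ∧ aeval (a R t') (δ₁ * δ₂) ≠ 0,
    ak_ne h7.ge (by rw [map_mul]; exact mul_ne_zero h5 h3),
    fun _ _ _ _ _ _ _ _ c h => ⟨h.1.trans c.le, ak_ne (ak_nat_eq ha c).ge h.2⟩,
    fun _ _ _ _ h => cl_le hT (h1.trans h.1) ht, fun R _ _ _ y hy => ?_,
    fun _ _ _ _ h => ⟨h7.ge.trans (ak_nat_le ha h.1), h.2⟩, fun V t' o c1 c2 c3 => ?_⟩
  · obtain ⟨o, c1, -, c2⟩ := h6 (Plc.triv k R) y (h7.le.trans hy.1)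
      (left_ne_zero_of_mul ((map_mul (aeval y) δ₁ δ₂) ▸ hy.2))
    obtain rfl : a R o = y := c2
    exact ⟨o, ⟨c1, hy.2⟩, rfl⟩
  · obtain ⟨u, hu⟩ := (V.loc (aeval o δ₂) (by
      rw [V.sp_aeval]
      exact right_ne_zero_of_mul ((map_mul (aeval (V.sp o)) δ₁ δ₂) ▸ c3.2))).exists_left_inv
    have key : ∀ s, ∃ w, V.i w = t' s := fun s => by
      obtain ⟨p, hp, he⟩ := h4 s
      rw [← FinSec_ev ha] at he
      have c4 := (ak_le_iff _ _).1 c1.1 _ he
      rw [FinSec_ev ha, ← c2] at c4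
      obtain ⟨w, hw⟩ := V.int_of_root (p.map (aeval o : MvPolynomial σ k →ₐ[k] V.O)) (hp.map _)
        (z := aeval (V.gen o) δ₂ * t' s) (by
          rw [Polynomial.eval₂_map, ← c4]
          congr 1
          exact RingHom.ext fun f => V.gen_aeval o f)
      exact ⟨u * w, by rw [map_mul, hw, ← V.gen_aeval, ← mul_assoc, ← map_mul, hu, map_one, one_mul]⟩
    choose o' ho' using key
    obtain rfl : V.gen o' = t' := funext ho'
    obtain rfl : o = a V.O o' := V.gen_inj (c2.trans (V.gen_nat ha o').symm)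
    exact ⟨o', rfl, c1.1.trans (V.ak_le o'), V.sp_nat ha o' ▸ c3.2⟩

/-- By pull for the projection fs. -/
theorem pull_sec [Group Γ] [Rl Γ] [Finite σ] [Finite τ] {S : Fam k σ} {A : Act k σ Γ}
    {a : PMap k σ υ} {T : Fam k (υ ⊕ τ)} {U : Fam k υ} (hS : Ext S) (hT : Ext T) (hU : Ext U)
    (st : A.Stab S) (ha : IsNat a)
    (hA : ∀ g (Ω : Type) [Field Ω] [Algebra k Ω] x, S Ω x → a Ω (A.a g Ω x) = a Ω x)
    (h1 : Onto T U fun _ _ _ t => fs t) (h2 : Maps T U fun _ _ _ t => fs t)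
    (h3 : Proper T U fun _ _ _ t => fs t)
    (h : IVan (fun Ω _ _ z => S Ω (fs z) ∧ T Ω (Sum.elim (a Ω (fs z)) fun s => z (Sum.inr s)) :
      Fam k (σ ⊕ τ)) (A.left τ)) :
    IVan (fun Ω _ _ x => S Ω x ∧ U Ω (a Ω x)) A := by
  refine pull (AT := A.left τ) (a := fun _ _ _ t => fs t) ((hS.comp nat_fs).and
      (hT.comp (nat_elim (nat_comp ha nat_fs) (nat_proj Sum.inr)))) (hS.and (hU.comp ha)) nat_fs
    (fun Ω _ _ z hz => ⟨hz.1, h2 Ω _ hz.2⟩) (fun Ω _ _ _ x hx => ?_) (fun V z o c1 c2 c3 => ?_)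
    (fun g Ω _ _ _ z hz => ⟨⟨st g Ω _ hz.1, ?_⟩, rfl⟩) h
  · obtain ⟨t, c1, c2⟩ := h1 Ω _ hx.2
    refine ⟨Sum.elim x fun s => t (Sum.inr s), ⟨hx.1, ?_⟩, rfl⟩
    change T Ω (Sum.elim (a Ω x) fun s => t (Sum.inr s))
    rw [← c2]
    exact (Sum.elim_comp_inl_inr t).symm ▸ c1
  · have c4 : V.gen (a V.O o) = a V.Ω (fs z) := by rw [V.gen_nat ha, c2]
    obtain ⟨o', c5, c6⟩ := h3 V _ (a V.O o) c1.2 c4 (V.sp_nat ha o ▸ c3.2)
    have c7 : a V.O o = fs o' := V.gen_inj (c4.trans (congrArg fs c5).symm)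
    refine ⟨Sum.elim o fun s => o' (Sum.inr s), funext fun s => ?_, c3.1, ?_⟩
    · cases s with
      | inl s => exact congrFun c2 s
      | inr s => exact congrFun c5 (Sum.inr s)
    · change T V.κ (Sum.elim (a V.κ (V.sp o)) fun s => V.sp o' (Sum.inr s))
      rw [← V.sp_nat ha, c7]
      exact (Sum.elim_comp_inl_inr (V.sp o')).symm ▸ c6
  · change T Ω (Sum.elim (a Ω (A.a g Ω (fs z))) fun s => z (Sum.inr s))
    rw [hA g Ω _ hz.1]
    exact hz.2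

end Pool.Agent.MP_a9d3bd_s.W
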