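import Pool.Agent.MP_a9d3bd_w.Strat
import Pool.Agent.MP_a9d3bd_s.Spec

/-! Noetherian induction. -/

namespace Pool.Agent.MP_a9d3bd_s.W

open Function Matrix MvPolynomial Pool.Agent.MP_a9d3bd_q

variable {k σ τ Γ : Type} [Field k] [Group Γ] [Rl Γ] [Finite τ] {S : Fam k σ} {A : Act k σ Γ}
  {a : PMap k σ τ}

omit [Finite τ] in
/-- The restriction Strat_res of an admissible functional to the part over U is admissible if the
functional vanishes at the points of S that are specialisations of that part and lie outside it.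
See the proof of strat; dv_ak_le, dv_nat, ak_nat_le. -/
theorem adm_res (hS : Ext S) (st : A.Stab S) (ha : IsNat a)
    (hA : ∀ g (Ω : Type) [Field Ω] [Algebra k Ω] x, S Ω x → a Ω (A.a g Ω x) = a Ω x)
    {U : Fam k τ} (hU : Ext U) {L : Type} [Field L] [Algebra k L] {j : ℕ} {Φ : Raw L σ}
    (hΦ : AdmF L j S A Φ)
    (h : ∀ (E E' : Type) [Field E] [Algebra k E] [Field E'] [Algebra L E'] [Algebra k E']
      [IsScalarTower k L E'], FF L E' j → ∀ (y : τ → E) (x : σ → E'), U E y →
        ak k y ≤ ak k (a E' x) → S E' x → ¬ U E' (a E' x) → Φ E' x = 0) :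
    AdmF L j (fun Ω _ _ x => S Ω x ∧ U Ω (a Ω x)) A
      (Strat_res L (fun Ω _ _ x => S Ω x ∧ U Ω (a Ω x) : Fam k σ) Φ) := by
  refine ⟨⟨Strat_res_pre (hS.and (hU.comp ha)) hΦ.pre, ?_, ?_, ?_, ?_⟩, ?_⟩
  · intro E _ _ _ _ _ x hx
    exact Strat_res_neg Φ hx
  · intro E _ _ _ _ hE x g hx hg
    rw [← hΦ.rat E hE x g hx.1 hg]
    refine Strat_Da_congr g fun O hO => ?_
    let _ := kAlg k L O.K
    have := kTower k L O.K
    by_cases h1 : S O.K (O.ra x) ∧ U O.K (a O.K (O.ra x))
    · exact Strat_res_pos (W := fun Ω _ _ x => S Ω x ∧ U Ω (a Ω x)) Φ h1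
    · rw [Strat_res_neg (W := fun Ω _ _ x => S Ω x ∧ U Ω (a Ω x)) Φ h1]
      by_cases h2 : S O.K (O.ra x)
      · exact (h E O.K (O.ff_K hE) (a E x) (O.ra x) hx.2 (ak_nat_le ha (dv_ak_le O hO)) h2
          fun h3 => h1 ⟨h2, h3⟩).symm
      · exact (hΦ.supp O.K (O.ff_K hE) _ h2).symm
  · intro E _ _ _ _ hE x hx
    exact Strat_res_zero (hΦ.kd E hE x hx)
  · intro g E _ _ _ _ hE x hx
    have h1 : S E (A.a g.1 E x) ∧ U E (a E (A.a g.1 E x)) :=
      ⟨st g.1 E x hx.1, (hA g.1 E x hx.1).symm ▸ hx.2⟩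
    exact (Strat_res_pos (W := fun Ω _ _ x => S Ω x ∧ U Ω (a Ω x)) Φ h1).trans
      ((hΦ.inv g E hE x hx.1).trans
        (Strat_res_pos (W := fun Ω _ _ x => S Ω x ∧ U Ω (a Ω x)) Φ hx).symm)
  · intro E _ _ _ _ hE x hx
    rw [← hΦ.nrm E hE x hx.1]
    refine Finset.sum_congr rfl fun i _ => ?_
    have h1 : S E (A.a (Rl.s i) E x) ∧ U E (a E (A.a (Rl.s i) E x)) :=
      ⟨st _ E x hx.1, (hA _ E x hx.1).symm ▸ hx.2⟩
    exact Strat_res_pos (W := fun Ω _ _ x => S Ω x ∧ U Ω (a Ω x)) Φ h1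

/-- Fix an admissible Φ. Call a prime P good if Φ E x = 0 for all x in S with ak k (a x) = P. Show
by strong induction on n, and inside by well founded induction on P for the order >
(the polynomial ring is noetherian): if every point y with P ≤ ak k y and Orb l y has r l < n, then
P is good. Let ak k (a x) = P. If a x is in no Orb l take δ from hL and apply adm_res to
U = nbd P δ; a point over a specialisation of U outside U lies over a prime that is strictly
bigger than P. If Orb l (a x) apply adm_res to U = Orb l: let y be in Orb l and a x' a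
specialisation outside; every specialisation z of a x' with Orb l' z has r l' < r l by spec, ord
and convexity, so the outer induction hypothesis for n = r l applies. Finally take n bigger than
all r l. -/
theorem noeth {Λ : Type} [Finite Λ] {Orb : Λ → Fam k τ} {r : Λ → ℕ} (hS : Ext S) (st : A.Stab S)
    (ha : IsNat a)
    (hA : ∀ g (Ω : Type) [Field Ω] [Algebra k Ω] x, S Ω x → a Ω (A.a g Ω x) = a Ω x)
    (hc : ∀ l, Cvx (Orb l))
    (ord : ∀ l l' (V : Plc k) (o : τ → V.O), Orb l V.Ω (V.gen o) → Orb l' V.κ (V.sp o) →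
      Orb l V.κ (V.sp o) ∨ r l' < r l)
    (hO : ∀ l, IVan (fun Ω _ _ x => S Ω x ∧ Orb l Ω (a Ω x)) A)
    (hL : ∀ (E : Type) [Field E] [Algebra k E] x, S E x → (∀ l, ¬ Orb l E (a E x)) →
      ∃ δ, aeval (a E x) δ ≠ 0 ∧
        IVan (fun Ω _ _ x' => S Ω x' ∧ nbd (ak k (a E x)) δ Ω (a Ω x')) A) : IVan S A := by
  intro L _ _ j Φ hΦ
  have key : ∀ (n : ℕ) (I : Ideal (MvPolynomial τ k)) (E : Type) [Field E] [Algebra L E]
      [Algebra k E] [IsScalarTower k L E], FF L E j → ∀ x : σ → E, S E x →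
      (ak k (a E x)).asIdeal = I →
      (∀ l (E' : Type) [Field E'] [Algebra k E'] (y : τ → E'), ak k (a E x) ≤ ak k y →
        Orb l E' y → r l < n) → Φ E x = 0 := by
    intro n
    induction n using Nat.strong_induction_on with
    | _ n ih =>
      intro I
      induction I using (wellFounded_gt (α := Ideal (MvPolynomial τ k))).induction with
      | _ I ih' =>
        intro E _ _ _ _ hE x hx hI hr
        by_cases ho : ∃ l, Orb l E (a E x)
        · obtain ⟨l, hl⟩ := ho
          have h1 := adm_res hS st ha hA (hc l).ext hΦ (by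
            intro E₁ E₂ _ _ _ _ _ _ hE₂ y x' hy hle hx' hn
            refine ih (r l) (hr l E _ le_rfl hl) _ E₂ hE₂ x' hx' rfl ?_
            intro l' E₃ _ _ z hz hl'
            obtain ⟨V, o, e1, e2⟩ := spec (hle.trans hz)
            rcases ord l l' V o (((hc l).ext.iff e1).2 hy) (((hc l').ext.iff e2).2 hl') with c | c
            · exact absurd (hc l E₁ E₂ E₃ y _ z hle hz hy (((hc l).ext.iff e2).1 c)) hn
            · exact c)
          have h4 : S E x ∧ Orb l E (a E x) := ⟨hx, hl⟩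
          exact (Strat_res_pos (W := (fun Ω _ _ x => S Ω x ∧ Orb l Ω (a Ω x) : Fam k σ)) Φ
            h4).symm.trans (hO l L j _ h1 E hE x)
        · obtain ⟨δ, hδ, hv⟩ := hL E x hx fun l hl => ho ⟨l, hl⟩
          have hU : Ext (nbd (ak k (a E x)) δ) := by
            intro E₁ E₂ _ _ _ _ y y' e hy
            exact ⟨hy.1.trans e.le, ak_ne e.ge hy.2⟩
          have h1 := adm_res hS st ha hA hU hΦ (by
            intro E₁ E₂ _ _ _ _ _ _ hE₂ y x' hy hle hx' hn
            have h2 : ak k (a E x) ≤ ak k (a E₂ x') := hy.1.trans hle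
            refine ih' (ak k (a E₂ x')).asIdeal ?_ E₂ hE₂ x' hx' rfl
              fun l E₃ _ _ z hz hl => hr l E₃ z (h2.trans hz) hl
            rw [← hI]
            refine lt_of_le_not_ge h2 fun h3 => hn ⟨h2, ?_⟩
            exact ak_ne (x := a E₂ x') (x' := a E x) h3 hδ)
          have h4 : S E x ∧ nbd (ak k (a E x)) δ E (a E x) := ⟨hx, le_rfl, hδ⟩
          exact (Strat_res_pos
            (W := (fun Ω _ _ x' => S Ω x' ∧ nbd (ak k (a E x)) δ Ω (a Ω x') : Fam k σ)) Φ
            h4).symm.trans (hv L j _ h1 E hE x)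
  intro E _ _ hE x
  let _ := kAlg k L E
  have := kTower k L E
  by_cases hx : S E x
  · obtain ⟨n, hn⟩ := (Set.finite_range r).bddAbove
    exact key (n + 1) _ E hE x hx rfl fun l _ _ _ _ _ _ => Nat.lt_succ_of_le (hn ⟨l, rfl⟩)
  · exact hΦ.supp E hE x hx

end Pool.Agent.MP_a9d3bd_s.W
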