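import Pool.Agent.MP_a9d3bd_w.CoQ
import Pool.Agent.MP_a9d3bd_w.CoH
import Pool.Agent.MP_a9d3bd_w.CoL
import Pool.Agent.MP_a9d3bd_w.CoW
import Pool.Agent.MP_a9d3bd_w.CoM
import Pool.Agent.MP_a9d3bd_w.Noeth
import Pool.Agent.MP_a9d3bd_w.FinSec
import Pool.Agent.MP_a9d3bd_s.OrbD

/-! The main theorem for the core data. -/

namespace Pool.Agent.MP_a9d3bd_s.W

open Function Matrix MvPolynomial Pool.Agent.MP_a9d3bd_q

variable {k ι N Γ : Type} [Field k] [Fintype ι] [DecidableEq ι] [LinearOrder ι] [Fintype N]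
  [DecidableEq N] [Group Γ] [Rl Γ] (C : Core k ι N Γ)

variable [IsAlgClosed k]

/-- By noeth with a x = um (gD x) and the families of exists_orbD for C.V, C.K and the members of
the finite set of C.HL. The orbits: ivan_DO and of_old. The rest: cover_im for C.G.fam, C.LT and
the projection fs, then fin_sec, pull_sec and ivan_DL. -/
theorem Core.ivan_Dt (hp : Fb C.p k) : IVan C.Dt C.actD := by
  obtain ⟨Y, hY, hHL⟩ := C.HL
  obtain ⟨Orb, r, hO⟩ := exists_orbD C.gV C.gK (fun l : Y => l.1)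
  have ha : IsNat (fun _ _ _ x => um (Core.gD x) :
      PMap k (Option ((ι × ι) ⊕ ι × ι)) (ι × ι)) := nat_um natV_gD
  have hA : ∀ g (Ω : Type) [Field Ω] [Algebra k Ω] (x : Option ((ι × ι) ⊕ ι × ι) → Ω),
      C.Dt Ω x → um (Core.gD (C.actD.a g Ω x)) = um (Core.gD x) := fun _ _ _ _ _ _ => rfl
  have hLT : IsCl C.LT := cl_LTF C.gG.cl C.gV.cl C.gP.cl C.nF C.nχ
  refine noeth (Orb := fun l => (Orb l).fam) (r := r) (cl_ext C.cl_Dt) (C.stab_Dt hp) ha hA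
    (fun l => (hO.lc l).cvx) (fun l l' V o h h' => hO.ord l l' V (mat o) h h') (fun l => ?_) ?_
  · exact of_old (C.ivan_DO hp (hY l.1 l.2) (hO.lc l) (hO.iff l) (hO.hl l))
  · intro E _ _ x hx hn
    have hcov := cover_im (O := fun l : Y => (Orb l).fam) C.gG.good hO.lc hLT nat_fs
      (fun g hg => ?_) (x := um (Core.gD x)) hx.1
    · obtain ⟨l, hl⟩ | him := hcov
      · exact absurd hl (hn l)
      obtain ⟨δ, T', h0, hT', le, h1, h2, h3⟩ := fin_sec hLT nat_fs him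
      have h4 : IVan (fun Ω _ _ z => C.Dt Ω (fs z) ∧
          T' Ω (Sum.elim (um (Core.gD (fs z))) fun s => z (Sum.inr s)) :
          Fam k (Option ((ι × ι) ⊕ ι × ι) ⊕ CI ι C.d)) (C.actD.left (CI ι C.d)) :=
        C.ivan_DL hp hT' le
      have h5 := pull_sec (cl_ext C.cl_Dt) hT' (lcl_nbd (ak k (um (Core.gD x))) δ).ext
        (C.stab_Dt hp) ha hA h1 h2 h3 h4
      exact ⟨δ, h0, h5⟩
    · obtain ⟨y, hy, s, s', hs, hs', e⟩ | ⟨c, hc⟩ := hHL (mat g) hg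
      · refine Or.inl ⟨⟨y, hy⟩, (hO.iff ⟨y, hy⟩ k (mat g)).2 ⟨s, s', hs, hs', ?_⟩⟩
        rw [cm_self]
        exact e
      · exact Or.inr ⟨_, hc, rfl⟩

theorem Core.main [Nonempty ι] (hp : Fb C.p k) : PVan C.eqs (Act.lin C.ρ) :=
  C.pvan hp fun _ hy => C.ivan_Q hy (C.ivan_Yh hp (C.ivan_TW hp (C.ivan_Dt hp)))

end Pool.Agent.MP_a9d3bd_s.W
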