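import Pool.Agent.MP_a9d3bd_w.IDefs
import Pool.Agent.MP_a9d3bd_s.Corr

/-! Correspondences. -/

namespace Pool.Agent.MP_a9d3bd_s.W

open Function Matrix MvPolynomial Pool.Agent.MP_a9d3bd_q

variable {k σ σ' τ Γ : Type} [Field k] [Group Γ] [Rl Γ]

omit [Rl Γ] in
theorem Corr_ext3 {T : Fam k τ} {A : Act k σ Γ} {A' : Act k σ' Γ} {a : PMap k τ σ}
    {b : PMap k τ σ'} (hT : Ext T) (ha : IsNat a) (hb : IsNat b) (g : Γ) :
    Ext (fun Ω _ _ u => (T Ω (fun s => u (Sum.inl s)) ∧ T Ω fun s => u (Sum.inr s)) ∧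
      b Ω (fun s => u (Sum.inr s)) = A'.a g Ω (b Ω fun s => u (Sum.inl s)) ∧
      a Ω (fun s => u (Sum.inr s)) = A.a g Ω (a Ω fun s => u (Sum.inl s)) :
        Fam k (τ ⊕ τ)) := by
  refine ((hT.comp (nat_proj Sum.inl)).and (hT.comp (nat_proj Sum.inr))).and ?_
  rintro E E' _ _ _ _ x x' e ⟨h1, h2⟩
  exact ⟨nat_veq (nat_comp hb (nat_proj Sum.inr))
      (nat_comp (A'.nat g) (nat_comp hb (nat_proj Sum.inl))) e.le h1,
    nat_veq (nat_comp ha (nat_proj Sum.inr))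
      (nat_comp (A.nat g) (nat_comp ha (nat_proj Sum.inl))) e.le h2⟩

theorem corr [Finite σ] [Finite σ'] [Finite τ] {S : Fam k σ} {S' : Fam k σ'} {T : Fam k τ}
    {A : Act k σ Γ} {A' : Act k σ' Γ} {a : PMap k τ σ} {b : PMap k τ σ'} (hT : Ext T)
    (hS : Ext S) (hS' : Ext S') (ha : IsNat a) (hb : IsNat b) (ma : Maps T S a) (mb : Maps T S' b)
    (ob : Onto T S' b) (pa : Proper T S a) (pb : Proper T S' b)
    (fib : ∀ (Ω : Type) [Field Ω] [Algebra k Ω] [IsAlgClosed Ω] t t', T Ω t → T Ω t' →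
      b Ω t = b Ω t' → ∃ γ ∈ (Rl.Z : Subgroup Γ), a Ω t' = A.a γ Ω (a Ω t))
    (eqv : ∀ g (Ω : Type) [Field Ω] [Algebra k Ω] [IsAlgClosed Ω] t, T Ω t →
      ∃ t', T Ω t' ∧ b Ω t' = A'.a g Ω (b Ω t) ∧ a Ω t' = A.a g Ω (a Ω t))
    (h : IVan S' A') : Dead S A T a := by
  intro L _ _ j Φ hΦ
  obtain ⟨Ψ, h0, h1⟩ := corr_fn (A := resA A Rl.Z) hT hS' ha hb ma ob
    (fun Ω _ _ _ t t' h1 h2 e => (fib Ω t t' h1 h2 e).elim fun γ h => ⟨⟨γ, h.1⟩, h.2⟩) hΦ.toAdmF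
  have lift : ∀ {n : ℕ} {E : Type} [Field E] [Algebra L E] [Algebra k E] [IsScalarTower k L E],
      FF L E n → ∀ {x : σ' → E}, S' E x →
      ∃ (E' : Type) (_ : Field E') (_ : Algebra L E') (_ : Algebra k E')
        (_ : IsScalarTower k L E') (ψ : E →ₐ[L] E') (t : τ → E'), FF L E' n ∧ T E' t ∧
        (b E' t = fun s => ψ (x s)) ∧ ∀ s, IsAlgebraic (af k fun s => ψ (x s)) (t s) := by
    intro n E _ _ _ _ hE x hx
    obtain ⟨_, r⟩ := lift_fin (Λ := Unit) (a := fun _ => b) hS' hT (fun _ => hb)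
      (fun Ω _ _ _ y hy => ⟨(), ob Ω y hy⟩) hE hx
    exact r
  have same : ∀ (E : Type) [Field E] [Algebra L E] [Algebra k E] [IsScalarTower k L E],
      FF L E j → ∀ t, T E t → Φ E (a E t) = Ψ E (b E t) := by
    intro E _ _ _ _ hE t ht
    rw [h1 E E hE hE (AlgHom.id L E) (b E t) t (mb E t ht) ht rfl, Corr_id, Nat.cast_one, one_mul]
  have pre : IsPreA j Ψ := by
    refine ⟨fun E E₂ _ _ _ _ hE hE₂ ψ x => ?_, fun E _ _ hE x hx => ?_⟩
    · let := kAlg k L E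
      have := kTower k L E
      let := kAlg k L E₂
      have := kTower k L E₂
      by_cases hx : S' E x
      · have hx₂ := (hS'.mapL ψ x).2 hx
        obtain ⟨E', _, _, _, _, χ, t, hE', ht, e, -⟩ := lift hE₂ hx₂
        refine Corr_cancel hE₂ hE' χ ?_
        rw [← h1 E₂ E' hE₂ hE' χ _ t hx₂ ht e, h1 E E' hE hE' (χ.comp ψ) x t hx ht e, hdeg_comp]
        push_cast
        ring
      · rw [h0 E x hx, h0 E₂ _ fun e => hx ((hS'.mapL ψ x).1 e), mul_zero]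
    · let := kAlg k L E
      have := kTower k L E
      by_cases hx' : S' E x
      · obtain ⟨E', _, _, _, _, ψ, t, hE', ht, e, hal⟩ := lift hE hx'
        refine Corr_cancel hE hE' ψ ?_
        rw [← h1 E E' hE hE' ψ x t hx' ht e, mul_zero]
        refine hΦ.pre.degen E' hE' _ (not_nda_of_le hE' (af_nat_leL L ha t) ?_)
        refine (td_mono_fg fun s => Corr_alg (hal s)).trans_lt ?_
        exact lt_of_le_of_ne (tr_td_le hE'.tr _) fun e =>
          hx ((nda_map hE hE' ψ x).1 ((nda_iff hE' _).2 e))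
      · exact h0 E x hx'
  have key : ∀ (g : Γ) (E E' : Type) [Field E] [Algebra L E] [Algebra k E] [IsScalarTower k L E]
      [Field E'] [Algebra L E'] [Algebra k E'] [IsScalarTower k L E'], FF L E j → FF L E' j →
      ∀ (ψ : E →ₐ[L] E') (x : σ' → E) (t : τ → E'), T E' t → (b E' t = fun s => ψ (x s)) →
        Φ E' (A.a g E' (a E' t)) = hdeg ψ * Ψ E (A'.a g E x) := by
    intro g E E' _ _ _ _ _ _ _ _ hE hE' ψ x t ht e
    obtain ⟨_, E₂, _, _, _, _, χ, u, hE₂, ⟨⟨h2, h3⟩, h4, h5⟩, e₂, -⟩ :=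
      lift_fin (Λ := Unit) (a := fun _ R _ _ u s => u (Sum.inl s)) hT
        (Corr_ext3 (A := A) (A' := A') hT ha hb g) (fun _ => nat_proj Sum.inl)
        (fun Ω _ _ _ y hy => by
          obtain ⟨t', h2, h3, h4⟩ := eqv g Ω y hy
          exact ⟨(), Sum.elim y t', ⟨⟨hy, h2⟩, h3, h4⟩, rfl⟩) hE' ht
    have e₃ : (fun s => u (Sum.inl s)) = fun s => χ (t s) := e₂
    have e' : b E₂ (fun s => u (Sum.inr s)) = fun s => (χ.comp ψ) (A'.a g E x s) := by
      rw [h4, e₃, nat_mapL hb, e, ← nat_mapL (A'.nat g) (χ.comp ψ) x]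
      rfl
    have h6 := h1 E E₂ hE hE₂ (χ.comp ψ) _ _
      ((hS'.mapL (χ.comp ψ) _).1 (e' ▸ mb E₂ _ h3)) h3 e'
    rw [h5, e₃, nat_mapL ha, nat_mapL (A.nat g), hΦ.pre.ext _ _ hE' hE₂, hdeg_comp] at h6
    refine Corr_cancel hE' hE₂ χ ?_
    rw [h6]
    push_cast
    ring
  have adm : AdmF L j S' A' Ψ := by
    refine ⟨⟨pre, fun E _ _ _ _ _ => h0 E, fun E _ _ _ _ hE x g hx hg => ?_,
      fun E _ _ _ _ hE x hx => ?_, fun g E _ _ _ _ hE x hx => ?_⟩,
      fun E _ _ _ _ hE x hx => ?_⟩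
    · obtain ⟨E', _, _, _, _, ψ, t, hE', ht, e, -⟩ := lift hE hx
      refine Corr_cancel hE hE' ψ ?_
      rw [← Da_ext pre hE hE' ψ x g, ← e, mul_zero,
        ← hΦ.rat E' hE' (a E' t) (ψ g) (ma E' t ht) ((map_ne_zero ψ).2 hg)]
      refine finsum_congr fun O => ?_
      let := kAlg k L O.K
      have := kTower k L O.K
      have hK := O.ff_K hE'
      by_cases hc : O.Int t ∧ T O.K (O.ra t)
      · rw [if_pos (dv_nat O hb hc.1).1, if_pos (dv_nat O ha hc.1).1, (dv_nat O hb hc.1).2,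
          (dv_nat O ha hc.1).2, same O.K hK _ hc.2]
      · trans 0
        · split_ifs with hi
          · rw [h0 O.K _ fun hy => hc (dv_proper O pb hT hS' hb ht hi hy), mul_zero]
          · rfl
        · split_ifs with hi
          · rw [hΦ.supp O.K hK _ fun hy => hc (dv_proper O pa hT hS ha ht hi hy), mul_zero]
          · rfl
    · by_cases hx' : S' E x
      · obtain ⟨E', _, _, _, _, ψ, t, hE', ht, e, hal⟩ := lift hE hx'
        refine Corr_cancel hE hE' ψ ?_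
        rw [← h1 E E' hE hE' ψ x t hx' ht e, mul_zero]
        refine hΦ.kd E' hE' _ ((td_nat ha t).trans ((td_mono_fg hal).trans ?_))
        rwa [td_mapL]
      · exact h0 E x hx'
    · obtain ⟨E', _, _, _, _, ψ, t, hE', ht, e, -⟩ := lift hE hx
      refine Corr_cancel hE hE' ψ ?_
      rw [← h1 E E' hE hE' ψ x t hx ht e]
      exact (key g.1 E E' hE hE' ψ x t ht e).symm.trans (hΦ.inv g E' hE' _ (ma E' _ ht))
    · obtain ⟨E', _, _, _, _, ψ, t, hE', ht, e, -⟩ := lift hE hx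
      refine Corr_cancel hE hE' ψ ?_
      rw [mul_zero, Finset.mul_sum, ← hΦ.nrm E' hE' _ (ma E' _ ht)]
      exact Finset.sum_congr rfl fun i _ => (key _ E E' hE hE' ψ x t ht e).symm
  intro E _ _ _ _ hE t ht
  rw [same E hE t ht]
  exact h L j Ψ adm E hE _

end Pool.Agent.MP_a9d3bd_s.W
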