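import Pool.Agent.MP_a9d3bd_s.Defs2

namespace Pool.Agent.MP_a9d3bd_w

open MvPolynomial Pool.Agent.MP_a9d3bd_q

variable {k : Type} [Field k] {n l N : ℕ}
  {G : Subgroup (Matrix.SpecialLinearGroup (Fin (n + 1)) k)}

/-- The value of `f` at the entries of `g`. -/
noncomputable def ev (f : MvPolynomial (Fin (n + 1) × Fin (n + 1)) k) (g : G) : k :=
  eval (fun c => g.1 c.1 c.2) f

/-- `f` is additive on `V`. -/
def Addv (V : Subgroup G) (f : MvPolynomial (Fin (n + 1) × Fin (n + 1)) k) : Prop :=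
  ∀ v ∈ V, ∀ w ∈ V, ev f (v * w) = ev f v + ev f w

/-- The previous member of the chain; for the first index the preimage of the last member. -/
def prev (F : G →* G) (P : Fin (l + 1) → Subgroup G) : Fin (l + 1) → Subgroup G :=
  Fin.cases ((P (Fin.last l)).comap F) fun i => P i.castSucc

/-- There is a polynomial curve of degree at most `d` through 1 in the intersection of `V` with
the conjugate of `Q` by `g` on which `χ` is the parameter. -/
def Line (d : ℕ) (V : Subgroup G) (χ : MvPolynomial (Fin (n + 1) × Fin (n + 1)) k)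
    (Q : Subgroup G) (g : G) : Prop :=
  ∃ c : Fin d → Matrix (Fin (n + 1)) (Fin (n + 1)) k, ∀ t : k, ∃ v ∈ V,
    v.1.1 = 1 + ∑ i, t ^ (i.1 + 1) • c i ∧ g⁻¹ * v * g ∈ Q ∧ ev χ v = t

/-- The span of the sums of the translates of a subvariety under `t 0`, ..., `t (m - 1)`. -/
noncomputable def nrm {L : Type} [Field L] (S : Set (MvPolynomial (Fin N) L)) (j m : ℕ)
    (t : ℕ → MvPolynomial (Fin N) L →ₐ[L] MvPolynomial (Fin N) L) :
    Submodule ℚ (Var S j →₀ ℚ) :=
  Submodule.span ℚ {z | ∃ (C : Var S j) (D : ℕ → Var S j),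
    (∀ i, (D i).1.asIdeal = C.1.asIdeal.comap (t i)) ∧
      z = ∑ i ∈ Finset.range m, Finsupp.single (D i) 1}

end Pool.Agent.MP_a9d3bd_w
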