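import Pool.Agent.MP_a9d3bd_w.CorrB
import Pool.Agent.MP_a9d3bd_w.Canc
import Pool.Agent.MP_a9d3bd_s.Des

/-! Descent along a torsor under a triangular group. -/

namespace Pool.Agent.MP_a9d3bd_s.W

open Function Matrix MvPolynomial Pool.Agent.MP_a9d3bd_q

variable {k σ τ ι Γ : Type} [Field k] [Group Γ] [Rl Γ] [Fintype ι] [DecidableEq ι] [LinearOrder ι]
  {T : Fam k τ} {Y : Fam k σ} {a : PMap k τ σ} {β : VM k τ ι} {S : MFam k ι} {μ : PMM k τ ι}
  {AT : Act k τ Γ} {AY : Act k σ Γ} {D : Finset (ι × ι)} {c d : ι}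

variable [IsAlgClosed k] [Finite σ] [Finite τ]

/-- By pull; properness by hl_D and h.inj. -/
theorem des_top (h : Desc T Y a β S μ AT AY) (hT : IVan T AT) :
    IVan (dZ T a β (posD ι)) (AY.left (ι × ι)) := by
  refine pull h.good.ext (ext_im _ _) (h.nat_dZ _) (maps_im _ _) (onto_im h.good (h.nat_dZ _))
    (fun V t o ht ho hy => ?_) (fun g Ω _ _ _ t ht => ⟨h.stT g Ω t ht, ?_⟩) hT
  · obtain ⟨h1, h2⟩ := h.dZ_le hy
    obtain ⟨o', h3, h4, h5⟩ := h.hl_D ic_posD V ht ho h1 h2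
    refine ⟨o', ?_, h4⟩
    have h6 := V.gen_nat (h.nat_dZ (posD ι)) o'
    rw [h5, ho, pr_inj, trD_top (h.tri _ _ ht).1, trD_top (h.tri _ _ h3).1] at h6
    exact h.inj _ _ _ h3 ht h6.1.symm h6.2.symm
  · obtain ⟨h1, h2⟩ := h.eqv g Ω t ht
    rw [left_pr, h1, h2]

omit [IsAlgClosed k] in
theorem des_bot (h : Desc T Y a β S μ AT AY) (hZ : IVan (dZ T a β ∅) (AY.left (ι × ι))) :
    IVan Y AY := by
  refine iso (a := fun _ _ _ x => fs x) (b := fun _ _ _ y => pr y 1) (ext_im _ _) h.cvx.ext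
    nat_fs (nat_pr nat_id natV_one) (fun Ω _ _ _ x hx => ⟨(h.dZ_le hx).1, ?_⟩)
    (fun Ω _ _ _ y hy => ⟨?_, rfl⟩) (fun g Ω _ _ _ x hx => ⟨h.dZ_stab g Ω x hx, rfl⟩) hZ
  · obtain ⟨t, -, rfl⟩ := (h.dZ_iff x).1 hx
    rw [fs_pr, trD_empty]
  · obtain ⟨t, ht, rfl⟩ := h.onto Ω y hy
    exact (h.dZ_iff _).2 ⟨t, ht, by rw [trD_empty]⟩

/-- By pull for x ↦ pr (fs x) (trD D (sm x)). For properness take o' from hl_D; then
β t = s * β o' with s in the kernel, and μ o' (cm f) with f from FinStep has the same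
image as t. -/
theorem des_fin (h : Desc T Y a β S μ AT AY) (hD : IC D) (hcd : (c, d) ∉ D)
    (hD' : IC (insert (c, d) D)) (hf : FinStep S D c d)
    (hZ : IVan (dZ T a β (insert (c, d) D)) (AY.left (ι × ι))) :
    IVan (dZ T a β D) (AY.left (ι × ι)) := by
  have hn : IsNat (fun _ _ _ x => pr (fs x) (trD D (sm x)) : PMap k (σ ⊕ ι × ι) (σ ⊕ ι × ι)) :=
    nat_pr nat_fs (natV_sm.trD D)
  have hsub : D ⊆ insert (c, d) D := Finset.subset_insert _ _
  refine pull (ext_im _ _) (ext_im _ _) hn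
    (maps_of_ac (ext_im _ _) (ext_im _ _) hn fun Ω _ _ _ x hx => ?_) (fun Ω _ _ _ y hy => ?_)
    (fun V x o hx ho hy => ?_) (fun g Ω _ _ _ x hx => ⟨h.dZ_stab g Ω x hx, rfl⟩) hZ
  · obtain ⟨t, ht, rfl⟩ := (h.dZ_iff x).1 hx
    exact (h.dZ_iff _).2 ⟨t, ht, by rw [fs_pr, sm_pr, trD_trD hsub]⟩
  · obtain ⟨t, ht, rfl⟩ := (h.dZ_iff y).1 hy
    exact ⟨_, (h.dZ_iff _).2 ⟨t, ht, rfl⟩, by
      rw [fs_pr, sm_pr, trD_trD hsub]⟩
  · obtain ⟨t, ht, rfl⟩ := (h.dZ_iff x).1 hx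
    change V.gen o = pr (fs _) (trD D (sm _)) at ho
    rw [fs_pr, sm_pr, trD_trD hsub] at ho
    obtain ⟨h1, h2⟩ := h.dZ_le hy
    obtain ⟨o', h3, h4, h5⟩ := h.hl_D hD V ht ho h1 h2
    have h6 := V.gen_nat (h.nat_dZ D) o'
    rw [h5, ho, pr_inj] at h6
    obtain ⟨s, hs, hβ⟩ := h.fib _ _ _ h3 ht h6.1.symm
    obtain ⟨um', dm⟩ := h.tri _ _ h3
    have us := h.ut _ _ hs
    have k1 : trD D s = 1 := by
      have e : s = β V.Ω t * (β V.Ω (V.gen o')).adjugate := by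
        rw [hβ, Matrix.mul_assoc, mul_adj_self dm, Matrix.mul_one]
      rw [e, trD_mul_congr hD (h.tri _ _ ht).1 (ut_adj um' dm) um' (ut_adj um' dm) h6.2 rfl,
        mul_adj_self dm, trD_one]
    obtain ⟨F, hF, hF'⟩ := hf
    obtain ⟨f, hfF, hfs⟩ := hF' _ s ⟨hs, k1⟩
    obtain ⟨hf1, hf2⟩ := hF f hfF
    have k2 : trD D (cm V.Ω f) = 1 := by
      rw [cm, ← trD_map, hf2, one_map]
    have hfΩ := (h.grp.cm_iff (E := V.Ω) f).2 hf1
    have uf := h.ut _ _ hfΩ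
    have g1 : V.gen (μ V.O o' (cm V.O f)) = μ V.Ω (V.gen o') (cm V.Ω f) := by
      funext x
      rw [← cm_map V.i]
      exact h.nμ _ _ V.i o' _ x
    have g2 : V.sp (μ V.O o' (cm V.O f)) = μ V.κ (V.sp o') (cm V.κ f) := by
      funext x
      rw [← cm_map V.π]
      exact h.nμ _ _ V.π o' _ x
    obtain ⟨-, a2, a3⟩ := h.act _ _ _ h3 hfΩ
    refine ⟨pr (a V.O (μ V.O o' (cm V.O f)))
      (trD (insert (c, d) D) (β V.O (μ V.O o' (cm V.O f)))), ?_, ?_⟩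
    · rw [V.gen_nat (h.nat_dZ (insert (c, d) D)), g1, a2, a3, pr_inj, trD_insert_iff, hβ]
      refine ⟨h6.1.symm, trD_mul_congr hD uf um' us um' (k2.trans k1.symm) rfl, ?_⟩
      rw [step_left hD' hcd uf k2 um', step_left hD' hcd us k1 um', hfs]
      rfl
    · rw [V.sp_nat (h.nat_dZ (insert (c, d) D)), g2]
      exact (h.dZ_iff _).2 ⟨_, (h.act _ _ _ h4 ((h.grp.cm_iff f).2 hf1)).1, rfl⟩

/-- By canc for the coordinate Sum.inr (c, d) and the constant (1 : Matrix ι ι k) c d, and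
ivan_congr. Extend cyl to all fields by Ext.of_ac. -/
theorem des_full (h : Desc T Y a β S μ AT AY) (hD : IC D) (hcd : (c, d) ∉ D)
    (hD' : IC (insert (c, d) D)) (hf : FullStep S D c d)
    (hZ : IVan (dZ T a β (insert (c, d) D)) (AY.left (ι × ι))) :
    IVan (dZ T a β D) (AY.left (ι × ι)) := by
  classical
  have x0 : Ext (dZ T a β (insert (c, d) D)) := ext_im _ _
  have key := canc (S := dZ T a β (insert (c, d) D)) (A := AY.left (ι × ι)) (Sum.inr (c, d))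
    ((1 : Matrix ι ι k) c d) (h.dZ_cvx hD') h.dZ_stab (fun _ _ _ _ _ _ => rfl)
    (fun Ω _ _ x t hx _ hle => by
      rw [Des_cyl_all h hD hcd hD' hf] at hx ⊢
      rw [update_idem]
      refine ⟨hx.1, fun e => ?_⟩
      have := ak_ne hle (f := X (Sum.inr (c, d))) (by rw [aeval_X]; exact hx.2 e)
      rwa [aeval_X] at this) hZ
  refine ivan_congr ?_ (ext_im _ _) (fun Ω _ _ _ x => ?_) key
  · exact x0.and (cl_ext (isCl_eq (natF_coord (Sum.inr (c, d)))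
      (natF_const ((1 : Matrix ι ι k) c d))))
  · show dZ T a β (insert (c, d) D) Ω x ∧
      x (Sum.inr (c, d)) = algebraMap k Ω ((1 : Matrix ι ι k) c d) ↔ dZ T a β D Ω x
    rw [one_algebraMap, h.cyl hD hcd hD' hf]
    constructor
    · rintro ⟨⟨h1, -⟩, h2⟩
      rwa [← h2, update_eq_self] at h1
    · intro hx
      have e : x (Sum.inr (c, d)) = (1 : Matrix ι ι Ω) c d := by
        obtain ⟨t, -, rfl⟩ := (h.dZ_iff x).1 hx
        exact trD_not_mem _ hcd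
      refine ⟨⟨?_, fun e' => ?_⟩, e⟩
      · rwa [← e, update_eq_self]
      · subst e'
        exact (h.dZ_le hx).2 c

theorem des (h : Desc T Y a β S μ AT AY) (hT : IVan T AT) : IVan Y AY :=
  des_bot h <| ic_induct
    (P := fun D => IVan (dZ T a β D) (AY.left (ι × ι)) → IVan (dZ T a β ∅) (AY.left (ι × ι)))
    id (fun _ _ _ hD hab hD' ih hZ => ih <| (dich h.grp h.ut hD hab hD').elim
      (fun hf => des_fin h hD hab hD' hf hZ) fun hf => des_full h hD hab hD' hf hZ) 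
      (des_top h hT)

end Pool.Agent.MP_a9d3bd_s.W
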