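import Pool.Agent.MP_a9d3bd_w.IDefs
import Pool.Agent.MP_a9d3bd_s.Kpt

/-! Generic emptiness of fibres. -/

namespace Pool.Agent.MP_a9d3bd_s.W

open Function Matrix MvPolynomial Pool.Agent.MP_a9d3bd_q

variable {k σ τ : Type} [Field k] {E : Type} [Field E] [Algebra k E]

theorem GenE_pt (P : Ideal (MvPolynomial τ k)) [P.IsPrime] :
    ∃ t : τ → FractionRing (MvPolynomial τ k ⧸ P), ∀ q, aeval t q = 0 ↔ q ∈ P := by
  let b : (MvPolynomial τ k ⧸ P) →ₐ[k] FractionRing (MvPolynomial τ k ⧸ P) :=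
    IsScalarTower.toAlgHom k _ _
  have hb : Injective b :=
    IsFractionRing.injective (MvPolynomial τ k ⧸ P) (FractionRing (MvPolynomial τ k ⧸ P))
  refine ⟨fun s => b (Ideal.Quotient.mk P (X s)), fun q => ?_⟩
  rw [← MP_a9d3bd_ag.PresA_hom b, map_eq_zero_iff b hb, Ideal.Quotient.eq_zero_iff_mem]

/-- Let R be the quotient of the polynomial ring by ak k x, with fraction field F, and J the ideal
of MvPolynomial τ R generated by the equations of T and the a X s - x s. If J contains no non-zero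
constant, then its extension to MvPolynomial τ F is proper (localisation; or take a prime
containing J and disjoint from the non-zero constants, Ideal.exists_le_prime_disjoint), and the
fraction field of the quotient by such a prime gives a point of T over x. Otherwise lift the
constant to δ. -/
theorem not_im_nbd {T : Fam k τ} (hT : IsCl T) {a : PMap k τ σ} (ha : IsNat a) {x : σ → E}
    (hx : ¬ Im a T E x) : ∃ δ : MvPolynomial σ k, aeval x δ ≠ 0 ∧
      ∀ (Ω : Type) [Field Ω] [Algebra k Ω] t, T Ω t → ¬ nbd (ak k x) δ Ω (a Ω t) := by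
  obtain ⟨Q, hQ⟩ := hT
  have := (ak k x).isPrime
  let φ : MvPolynomial σ k →ₐ[k] MvPolynomial τ k := aeval (a (MvPolynomial τ k) X)
  by_contra hc
  have hd : Disjoint ((Ideal.span Q ⊔ (ak k x).asIdeal.map φ : Ideal (MvPolynomial τ k)) :
      Set (MvPolynomial τ k)) ((ak k x).asIdeal.primeCompl.map φ) := by
    rw [Set.disjoint_left]
    rintro _ h1 ⟨δ, h2, rfl⟩
    refine hc ⟨δ, fun h3 => h2 ((mem_ak x δ).2 h3), fun Ω _ _ t ht h3 => h3.2 ?_⟩
    have h4 : Ideal.span Q ⊔ (ak k x).asIdeal.map φ ≤ (ak k t).asIdeal := by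
      refine sup_le (Ideal.span_le.2 fun q hq => (mem_ak t q).2 ((hQ Ω t).1 ht q hq))
        (Ideal.map_le_iff_le_comap.2 fun q hq => (mem_ak t _).2 ?_)
      rw [MP_a9d3bd_ag.PresA_comp ha]
      exact (mem_ak _ q).1 (h3.1 hq)
    rw [← MP_a9d3bd_ag.PresA_comp ha]
    exact (mem_ak t _).1 (h4 h1)
  obtain ⟨P, hP, h1, h2⟩ := Ideal.exists_le_prime_disjoint _ _ hd
  obtain ⟨t, ht⟩ := GenE_pt P
  refine hx ⟨_, _, _, t, (hQ _ t).2 fun q hq =>
    (ht q).2 (h1 (Ideal.mem_sup_left (Ideal.subset_span hq))), ?_⟩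
  refine PrimeSpectrum.ext (Ideal.ext fun q => ?_)
  rw [mem_ak, ← MP_a9d3bd_ag.PresA_comp ha, ht]
  refine ⟨fun h3 => ?_, fun h3 => h1 (Ideal.mem_sup_right (Ideal.mem_map_of_mem φ h3))⟩
  by_contra h4
  exact Set.disjoint_left.1 h2 h3 ⟨q, h4, rfl⟩

/-- As cover of MP_a9d3bd_s/Kpt, with one more factor from not_im_nbd. -/
theorem cover_im [IsAlgClosed k] [Finite σ] {Λ : Type} [Finite Λ] {S : Fam k σ} (hS : Good S)
    {O : Λ → Fam k σ} (hO : ∀ l, LCl (O l)) {T : Fam k τ} (hT : IsCl T) {a : PMap k τ σ}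
    (ha : IsNat a) (h : ∀ x, S k x → (∃ l, O l k x) ∨ ∃ t, T k t ∧ a k t = x) {x : σ → E}
    (hx : S E x) : (∃ l, O l E x) ∨ Im a T E x := by
  refine or_iff_not_imp_right.2 fun hi => ?_
  obtain ⟨δ, h0, h1⟩ := not_im_nbd hT ha hi
  obtain ⟨δ', h2, h3⟩ := hS E x hx
  refine cover (S := nbd (ak k x) (δ * δ')) (fun E' _ _ x' hx' => ⟨δ * δ', hx'.2,
    fun E'' _ _ x'' h4 h5 => ⟨hx'.1.trans h4, h5⟩⟩) hO (fun y hy => ?_)
    ⟨le_rfl, by rw [map_mul]; exact mul_ne_zero h0 h2⟩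
  have h4 := hy.2
  rw [map_mul] at h4
  refine (h y (h3 k y hy.1 (right_ne_zero_of_mul h4))).resolve_right ?_
  rintro ⟨t, ht, rfl⟩
  exact h1 k t ht ⟨hy.1, left_ne_zero_of_mul h4⟩

theorem lcl_nbd (P : PrimeSpectrum (MvPolynomial σ k)) (δ : MvPolynomial σ k) :
    LCl (nbd P δ) := by
  refine ⟨fun _ _ _ y => ∀ p ∈ (P.asIdeal : Set (MvPolynomial σ k)), aeval y p = 0,
    fun _ _ _ y => ∀ p ∈ ({δ} : Set (MvPolynomial σ k)), aeval y p = 0,
    ⟨_, fun _ _ _ _ => Iff.rfl⟩, ⟨_, fun _ _ _ _ => Iff.rfl⟩, fun Ω _ _ y => and_congr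
      ⟨fun h p hp => (mem_ak y p).1 (h hp), fun h p hp => (mem_ak y p).2 (h p hp)⟩ ?_⟩
  simp only [Set.mem_singleton_iff, forall_eq]

end Pool.Agent.MP_a9d3bd_s.W
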