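import Pool.Agent.MP_a9d3bd_w.TuM
import Pool.Agent.MP_a9d3bd_w.Brg
import Pool.Agent.MP_a9d3bd_w.Defs
import Pool.Agent.MP_a9d3bd_s.GlA
import Pool.Agent.MP_a9d3bd_s.GlB

/-! The main theorem. -/

namespace Pool.Agent.MP_a9d3bd_s.W

open Function Matrix MvPolynomial Pool.Agent.MP_a9d3bd_q

theorem fb_closure (p : ℕ) [Fact p.Prime] (k : Type) [Field k] [Algebra (ZMod p) k]
    [Algebra.IsAlgebraic (ZMod p) k] : Fb p k := by
  refine ⟨Fact.out, charP_of_injective_algebraMap (algebraMap (ZMod p) k).injective p, fun a => ?_⟩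
  let K := IntermediateField.adjoin (ZMod p) {a}
  have : FiniteDimensional (ZMod p) K :=
    IntermediateField.adjoin.finiteDimensional (Algebra.IsIntegral.isIntegral a)
  have : Finite K := Module.finite_of_finite (ZMod p)
  have := Fintype.ofFinite K
  have : CharP K p := charP_of_injective_algebraMap (algebraMap (ZMod p) K).injective p
  obtain ⟨n, -, hn⟩ := FiniteField.card K p
  refine ⟨n, n.2, ?_⟩
  have h1 := FiniteField.pow_card
    (⟨a, IntermediateField.mem_adjoin_simple_self (ZMod p) a⟩ : K)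
  rw [hn] at h1
  exact congrArg Subtype.val h1

variable {k : Type} [Field k] [IsAlgClosed k] {p n l m e d : ℕ}
  {G : Subgroup (SpecialLinearGroup (Fin (n + 1)) k)} {B V : Subgroup G}
  {P : Fin (l + 1) → Subgroup G} {F : G →* G}
  {χ lam : MvPolynomial (Fin (n + 1) × Fin (n + 1)) k}

open Pool.Agent.MP_a9d3bd_w

/-- A polynomial as a function. -/
noncomputable def polF {σ : Type} (f : MvPolynomial σ k) : PFun k σ := fun _ _ _ x => aeval x f

omit [IsAlgClosed k] in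
theorem polF_eq (g : G) : polF χ k (um g.1.1) = ev χ g := rfl

theorem add_polF (hV : ZClosed (pts (V : Set G))) (h : Addv V χ) :
    AddOn (cloM (V : Set G)) (polF χ) := by
  intro Ω _ _ a a' ha ha'
  have hn : IsNatF (polF χ) := natF_aeval nat_id χ
  refine cl_imp2 (cl_cloM _) (cl_cloM _) (isCl_eq (natF_um hn ((natV_mat nat_fs).mul natV_sm))
    (natF_add (natF_um hn (natV_mat nat_fs)) (natF_um hn natV_sm))) (fun a a' ha ha' => ?_) ha ha'
  obtain ⟨u, hu, rfl⟩ := (cloM_iff hV a).1 ha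
  obtain ⟨u', hu', rfl⟩ := (cloM_iff hV a').1 ha'
  exact h u hu u' hu'

omit [IsAlgClosed k] in
theorem line_polF {Q : Subgroup G} {Q' : MFam k (Fin (n + 1))} (hQ : ∀ g ∈ Q, Q' k g.1.1) {g : G}
    (h : Line d V χ Q g) : LineM d (cloM (V : Set G)) (polF χ) Q' g.1.1 := by
  obtain ⟨c, hc⟩ := h
  refine ⟨c, fun t => ?_⟩
  obtain ⟨v, hv, e, h1, h2⟩ := hc t
  rw [cr1, ← e]
  exact ⟨GlA_mem hv, hQ _ h1, h2⟩

/-- The additive character of the finite group. -/
noncomputable def lamHom (F : G →* G) (h : Addv V lam) :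
    ↥(V ⊓ F.eqLocus (MonoidHom.id G)) →* Multiplicative k :=
  MonoidHom.mk' (fun γ => Multiplicative.ofAdd (ev lam γ.1)) fun a b => h a.1 a.2.1 b.1 b.2.1

/-- Take the families cloM, F = polM φ, and the inclusion of V ⊓ F.eqLocus (MonoidHom.id G). -/
theorem exists_tup [Rl ↥(V ⊓ F.eqLocus (MonoidHom.id G))] (hp : Fb p k) (he : 0 < e)
    (hG : ZClosed (pts (Set.univ : Set G)))
    (hH : ZClosed (pts (V : Set G))) (hP : ∀ i, ZClosed (pts (P i : Set G)))
    (hGB : ZClosed {v | ∃ (g : G) (c : k), v = c • col g})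
    (hB : ∀ g : G, g ∈ B ↔ ∀ a, a ≠ 0 → col g a = 0)
    (hBt : ∀ g ∈ B, g.1.1.IsUpperTriangular) (hBP : ∀ i, B ≤ P i)
    (hBB : Finite (DoubleCoset.Quotient (B : Set G) B)) (hVB : V ≤ B)
    (hHc : (vanishingIdeal k (pts (V : Set G))).IsPrime)
    (hF : ∃ φ : Fin (n + 1) → Fin (n + 1) → MvPolynomial (Fin (n + 1) × Fin (n + 1)) k,
      ∀ (g : G) a b, (F g).1 a b = eval (fun c => g.1 c.1 c.2) (φ a b))
    (hFB : ∀ g ∈ B, F g ∈ B) (hFH : ∀ g ∈ V, F g ∈ V)
    (hFm : ∀ (g : G) a b, (F^[m] g).1 a b = g.1 a b ^ p ^ e) (hχ : Addv V χ) (hl : Addv V lam)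
    (hAS : ∀ v ∈ V, ev χ (F v) - ev χ v = ev lam v ^ p - ev lam v) {σ : G} (hσ : σ ∈ V)
    (hσF : F σ = σ) (hσl : ev lam σ ≠ 0) {Y : Finset G}
    (hY : ∀ i g, (∃ y ∈ Y, g ∈ DoubleCoset.doubleCoset y V (P i ⊓ prev F P i)) ∨
      Line d V χ (P i) g ∨ Line d V χ (prev F P i) g)
    (hZ : ∀ γ : ↥(V ⊓ F.eqLocus (MonoidHom.id G)), ev lam γ.1 = 0 → γ ∈ Rl.Z)
    (hm : 0 < Rl.m ↥(V ⊓ F.eqLocus (MonoidHom.id G))) :
    ∃ T : Tup k n l ↥(V ⊓ F.eqLocus (MonoidHom.id G)), T.p = p ∧ (∀ γ, T.γm γ = γ.1.1.1) ∧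
      (∀ g, T.G k g ↔ ∃ g' : G, g'.1.1 = g) ∧ (∀ i g, T.P i k g ↔ ∃ g' ∈ P i, g'.1.1 = g) ∧
      ∀ g : G, T.F k g.1.1 = (F g).1.1 := by
  obtain ⟨φ, hφ⟩ := hF
  have hB' := zclosed_B hG hB
  have gG : IsGrp (cloM (Set.univ : Set G)) := by
    have := grp_cloM (⊤ : Subgroup G) (by simpa using hG)
    simpa using this
  have gH := grp_cloM V hH
  have HG : (cloM (V : Set G)).Le (cloM Set.univ) := le_cloM (Set.subset_univ _)
  have hq := hp.one_lt he
  have iG : ∀ g, cloM (Set.univ : Set G) k g ↔ ∃ g' : G, g'.1.1 = g := fun g => by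
    rw [cloM_iff hG]
    simp only [Set.mem_univ, true_and]
  have mul : ∀ (Ω : Type) [Field Ω] [Algebra k Ω] g g', cloM (V : Set G) Ω g →
      cloM (V : Set G) Ω g' → polM φ Ω (g * g') = polM φ Ω g * polM φ Ω g' :=
    fun Ω _ _ g g' h h' => polM_mul hG hφ (HG _ _ h) (HG _ _ h')
  have mem : ∀ (Ω : Type) [Field Ω] [Algebra k Ω] g, cloM (V : Set G) Ω g →
      cloM (V : Set G) Ω (polM φ Ω g) := fun Ω _ _ g h => polM_mem hH hφ hFH h
  have it : ∀ (Ω : Type) [Field Ω] [Algebra k Ω] g, cloM (V : Set G) Ω g →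
      (polM φ Ω)^[m] g = fro (p ^ e) g := fun Ω _ _ g h => polM_iter hG hφ hFm (HG _ _ h)
  have LP := lang_LP gH (nat_polM φ) mul mem hq it
  have hI : (vanishingIdeal k {x | (cloM (V : Set G)).fam k x}).IsPrime := by
    have e : {x | (cloM (V : Set G)).fam k x} = pts (V : Set G) := by
      ext x
      refine (cloM_iff hH (mat x)).trans ⟨?_, ?_⟩
      · rintro ⟨g, hg, e⟩
        exact ⟨g, hg, congrArg um e⟩
      · rintro ⟨g, hg, rfl⟩
        exact ⟨g, hg, rfl⟩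
    rw [e]
    exact hHc
  let γm : ↥(V ⊓ F.eqLocus (MonoidHom.id G)) →* Matrix (Fin (n + 1)) (Fin (n + 1)) k :=
    { toFun := fun γ => γ.1.1.1, map_one' := rfl, map_mul' := fun _ _ => rfl }
  have hn : ∀ f : MvPolynomial (Fin (n + 1) × Fin (n + 1)) k, IsNatF (polF f) :=
    natF_aeval nat_id
  refine ⟨{ p := p, d := d, G := cloM Set.univ, B := cloM (B : Set G), V := cloM (V : Set G),
            P := fun i => cloM (P i : Set G), F := polM φ, γm := γm, χ := polF χ,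
            lam := polF lam, lγ := lamHom F hl, gG := gG,
            gB := grp_cloM B hB', gV := gH, gP := fun i => grp_cloM (P i) (hP i),
            BP := fun i => le_cloM (hBP i), PG := fun i => le_cloM (Set.subset_univ _),
            VB := le_cloM hVB, ut := ut_cloM hBt, nF := nat_polM φ,
            F_mul := fun Ω _ _ g g' h h' => polM_mul hG hφ h h',
            F_G := fun Ω _ _ g h => polM_mem hG hφ (fun _ _ => Set.mem_univ _) h,
            F_B := fun Ω _ _ g h => polM_mem hB' hφ hFB h, F_V := mem,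
            stab := fun Ω _ _ g h => stab_B hG hB h, cone := ?_, bru := ?_,
            γV := fun γ => (cloM_iff hH _).2 ⟨γ.1, γ.2.1, rfl⟩, γF := fun γ => ?_,
            LS := fun Ω _ _ _ η h => lang_LS gH (nat_polM φ) mem hI LP h, LP := LP, LF := ?_,
            nχ := hn χ, nl := hn lam, aχ := add_polF hH hχ, al := add_polF hH hl, AS := ?_,
            γl := fun _ => rfl, hZ := hZ, hm := hm, onto := fun c hc => ?_, HL := ?_ },
          rfl, fun _ => rfl, iG, fun i g => cloM_iff (hP i) g, polM_eq hφ⟩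
  · intro z hz
    have e : {w | ∃ g, ∃ c : k, cloM (Set.univ : Set G) k g ∧ w = c • fun a => g a 0} =
        {v | ∃ (g : G) (c : k), v = c • col g} := by
      ext w
      constructor
      · rintro ⟨g, c, hg, rfl⟩
        obtain ⟨g', rfl⟩ := (iG g).1 hg
        exact ⟨g', c, rfl⟩
      · rintro ⟨g, c, rfl⟩
        exact ⟨g.1.1, c, (iG _).2 ⟨g, rfl⟩, rfl⟩
    rw [e] at hz
    obtain ⟨g, c, rfl⟩ := hGB (a := z) hz
    exact ⟨g.1.1, c, (iG _).2 ⟨g, rfl⟩, rfl⟩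
  · classical
    have := Fintype.ofFinite (DoubleCoset.Quotient (B : Set G) B)
    refine ⟨Finset.univ.image fun c : DoubleCoset.Quotient (B : Set G) B => c.out.1.1, ?_, ?_⟩
    · intro y hy
      obtain ⟨c, -, rfl⟩ := Finset.mem_image.1 hy
      exact (iG _).2 ⟨_, rfl⟩
    · intro g hg
      obtain ⟨g, rfl⟩ := (iG g).1 hg
      obtain ⟨h, hh, b, hb, e⟩ := (DoubleCoset.eq B B (DoubleCoset.mk B B g).out g).1
        (DoubleCoset.out_eq' B B _)
      refine ⟨_, Finset.mem_image_of_mem _ (Finset.mem_univ (DoubleCoset.mk B B g)), h.1.1, b.1.1,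
        (cloM_iff hB' _).2 ⟨h, hh, rfl⟩, (cloM_iff hB' _).2 ⟨b, hb, rfl⟩, ?_⟩
      exact congrArg (fun x : G => x.1.1) e
  · exact (polM_eq hφ γ.1).trans (congrArg (fun x : G => x.1.1) γ.2.2)
  · intro Ω _ _ h hh e
    obtain ⟨h₀, h1, h2, rfl⟩ := lang_LF gH (nat_polM φ) hq it hh e
    obtain ⟨g, hg, rfl⟩ := (cloM_iff hH _).1 h1
    rw [polM_eq hφ] at h2
    exact ⟨⟨g, hg, Subtype.ext (Subtype.ext h2)⟩, rfl⟩
  · refine GlA_le (W := fun Ω _ _ g => polF χ Ω (um (polM φ Ω g)) - polF χ Ω (um g) =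
      polF lam Ω (um g) ^ p - polF lam Ω (um g)) (isCl_eq
        (natF_sub (natF_um (hn χ) ((nat_polM φ).app natV_mat')) (hn χ))
        (natF_sub (natF_pow (hn lam) p) (hn lam))) fun v hv => ?_
    rw [polM_eq hφ]
    exact hAS v hv
  · have := hp.char
    have := Fact.mk hp.prime
    have h1 := hAS σ hσ
    rw [hσF, sub_self, eq_comm, sub_eq_zero] at h1
    have h2 : c / ev lam σ ∈ (⊥ : Subfield k) :=
      (Subfield.mem_bot_iff_pow_eq_self k p).2 (by rw [div_pow, hc, h1])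
    obtain ⟨i, hi⟩ := (mem_bot_iff_intCast p k).1 h2
    refine ⟨⟨σ, hσ, hσF⟩ ^ i, ?_⟩
    rw [map_zpow, toAdd_zpow, zsmul_eq_mul, hi]
    exact div_mul_cancel₀ c hσl
  · classical
    have hp' : ∀ i, ∀ g ∈ prev F P i, prevM (cloM (Set.univ : Set G)) (polM φ)
        (fun i => cloM (P i : Set G)) i k g.1.1 := by
      intro i
      induction i using Fin.cases with
      | zero => exact fun g hg => ⟨GlA_mem (Set.mem_univ _), polM_eq hφ g ▸ GlA_mem hg⟩
      | succ i => exact fun g hg => GlA_mem hg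
    refine ⟨Y.image fun y => y.1.1, fun y hy => ?_, fun i g hg => ?_⟩
    · obtain ⟨c, -, rfl⟩ := Finset.mem_image.1 hy
      exact (iG _).2 ⟨_, rfl⟩
    obtain ⟨g, rfl⟩ := (iG g).1 hg
    refine (hY i g).imp ?_ (Or.imp (line_polF fun _ => GlA_mem) (line_polF (hp' i)))
    rintro ⟨y, hy, h⟩
    obtain ⟨r, hr, r', hr', rfl⟩ := DoubleCoset.mem_doubleCoset.1 h
    exact ⟨_, Finset.mem_image_of_mem _ hy, r.1.1, r'.1.1, GlA_mem hr,
      ⟨GlA_mem hr'.1, hp' i _ hr'.2⟩, rfl⟩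

omit [IsAlgClosed k] in
theorem eqs_eq {Γ : Type} [Group Γ] [Rl Γ] (T : Tup k n l Γ)
    (h1 : ∀ g, T.G k g ↔ ∃ g' : G, g'.1.1 = g)
    (h2 : ∀ i g, T.P i k g ↔ ∃ g' ∈ P i, g'.1.1 = g) (h3 : ∀ g : G, T.F k g.1.1 = (F g).1.1)
    (L : Type) [Field L] [Algebra k L] :
    eqs L F P = MvPolynomial.map (algebraMap k L) '' T.eqs := by
  have key : ∀ g : Fin (l + 1) → G, g ∈ DL F P ↔
      ∀ i, T.P i k ((g i).1.1.adjugate * shT (T.F k) (fun i => (g i).1.1) i) := by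
    intro g
    have e : ∀ i (x y : G), T.P i k (x.1.1.adjugate * y.1.1) ↔ x⁻¹ * y ∈ P i := by
      intro i x y
      rw [h2, ← inv_eq_adj]
      constructor
      · rintro ⟨g', h', e'⟩
        have : g' = x⁻¹ * y := Subtype.ext (Subtype.ext e')
        exact this ▸ h'
      · exact fun h => ⟨_, h, rfl⟩
    rw [Fin.forall_fin_succ']
    simp only [shT, Fin.lastCases_castSucc, Fin.lastCases_last, h3, e]
    rfl
  unfold eqs
  congr 1
  ext f
  refine and_congr_right fun _ => ⟨fun h g hg => ?_, fun h g hg => ?_⟩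
  · choose g' e using fun i => (h1 (g i)).1 (hg i).1
    obtain rfl : (fun i => (g' i).1.1) = g := funext e
    exact h g' ((key g').2 fun i => (hg i).2)
  · exact h (fun i => (g i).1.1) fun i => ⟨(h1 _).2 ⟨_, rfl⟩, (key g).1 hg i⟩

/-- By Tup.main and brg. -/
theorem main {Γ : Subgroup G} [Rl Γ] (T : Tup k n l Γ) (hp : Fb T.p k)
    (h0 : ∀ γ, T.γm γ = γ.1.1.1)
    (h1 : ∀ g, T.G k g ↔ ∃ g' : G, g'.1.1 = g) (h2 : ∀ i g, T.P i k g ↔ ∃ g' ∈ P i, g'.1.1 = g)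
    (h3 : ∀ g : G, T.F k g.1.1 = (F g).1.1) {Z : Set G} (hZ : ∀ γ ∈ (Rl.Z : Subgroup Γ), γ.1 ∈ Z)
    (L : Type) [Field L] [Algebra k L] (j : ℕ) :
    RatEq (eqs L F P) j ⊔ old k (eqs L F P) j ⊔ dif (eqs L F P) j (tw L l '' Z) ⊔
      nrm (eqs L F P) j (Rl.m Γ) (fun i => tw L l (Rl.s i : Γ).1) = ⊤ := by
  obtain ⟨ρ, hρ, hh, st, hv⟩ := T.main hp
  have h := brg hh st hv L j
  have e := eqs_eq (P := P) (F := F) T h1 h2 h3 L
  generalize eqs L F P = S at e ⊢
  subst e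
  simp only [hρ, h0] at h
  refine top_le_iff.1 (h ▸ sup_le_sup_right (sup_le_sup_left (Submodule.span_mono ?_) _) _)
  rintro z ⟨g, hg, h⟩
  exact ⟨_, ⟨g.1, hZ g hg, rfl⟩, h⟩

end Pool.Agent.MP_a9d3bd_s.W
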