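import Pool.Agent.MP_a9d3bd_w.CorrB
import Pool.Agent.MP_a9d3bd_s.Strat

/-! Open subsets and stratifications. -/

namespace Pool.Agent.MP_a9d3bd_s.W

open Function Matrix MvPolynomial Pool.Agent.MP_a9d3bd_q

variable {k σ Γ : Type} [Field k] [Group Γ] [Rl Γ] {S S' : Fam k σ} {A : Act k σ Γ}

/-- An admissible functional for S' is admissible for S. For x in S outside S', no
reduction of x lies in S' (dv_ak_le), and no translate (Act.Stab.iff). -/
theorem opn (st : A.Stab S')
    (op : ∀ (E E' : Type) [Field E] [Algebra k E] [Field E'] [Algebra k E'] (x : σ → E)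
      (x' : σ → E'), ak k x ≤ ak k x' → S E x → S' E' x' → S' E x)
    (le : ∀ (Ω : Type) [Field Ω] [Algebra k Ω] x, S' Ω x → S Ω x) (h : IVan S A) : IVan S' A := by
  intro L _ _ j Φ hΦ
  refine h L j Φ ⟨⟨hΦ.pre, ?_, ?_, hΦ.kd, ?_⟩, ?_⟩
  · intro E _ _ _ _ hE x hx
    exact hΦ.supp E hE x fun h' => hx (le E x h')
  · intro E _ _ _ _ hE x g hx hg
    by_cases hx' : S' E x
    · exact hΦ.rat E hE x g hx' hg
    · refine Strat_Da_zero g fun O hO => ?_
      let _ := kAlg k L O.K
      have := kTower k L O.K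
      exact hΦ.supp O.K (O.ff_K hE) _ fun h' => hx' (op E O.K x _ (dv_ak_le O hO) hx h')
  · intro g E _ _ _ _ hE x _
    by_cases hx' : S' E x
    · exact hΦ.inv g E hE x hx'
    · exact (hΦ.supp E hE _ fun h' => hx' ((st.iff g.1 x).1 h')).trans (hΦ.supp E hE x hx').symm
  · intro E _ _ _ _ hE x _
    by_cases hx' : S' E x
    · exact hΦ.nrm E hE x hx'
    · exact Finset.sum_eq_zero fun i _ => hΦ.supp E hE _ fun h' => hx' ((st.iff _ x).1 h')

/-- Fix an admissible Φ and show by strong induction on r l that it vanishes on W l: the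
functional that is Φ on ov L (W l) and 0 elsewhere is admissible for W l (dv_spec with
S₃ x := W l x ∨ ∃ l', r l' < r l ∧ W l' x). -/
theorem strat {Λ : Type} {W : Λ → Fam k σ} {r : Λ → ℕ} (hS : Ext S) (hW : ∀ l, Ext (W l))
    (st : ∀ l, A.Stab (W l))
    (le : ∀ l (Ω : Type) [Field Ω] [Algebra k Ω] [IsAlgClosed Ω] x, W l Ω x → S Ω x)
    (cov : ∀ (Ω : Type) [Field Ω] [Algebra k Ω] [IsAlgClosed Ω] x, S Ω x → ∃ l, W l Ω x)
    (ord : ∀ l l' (V : Plc k) (o : σ → V.O), W l V.Ω (V.gen o) → W l' V.κ (V.sp o) →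
      W l V.κ (V.sp o) ∨ r l' < r l) (h : ∀ l, IVan (W l) A) : IVan S A := by
  intro L _ _ j Φ hΦ
  have le' : ∀ l (E : Type) [Field E] [Algebra k E] (x : σ → E), W l E x → S E x :=
    fun l E _ _ x hx => (hW l).of_ac hS (le l) hx
  have key : ∀ n l, r l = n → ∀ (E : Type) [Field E] [Algebra L E] [Algebra k E]
      [IsScalarTower k L E], FF L E j → ∀ x : σ → E, W l E x → Φ E x = 0 := by
    intro n
    induction n using Nat.strong_induction_on with
    | _ n ih =>
      intro l hl E _ _ _ _ hE x hx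
      rw [← Strat_res_pos Φ hx]
      refine h l L j (Strat_res L (W l) Φ) 
        ⟨⟨Strat_res_pre (hW l) hΦ.pre, ?_, ?_, ?_, ?_⟩, ?_⟩ E hE x
      · intro E _ _ _ _ _ x hx
        exact Strat_res_neg Φ hx
      · intro E _ _ _ _ hE x g hx hg
        rw [← hΦ.rat E hE x g (le' l E x hx) hg]
        refine Strat_Da_congr g fun O hO => ?_
        let _ := kAlg k L O.K
        have := kTower k L O.K
        by_cases h1 : W l O.K (O.ra x)
        · exact Strat_res_pos Φ h1
        · rw [Strat_res_neg Φ h1]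
          by_cases h2 : S O.K (O.ra x)
          · have h3 : Ext (fun Ω _ _ x => W l Ω x ∨ ∃ l', r l' < r l ∧ W l' Ω x : Fam k σ) := by
              intro E E' _ _ _ _ x x' e hx
              rcases hx with hx | ⟨l', h', hx⟩
              · exact Or.inl (hW l E E' x x' e hx)
              · exact Or.inr ⟨l', h', hW l' E E' x x' e hx⟩
            have h4 := dv_spec O (hW l) hS h3 (fun V o a b => by
              obtain ⟨l', hl'⟩ := cov V.κ _ b
              rcases ord l l' V o a hl' with c | c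
              · exact Or.inl c
              · exact Or.inr ⟨l', c, hl'⟩) hx hO h2
            rcases h4 with c | ⟨l', c, hl'⟩
            · exact absurd c h1
            · exact (ih (r l') (hl ▸ c) l' rfl O.K (O.ff_K hE) _ hl').symm
          · exact (hΦ.supp O.K (O.ff_K hE) _ h2).symm
      · intro E _ _ _ _ hE x hx
        exact Strat_res_zero (hΦ.kd E hE x hx)
      · intro g E _ _ _ _ hE x hx
        exact (Strat_res_pos Φ (st l g.1 E x hx)).trans
          ((hΦ.inv g E hE x (le' l E x hx)).trans (Strat_res_pos Φ hx).symm)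
      · intro E _ _ _ _ hE x hx
        rw [← hΦ.nrm E hE x (le' l E x hx)]
        exact Finset.sum_congr rfl fun i _ => Strat_res_pos Φ (st l _ E x hx)
  intro E _ _ hE x
  let _ := kAlg k L E
  have := kTower k L E
  by_cases hx : S E x
  · have h3 : Ext (fun Ω _ _ x => ∃ l, W l Ω x : Fam k σ) := by
      intro E E' _ _ _ _ x x' e hx
      obtain ⟨l, hx⟩ := hx
      exact ⟨l, hW l E E' x x' e hx⟩
    obtain ⟨l, hl⟩ := hS.of_ac h3 cov hx
    exact key _ l rfl E hE x hl
  · exact hΦ.supp E hE x hx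

end Pool.Agent.MP_a9d3bd_s.W
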