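import Pool.Agent.MP_a9d3bd_w.CDefs
import Pool.Agent.MP_a9d3bd_s.TuB
import Pool.Agent.MP_a9d3bd_s.TuC

/-! The twisted Frobenius map of tuples. -/

namespace Pool.Agent.MP_a9d3bd_s.W

open Function Matrix MvPolynomial Pool.Agent.MP_a9d3bd_q

variable {k : Type} [Field k] {n l : ℕ}

variable {Γ : Type} [Group Γ] [Rl Γ] (T : Tup k n l Γ) {Ω : Type} [Field Ω] [Algebra k Ω]

theorem Tup.shF_mul {m m' : Matrix (TI n l) (TI n l) Ω} (h : piM (fun _ => T.G) Ω m)
    (h' : piM (fun _ => T.G) Ω m') :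
    shF l T.F Ω (m * m') = shF l T.F Ω m * shF l T.F Ω m' := by
  obtain ⟨g, rfl, hg⟩ := (piM_iff m).1 h
  obtain ⟨g', rfl, hg'⟩ := (piM_iff m').1 h'
  rw [bd_mul, shF_bd, shF_bd, shF_bd, bd_mul]
  congr 1
  funext i
  induction i using Fin.lastCases with
  | last => rw [TuB_last, TuB_last, TuB_last, T.F_mul Ω _ _ (hg 0) (hg' 0)]
  | cast i => rw [TuB_cast, TuB_cast, TuB_cast]

theorem Tup.shF_γ (γ : Γ) : shF l T.F k (bd fun _ => T.γm γ) = bd fun _ => T.γm γ := by
  rw [shF_bd]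
  congr 1
  funext i
  induction i using Fin.lastCases with
  | last => rw [TuB_last, T.γF]
  | cast i => rw [TuB_cast]

/-- Let π i be the product of the first i blocks of η. Solve h₀.adjugate * F h₀ = π last * η last
by T.LS and put h i = h₀ * π i. -/
theorem Tup.shF_LS [IsAlgClosed Ω] {η : Matrix (TI n l) (TI n l) Ω}
    (h : piM (fun _ => T.V) Ω η) :
    ∃ m, piM (fun _ => T.V) Ω m ∧ m.adjugate * shF l T.F Ω m = η := by
  obtain ⟨e, rfl, he⟩ := (piM_iff η).1 h
  obtain ⟨π, h0, hs⟩ := TuB_pi e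
  have hπ : ∀ i, T.V Ω (π i) := fun i => by
    induction i using Fin.induction with
    | zero => exact h0 ▸ T.gV.one Ω
    | succ i ih => exact hs i ▸ T.gV.mul Ω _ _ ih (he _)
  obtain ⟨h₀, m₀, e₀⟩ := T.LS Ω _ (T.gV.mul Ω _ _ (hπ (Fin.last l)) (he (Fin.last l)))
  have hm : ∀ i, T.V Ω (h₀ * π i) := fun i => T.gV.mul Ω _ _ m₀ (hπ i)
  have hd : ∀ i, (h₀ * π i).det = 1 := fun i => T.gV.det Ω _ (hm i)
  refine ⟨bd fun i => h₀ * π i, (piM_bd _).2 hm, ?_⟩
  rw [bd_adj hd, shF_bd, bd_mul]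
  congr 1
  funext i
  induction i using Fin.lastCases with
  | last =>
    rw [TuB_last, h0, Matrix.mul_one, ← mul_adj_cancel (T.gV.det Ω _ m₀) (T.F Ω h₀), e₀,
      ← Matrix.mul_assoc h₀, adj_mul_cancel (hd _)]
  | cast i => rw [TuB_cast, hs, ← Matrix.mul_assoc h₀, adj_mul_cancel (hd _)]

/-- The blocks satisfy h i.succ = h i.castSucc * η i.castSucc and F (h 0) = h last * η last;
so h i = h 0 * π i.castSucc, and T.LP applies to h 0. -/
theorem Tup.shF_LP (V : Plc k) (m : Matrix (TI n l) (TI n l) V.Ω)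
    (η : Matrix (TI n l) (TI n l) V.O) (h : piM (fun _ => T.V) V.Ω m)
    (e : m.adjugate * shF l T.F V.Ω m = η.map V.i) :
    ∃ m₀ : Matrix (TI n l) (TI n l) V.O, m₀.map V.i = m := by
  obtain ⟨g, rfl, hg⟩ := (piM_iff m).1 h
  have hd : ∀ i, (g i).det = 1 := fun i => T.gV.det _ _ (hg i)
  rw [bd_adj hd, shF_bd, bd_mul] at e
  have e' : ∀ i, shT (T.F V.Ω) g i = g i * (bl η i).map V.i := fun i => by
    rw [bl_map, ← e, bl_bd, mul_adj_cancel (hd i)]
  obtain ⟨π, h0, hs⟩ := TuB_pi (bl η)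
  have hπ : ∀ i, g i = g 0 * (π i).map V.i := fun i => by
    induction i using Fin.induction with
    | zero => rw [h0, one_map, Matrix.mul_one]
    | succ i ih => rw [← TuB_cast (T.F V.Ω) g, e', hs, mul_map, ← Matrix.mul_assoc, ← ih]
  obtain ⟨h₀, e₀⟩ := T.LP V (g 0) (π (Fin.last l) * bl η (Fin.last l)) (hg 0) (by
    rw [← TuB_last (T.F V.Ω) g, e', hπ (Fin.last l), Matrix.mul_assoc, adj_mul_cancel (hd 0),
      mul_map])
  refine ⟨bd fun i => h₀ * π i, ?_⟩
  rw [bd_map]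
  congr 1
  funext i
  rw [mul_map, e₀, ← hπ]

theorem Tup.shF_LF {m : Matrix (TI n l) (TI n l) Ω} (h : piM (fun _ => T.V) Ω m)
    (e : shF l T.F Ω m = m) : ∃ γ, m = cm Ω (bd fun _ => T.γm γ) := by
  obtain ⟨g, rfl, hg⟩ := (piM_iff m).1 h
  rw [shF_bd] at e
  have e' := bd_inj e
  have h0 : ∀ i, g i = g 0 := fun i => by
    induction i using Fin.induction with
    | zero => rfl
    | succ i ih => rw [← TuB_cast (T.F Ω) g, e', ih]
  obtain ⟨γ, hγ⟩ := T.LF Ω (g 0) (hg 0) (by rw [← TuB_last (T.F Ω) g, e', h0])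
  refine ⟨γ, ?_⟩
  rw [cm_bd]
  congr 1
  funext i
  rw [h0, hγ]

/-- If z = 0 take c = 0. Otherwise let z (e a) ≠ 0 with e = finFunctionFinEquiv. The
slices z i = fun b => z (e (update a i b)) lie in the closure of the cone (clo_map), so
z i = c i • col (g i). The identity z (e a) ^ l * z (e b) = ∏ i, z i (b i) holds on the set,
hence at z (clo_le). -/
theorem seg_cone (z : TN n l → k)
    (h : clo {w | ∃ g : Fin (l + 1) → Matrix (Fin (n + 1)) (Fin (n + 1)) k, ∃ c : k,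
      (∀ i, T.G k (g i)) ∧ w = c • seg g} k z) :
    ∃ g : Fin (l + 1) → Matrix (Fin (n + 1)) (Fin (n + 1)) k, ∃ c : k,
      (∀ i, T.G k (g i)) ∧ z = c • seg g := by
  by_cases hz : z = 0
  · exact ⟨fun _ => 1, 0, fun _ => T.gG.one k, by rw [hz, zero_smul]⟩
  obtain ⟨d, hd⟩ := Function.ne_iff.1 hz
  obtain ⟨a, rfl⟩ := finFunctionFinEquiv.surjective d
  have hd' : z (finFunctionFinEquiv a) ≠ 0 := hd
  have h1 : ∀ i : Fin (l + 1), ∃ g, ∃ c : k, T.G k g ∧
      (fun b => z (finFunctionFinEquiv (update a i b))) = c • fun b => g b 0 := by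
    intro i
    refine T.cone _ (clo_map (nat_proj fun b => finFunctionFinEquiv (update a i b)) ?_ h)
    rintro t ⟨g, c, hg, rfl⟩
    rw [← cv_self (fun b => (c • seg g) (finFunctionFinEquiv (update a i b)))]
    refine mem_clo ⟨g i, c * ∏ j ∈ Finset.univ.erase i, g j (a j) 0, hg i, funext fun b => ?_⟩
    simp only [seg, Equiv.symm_apply_apply, Pi.smul_apply, smul_eq_mul]
    rw [TuC_prod, mul_assoc]
  choose g c hg hc using h1
  have h2 : ∀ b : Fin (l + 1) → Fin (n + 1),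
      z (finFunctionFinEquiv a) ^ l * z (finFunctionFinEquiv b) =
        ∏ i, z (finFunctionFinEquiv (update a i (b i))) := by
    intro b
    refine clo_le (isCl_eq (natF_mul (natF_pow (natF_coord (finFunctionFinEquiv a)) l)
      (natF_coord (finFunctionFinEquiv b))) (natF_prod Finset.univ fun i =>
        natF_coord (finFunctionFinEquiv (update a i (b i))))) ?_ h
    rintro t ⟨g, c, _, rfl⟩
    simp only [seg, Equiv.symm_apply_apply, Pi.smul_apply, smul_eq_mul]
    rw [Finset.prod_mul_distrib, Finset.prod_const, Finset.card_univ, Fintype.card_fin,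
      TuC_prod2 (fun j x => g j x 0) a b]
    ring
  refine ⟨g, (∏ i, c i) / z (finFunctionFinEquiv a) ^ l, hg, funext fun d => ?_⟩
  obtain ⟨b, rfl⟩ := finFunctionFinEquiv.surjective d
  have h3 : ∀ i, z (finFunctionFinEquiv (update a i (b i))) = c i * g i (b i) 0 :=
    fun i => congrFun (hc i) (b i)
  have h4 := h2 b
  simp only [h3, Finset.prod_mul_distrib] at h4
  simp only [seg, Equiv.symm_apply_apply, Pi.smul_apply, smul_eq_mul]
  rw [div_mul_eq_mul_div, eq_div_iff (pow_ne_zero l hd'), ← h4, mul_comm]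

end Pool.Agent.MP_a9d3bd_s.W
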