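import Pool.Agent.MP_a9d3bd_w.TuB
import Pool.Agent.MP_a9d3bd_w.Crv
import Pool.Agent.MP_a9d3bd_w.TriAS

/-! The additive data and the curves of tuples. -/

namespace Pool.Agent.MP_a9d3bd_s.W

open Function Matrix MvPolynomial Pool.Agent.MP_a9d3bd_q

variable {k : Type} [Field k] {n l : ℕ}

section

variable {χ : PFun k (Fin (n + 1) × Fin (n + 1))} {R : Type} [CommRing R] [Algebra k R]

theorem sumF_bd (g : Fin (l + 1) → Matrix (Fin (n + 1)) (Fin (n + 1)) R) :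
    sumF l χ R (um (bd g)) = ∑ i, χ R (um (g i)) := by
  simp only [sumF, mat_um, bl_bd]

theorem fstF_bd (g : Fin (l + 1) → Matrix (Fin (n + 1)) (Fin (n + 1)) R) :
    fstF l χ R (um (bd g)) = χ R (um (g 0)) := by
  simp only [fstF, mat_um, bl_bd]

theorem nat_sumF (h : IsNatF χ) : IsNatF (sumF l χ) :=
  natF_sum Finset.univ fun i => natF_comp h (nat_um (natV_bl natV_mat' i))

theorem nat_fstF (h : IsNatF χ) : IsNatF (fstF l χ) :=
  natF_comp h (nat_um (natV_bl natV_mat' 0))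

theorem add_sumF {V : MFam k (Fin (n + 1))} (h : AddOn V χ) :
    AddOn (piM fun _ : Fin (l + 1) => V) (sumF l χ) := by
  intro Ω _ _ m m' hm hm'
  obtain ⟨g, rfl, hg⟩ := (piM_iff m).1 hm
  obtain ⟨g', rfl, hg'⟩ := (piM_iff m').1 hm'
  rw [bd_mul, sumF_bd, sumF_bd, sumF_bd, ← Finset.sum_add_distrib]
  exact Finset.sum_congr rfl fun i _ => h Ω _ _ (hg i) (hg' i)

theorem add_fstF {V : MFam k (Fin (n + 1))} (h : AddOn V χ) :
    AddOn (piM fun _ : Fin (l + 1) => V) (fstF l χ) := by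
  intro Ω _ _ m m' hm hm'
  obtain ⟨g, rfl, hg⟩ := (piM_iff m).1 hm
  obtain ⟨g', rfl, hg'⟩ := (piM_iff m').1 hm'
  rw [bd_mul, fstF_bd, fstF_bd, fstF_bd]
  exact h Ω _ _ (hg 0) (hg' 0)

theorem cr1_bd {d : ℕ} (i : Fin (l + 1)) (c : Fin d → Matrix (Fin (n + 1)) (Fin (n + 1)) R)
    (t : R) : cr1 (fun j => bd (update 0 i (c j))) t = bd (update (fun _ => 1) i (cr1 c t)) := by
  rw [cr1, ← bd_one]
  ext ⟨a, i₁⟩ ⟨b, i₂⟩
  have hb : ∀ g : Fin (l + 1) → Matrix (Fin (n + 1)) (Fin (n + 1)) R,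
      bd g (a, i₁) (b, i₂) = blockDiagonal g (a, i₁) (b, i₂) := fun _ => rfl
  rw [Matrix.add_apply, Matrix.sum_apply]
  simp only [Matrix.smul_apply, hb]
  by_cases e : i₁ = i₂
  · subst e
    simp only [blockDiagonal_apply_eq]
    by_cases e' : i₁ = i
    · subst e'
      simp [cr1, Matrix.sum_apply]
    · simp [update_of_ne e']
  · simp [blockDiagonal_apply_ne _ _ _ e]

end

variable {Γ : Type} [Group Γ] [Rl Γ] (T : Tup k n l Γ) {Ω : Type} [Field Ω] [Algebra k Ω]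

/-- The previous members of the chain. -/
abbrev Tup.Pv : Fin (l + 1) → MFam k (Fin (n + 1)) := prevM T.G T.F T.P

theorem Tup.gPv (i : Fin (l + 1)) : IsGrp (T.Pv i) := by
  induction i using Fin.cases with
  | zero => exact grp_preM T.gG (T.gP _) T.nF T.F_mul T.F_G
  | succ i => exact T.gP _

theorem Tup.BPv (i : Fin (l + 1)) : T.B.Le (T.Pv i) := by
  induction i using Fin.cases with
  | zero => exact fun Ω _ _ m h => ⟨T.PG 0 Ω m (T.BP 0 Ω m h), T.BP _ Ω _ (T.F_B Ω m h)⟩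
  | succ i => exact T.BP _

theorem Tup.shF_Pv {m : Matrix (TI n l) (TI n l) Ω} (h : piM T.Pv Ω m) :
    piM T.P Ω (shF l T.F Ω m) := by
  rw [shF, piM_bd]
  intro i
  induction i using Fin.lastCases with
  | last => exact TuB_last (T.F Ω) (bl m) ▸ (h.2 0).2
  | cast i => exact TuB_cast (T.F Ω) (bl m) i ▸ h.2 i.succ

theorem Tup.bruK (i : Fin (l + 1)) : FinDC (inM (T.P i) (T.Pv i)) T.B T.B := by
  classical
  obtain ⟨Y, -, h⟩ := T.bru
  have gK := (T.gP i).inter (T.gPv i)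
  have BK : ∀ m, T.B k m → inM (T.P i) (T.Pv i) k m := fun m h => ⟨T.BP i k m h, T.BPv i k m h⟩
  refine ⟨Y.filter fun y => inM (T.P i) (T.Pv i) k y, fun y hy => (Finset.mem_filter.1 hy).2,
    fun g hg => ?_⟩
  obtain ⟨y, hy, r, r', hr, hr', rfl⟩ := h g (T.PG i k g hg.1)
  refine ⟨y, Finset.mem_filter.2 ⟨hy, ?_⟩, r, r', hr, hr', rfl⟩
  exact (gK.mul_iff_left (BK r hr) y).1 ((gK.mul_iff_right (BK r' hr') _).1 hg)

theorem Tup.shF_AS {m : Matrix (TI n l) (TI n l) Ω} (h : piM (fun _ => T.V) Ω m) :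
    sumF l T.χ Ω (um (shF l T.F Ω m)) - sumF l T.χ Ω (um m) =
      fstF l T.lam Ω (um m) ^ T.p - fstF l T.lam Ω (um m) := by
  obtain ⟨g, rfl, hg⟩ := (piM_iff m).1 h
  rw [shF_bd, sumF_bd, sumF_bd, fstF_bd, Fin.sum_univ_castSucc, Fin.sum_univ_succ, TuB_last,
    ← T.AS Ω _ (hg 0)]
  simp only [TuB_cast]
  ring

theorem Tup.line {Q : Fin (l + 1) → MFam k (Fin (n + 1))} (hQ : ∀ i, IsGrp (Q i))
    {g : Fin (l + 1) → Matrix (Fin (n + 1)) (Fin (n + 1)) k} (hg : ∀ i, T.G k (g i))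
    {i : Fin (l + 1)} (h : LineM T.d T.V T.χ (Q i) (g i)) :
    LineM T.d (piM fun _ => T.V) (sumF l T.χ) (piM Q) (bd g) := by
  obtain ⟨c, hc⟩ := h
  have hd : ∀ j, (g j).det = 1 := fun j => T.gG.det k _ (hg j)
  refine ⟨fun j => bd (update 0 i (c j)), fun t => ?_⟩
  rw [cr1_bd, bd_adj hd, bd_mul, bd_mul, piM_bd, piM_bd, sumF_bd]
  refine ⟨fun j => ?_, fun j => ?_, ?_⟩
  · by_cases e : j = i
    · subst e
      rw [update_self]
      exact (hc t).1
    · rw [update_of_ne e]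
      exact T.gV.one k
  · by_cases e : j = i
    · subst e
      rw [update_self]
      exact (hc t).2.1
    · rw [update_of_ne e, Matrix.mul_one, adj_mul_self (hd j)]
      exact (hQ j).one k
  · rw [Finset.sum_eq_single i, update_self, (hc t).2.2]
    · intro j _ e
      rw [update_of_ne e, T.aχ.one T.gV]
    · simp

theorem Tup.bigHL : ∃ Y : Finset (Matrix (TI n l) (TI n l) k),
    (∀ y ∈ Y, piM (fun _ => T.G) k y) ∧ ∀ g, piM (fun _ => T.G) k g →
      (∃ y ∈ Y, ∃ r r', piM (fun _ => T.V) k r ∧ piM (fun i => inM (T.P i) (T.Pv i)) k r' ∧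
        g = r * y * r') ∨
      ∃ c, LTF (piM fun _ => T.G) (piM fun _ => T.V) (piM T.P) (shF l T.F) (sumF l T.χ) T.d k
        (Sum.elim (um g) c) := by
  classical
  obtain ⟨Y, hY, h⟩ := T.HL
  refine ⟨(Fintype.piFinset fun _ => Y).image bd, fun y hy => ?_, fun m hm => ?_⟩
  · obtain ⟨z, hz, rfl⟩ := Finset.mem_image.1 hy
    exact (piM_bd z).2 fun i => hY _ (Fintype.mem_piFinset.1 hz i)
  obtain ⟨g, rfl, hg⟩ := (piM_iff m).1 hm
  have gV := grp_piM fun _ : Fin (l + 1) => T.gV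
  have hd := (grp_piM fun _ : Fin (l + 1) => T.gG).det k _ hm
  have h0 := (add_sumF (l := l) T.aχ).one gV k
  by_cases h1 : ∃ i, LineM T.d T.V T.χ (T.P i) (g i)
  · obtain ⟨i, hi⟩ := h1
    obtain ⟨c, hc⟩ := T.line T.gP hg hi
    refine Or.inr ⟨fun s => if s.1.1 then 0 else c s.1.2 s.2.1 s.2.2, hm, fun t => ?_⟩
    change LnAt _ _ _ _ k (bd g) (fun s => if s.1.1 then 0 else c s.1.2 s.2.1 s.2.2) t
    have e1 : crv (fun s : CI (TI n l) T.d => if s.1.1 then 0 else c s.1.2 s.2.1 s.2.2) false t =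
      cr1 c t := rfl
    have e2 : crv (fun s : CI (TI n l) T.d => if s.1.1 then 0 else c s.1.2 s.2.1 s.2.2) true t =
      1 := cr1_const t
    rw [LnAt, e1, e2, h0, add_zero, Matrix.mul_one, adj_mul_self hd]
    exact ⟨(hc t).1, gV.one k, (hc t).2.1, T.shF_Pv ((grp_piM T.gPv).one k), (hc t).2.2⟩
  by_cases h2 : ∃ i, LineM T.d T.V T.χ (T.Pv i) (g i)
  · obtain ⟨i, hi⟩ := h2
    obtain ⟨c, hc⟩ := T.line T.gPv hg hi
    refine Or.inr ⟨fun s => if s.1.1 then c s.1.2 s.2.1 s.2.2 else 0, hm, fun t => ?_⟩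
    change LnAt _ _ _ _ k (bd g) (fun s => if s.1.1 then c s.1.2 s.2.1 s.2.2 else 0) t
    have e1 : crv (fun s : CI (TI n l) T.d => if s.1.1 then c s.1.2 s.2.1 s.2.2 else 0) true t =
      cr1 c t := rfl
    have e2 : crv (fun s : CI (TI n l) T.d => if s.1.1 then c s.1.2 s.2.1 s.2.2 else 0) false t =
      1 := cr1_const t
    rw [LnAt, e1, e2, h0, zero_add, Matrix.mul_one, adj_mul_self hd]
    exact ⟨gV.one k, (hc t).1, (grp_piM T.gP).one k, T.shF_Pv (hc t).2.1, (hc t).2.2⟩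
  choose y hy r r' hr hr' e using fun i => ((h i _ (hg i)).resolve_right fun a =>
    a.elim (fun b => h1 ⟨i, b⟩) fun b => h2 ⟨i, b⟩)
  refine Or.inl ⟨bd y, Finset.mem_image_of_mem _ (Fintype.mem_piFinset.2 hy), bd r, bd r',
    (piM_bd r).2 hr, (piM_bd r').2 hr', ?_⟩
  rw [bd_mul, bd_mul]
  exact congrArg bd (funext e)

end Pool.Agent.MP_a9d3bd_s.W
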