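import Pool.Agent.MP_a9d3bd_w.TuE
import Pool.Agent.MP_a9d3bd_w.CoZ

/-! The main theorem for tuples. -/

namespace Pool.Agent.MP_a9d3bd_s.W

open Function Matrix MvPolynomial Pool.Agent.MP_a9d3bd_q

variable {k : Type} [Field k] {n l : ℕ}

variable [IsAlgClosed k] {Γ : Type} [Group Γ] [Rl Γ] (T : Tup k n l Γ)

omit [IsAlgClosed k] in
/-- Take the products piM, F = shF l T.F, α = tα k n l, v = tv k n l. -/
theorem Tup.exists_core : ∃ C : Core k (TI n l) (TN n l) Γ, C.p = T.p ∧ C.eqs = T.eqs ∧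
    ∀ γ, C.ρ γ = tens fun _ => T.γm γ := by
  obtain ⟨γm, hγ⟩ := exists_bdHom l T.γm
  obtain ⟨ρ, hρ⟩ := exists_tensHom l T.γm
  have hpt : ∀ g : Fin (l + 1) → Matrix (Fin (n + 1)) (Fin (n + 1)) k,
      tα k n l k (bd g) *ᵥ tv k n l = seg g := fun g => by
    rw [tα_bd, ← tens_tv (k := k), cv_self]
  refine ⟨{ p := T.p, d := T.d, G := piM fun _ => T.G, B := piM fun _ => T.B,
            V := piM fun _ => T.V, P := piM T.P, K := piM fun i => inM (T.P i) (T.Pv i),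
            F := shF l T.F, α := tα k n l, v := tv k n l, n₀ := finFunctionFinEquiv 0, γm := γm,
            ρ := ρ, χ := sumF l T.χ, lam := fstF l T.lam, lγ := T.lγ,
            gG := grp_piM fun _ => T.gG, gB := grp_piM fun _ => T.gB,
            gV := grp_piM fun _ => T.gV, gP := grp_piM T.gP,
            gK := grp_piM fun i => (T.gP i).inter (T.gPv i), BP := le_piM T.BP,
            PG := le_piM T.PG, VB := le_piM fun _ => T.VB,
            BK := le_piM fun i Ω _ _ m h => ⟨T.BP i Ω m h, T.BPv i Ω m h⟩,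
            KP := le_piM fun i Ω _ _ m h => h.1,
            KF := fun Ω _ _ g h => T.shF_Pv (le_piM (fun i Ω _ _ m h => h.2) Ω g h),
            ut := ut_piM fun _ => T.ut, nF := nat_shF T.nF, nα := nat_tα, v₀ := tv_zero,
            F_mul := fun Ω _ _ g g' h h' => T.shF_mul h h',
            F_G := fun Ω _ _ g h => shF_mem (T.F_G Ω) h,
            F_B := fun Ω _ _ g h => shF_mem (T.F_B Ω) h,
            F_V := fun Ω _ _ g h => shF_mem (T.F_V Ω) h, α_mul := ?_,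
            α_one := fun Ω _ _ => tα_one, stab := ?_, cone := ?_, bru := ?_,
            γV := fun γ => ?_, γF := fun γ => ?_,
            γρ := fun γ => ?_, LS := fun Ω _ _ _ η h => T.shF_LS h, LP := T.shF_LP, LF := ?_,
            nχ := nat_sumF T.nχ, nl := nat_fstF T.nl, aχ := add_sumF T.aχ, al := add_fstF T.al,
            AS := fun Ω _ _ g h => T.shF_AS h, γl := fun γ => ?_, hZ := T.hZ, hm := T.hm,
            onto := T.onto, HL := T.bigHL }, rfl, ?_, hρ⟩
  · intro Ω _ _ g g' h h'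
    obtain ⟨g, rfl, -⟩ := (piM_iff _).1 h
    obtain ⟨g', rfl, -⟩ := (piM_iff _).1 h'
    rw [bd_mul, tα_bd, tα_bd, tα_bd, tens_mul]
  · intro Ω _ _ g h
    obtain ⟨g, rfl, h'⟩ := (piM_iff _).1 h
    rw [piM_bd, tα_bd, tens_tv, ← seg_stab fun i => T.gG.det _ _ (h' i)]
    exact forall_congr' fun i => T.stab Ω _ (h' i)
  · intro z hz
    have e : {w | ∃ g, ∃ c : k, piM (fun _ : Fin (l + 1) => T.G) k g ∧
        w = c • (tα k n l k g *ᵥ tv k n l)} =
        {w | ∃ g : Fin (l + 1) → Matrix (Fin (n + 1)) (Fin (n + 1)) k, ∃ c : k,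
          (∀ i, T.G k (g i)) ∧ w = c • seg g} := by
      ext w
      constructor
      · rintro ⟨g, c, h, rfl⟩
        obtain ⟨g, rfl, h'⟩ := (piM_iff _).1 h
        exact ⟨g, c, h', by rw [hpt]⟩
      · rintro ⟨g, c, h, rfl⟩
        exact ⟨bd g, c, (piM_bd _).2 h, by rw [hpt]⟩
    rw [e] at hz
    obtain ⟨g, c, h, rfl⟩ := seg_cone T z hz
    exact ⟨bd g, c, (piM_bd _).2 h, by rw [hpt]⟩
  · exact finDC_piM T.bruK
  · rw [hγ, piM_bd]
    exact fun _ => T.γV γ
  · rw [hγ, T.shF_γ]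
  · rw [hγ, hρ, tα_bd]
  · intro Ω _ _ h hh e
    obtain ⟨γ, e⟩ := T.shF_LF hh e
    exact ⟨γ, by rw [hγ, e]⟩
  · rw [hγ, fstF_bd, T.γl]
  · ext f
    refine and_congr_right fun _ => ⟨fun h g hg => ?_, fun h g hg => ?_⟩
    · have h1 := h (bd g) ⟨(piM_bd _).2 fun i => (hg i).1, by
        change piM T.P k ((bd g).adjugate * shF l T.F k (bd g))
        rw [bd_adj fun i => T.gG.det _ _ (hg i).1, shF_bd, bd_mul, piM_bd]
        exact fun i => (hg i).2⟩
      change eval (tα k n l k (bd g) *ᵥ cv k (tv k n l)) f = 0 at h1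
      rwa [cv_self, hpt] at h1
    · obtain ⟨g, rfl, h1⟩ := (piM_iff _).1 hg.1
      have h2 : piM T.P k ((bd g).adjugate * shF l T.F k (bd g)) := hg.2
      rw [bd_adj fun i => T.gG.det _ _ (h1 i), shF_bd, bd_mul, piM_bd] at h2
      change eval (tα k n l k (bd g) *ᵥ cv k (tv k n l)) f = 0
      rw [cv_self, hpt]
      exact h g fun i => ⟨h1 i, h2 i⟩

theorem Tup.main (hp : Fb T.p k) : ∃ ρ : Γ →* Matrix (TN n l) (TN n l) k,
    (∀ γ, ρ γ = tens fun _ => T.γm γ) ∧ Homog T.eqs ∧ (Act.lin ρ).Stab (coneS T.eqs) ∧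
      PVan T.eqs (Act.lin ρ) := by
  obtain ⟨C, e', e, h⟩ := T.exists_core
  exact ⟨C.ρ, h, e ▸ C.homog, e ▸ C.xc_stab, e ▸ C.main (e' ▸ hp)⟩

end Pool.Agent.MP_a9d3bd_s.W
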