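import Pool.Agent.MP_a9d3bd_w.Strat
import Pool.Agent.MP_a9d3bd_s.Up

/-! Homotopy invariance. -/

namespace Pool.Agent.MP_a9d3bd_s.W

open Function Matrix MvPolynomial Pool.Agent.MP_a9d3bd_q

variable {k σ Γ : Type} [Field k] [Group Γ] [Rl Γ] [Finite σ] {Y S : Fam k σ} {A : Act k σ Γ}

theorem adm_upR {L : Type} [Field L] [Algebra k L] {j : ℕ} (hY : Ext Y) {Φ : Raw L (Option σ)}
    (h : AdmF L (j + 1) (optF Y) A.opt Φ) : AdmF L j Y A (upR Φ) := by
  refine ⟨MP_a9d3bd_s.adm_upR (A := resA A Rl.Z) hY h.toAdmF, fun E _ _ _ _ hE y hy => ?_⟩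
  have := h.nrm _ (ff_ratFunc hE) (oext (fun s => cst L E (y s)) RatFunc.X)
    ((hY.mapL (cst L E) y).2 hy)
  refine Eq.trans (Finset.sum_congr rfl fun i _ => ?_) this
  rw [upR, ← nat_mapL (A.nat _) (cst L E) y]
  rfl

theorem Up_low {L : Type} [Field L] [Algebra k L] {j : ℕ} {Φ : Raw L (Option σ)} (hY : Ext Y)
    (h : IVan Y A) (hΦ : AdmF L j (optF Y) A.opt Φ) {E : Type} [Field E] [Algebra L E]
    (hE : FF L E j) (y : σ → E) (u : E) (hy : td L (af L y) < j) : Φ E (oext y u) = 0 := by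
  cases j with
  | zero => omega
  | succ j =>
    exact up_vert hΦ.pre (fun E _ _ hE y => h L j _ (adm_upR hY hΦ) E hE y) hE y u (by omega)

theorem Up_main {L : Type} [Field L] [Algebra k L] {j : ℕ} {Φ : Raw L (Option σ)} (hY : Ext Y)
    (h : IVan Y A) (hΦ : AdmF L j (optF Y) A.opt Φ) {E : Type} [Field E] [Algebra L E]
    [Algebra k E] [IsScalarTower k L E] (hE : FF L E j) (y : σ → E) (u : E) :
    Φ E (oext y u) = 0 := by
  by_cases hy : Y E y
  swap
  · exact hΦ.supp E hE _ hy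
  obtain ⟨O, hO, h1, h2, h3, h4, h5⟩ := ratpt hE u
  have hM := ff_ratFunc hE
  have hr := hΦ.rat (RatFunc E) hM (oext (fun s => cst L E (y s)) RatFunc.X)
    (RatFunc.X - cst L E u) ((hY.mapL (cst L E) y).2 hy) (fun e => by
      rw [e, DV.ord_zero] at h1
      exact zero_ne_one h1)
  rw [Da, finsum_eq_single _ O, if_pos ((O.int_oext _ _).2 ⟨fun s => hO _, h3⟩), h1, O.ra_oext,
    O.ra_in _ hO, h4, ← oext_map (O.homIn (cst L E) hO), hΦ.pre.ext E _ hE (O.ff_K hM), h2] at hr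
  · simpa using hr
  intro O' hne
  split_ifs with hi
  swap
  · rfl
  by_cases hc : ∀ z, cst L E z ∈ O'.O
  · have h6 := (O'.ord_nonneg_iff _).2 (sub_mem ((O'.int_oext _ _).1 hi).2 (hc u))
    rw [(h6.lt_or_eq.resolve_left fun h7 => hne (h5 O' hc h7)).symm, Int.cast_zero, zero_mul]
  · rw [O'.ra_oext, Up_low hY h hΦ (O'.ff_K hM), mul_zero]
    exact (tr_td_mono (O'.ff_K hM).tr ((af_le_iff _ _).2 fun s => res_mem_rf _ O' _)).trans_lt
      (vert_lt hE hM _ O' (not_forall.1 hc))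

/-- Let Φ be admissible in dimension j. First, Φ E (oext y u) = 0 if td L (af L y) < j
(adm_upR, up_vert; nothing to show for j = 0). For y in Y use rat for the point
oext (cst y) X over RatFunc E and the function X - cst u: valuations that do not contain E
contribute 0 by vert_lt and the first step; among the others only that of ratpt counts. -/
theorem up (hY : Ext Y) (h : IVan Y A) : IVan (optF Y) A.opt := by
  intro L _ _ j Φ hΦ E _ _ hE x
  let := kAlg k L E
  have := kTower k L E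
  rw [← oext_eta x]
  exact Up_main hY h hΦ hE _ _

/-- By opn. -/
theorem up_ne (hY : Ext Y) (st : A.Stab Y) (h : IVan Y A) : IVan (optN Y) A.opt :=
  opn (stab_optN st) (fun _ _ _ _ _ _ _ _ hx h1 h2 =>
    ⟨h1, fun e => h2.2 (natF_zero (natF_coord none) hx e)⟩) (fun _ _ _ _ hx => hx.1) (up hY h)

/-- By iso with z ↦ update (z ∘ some) i (z none) and x ↦ oext (update x i c) (x i). -/
theorem up_cyl [DecidableEq σ] (i : σ) (c : k) (ne : Prop) (hY : Ext Y) (hS : Ext S)
    (st : A.Stab Y)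
    (h0 : ∀ (Ω : Type) [Field Ω] [Algebra k Ω] [IsAlgClosed Ω] y, Y Ω y → y i = algebraMap k Ω c)
    (e : ∀ (Ω : Type) [Field Ω] [Algebra k Ω] [IsAlgClosed Ω] x,
      S Ω x ↔ Y Ω (update x i (algebraMap k Ω c)) ∧ (ne → x i ≠ 0))
    (hA : ∀ g (Ω : Type) [Field Ω] [Algebra k Ω] x u,
      A.a g Ω (update x i u) = update (A.a g Ω x) i u) (h : IVan Y A) : IVan S A := by
  have hT : IVan (fun Ω _ _ z => optF Y Ω z ∧ (ne → z none ≠ 0) : Fam k (Option σ)) A.opt ∧
      Ext (fun Ω _ _ z => optF Y Ω z ∧ (ne → z none ≠ 0) : Fam k (Option σ)) := by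
    by_cases hn : ne
    · simp only [hn, forall_const]
      exact ⟨up_ne hY st h, ext_optN hY⟩
    · simp only [hn, false_imp_iff, and_true]
      exact ⟨up hY h, ext_optF hY⟩
  have hu : ∀ (Ω : Type) [Field Ω] [Algebra k Ω] [IsAlgClosed Ω] y u, Y Ω y →
      update (update y i u) i (algebraMap k Ω c) = y := by
    intro Ω _ _ _ y u hy
    rw [update_idem, ← h0 Ω y hy, update_eq_self]
  refine iso (a := fun _ _ _ z => update (fun s => z (some s)) i (z none))
    (b := fun R _ _ x => oext (update x i (algebraMap k R c)) (x i)) hT.2 hS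
    (nat_update (nat_proj some) i (natF_coord none))
    (nat_oext (nat_update nat_id i (natF_const c)) (natF_coord i))
    (fun Ω _ _ _ t ht => ?_) (fun Ω _ _ _ x hx => ?_) (fun g Ω _ _ _ t ht => ?_) hT.1
  · rw [e, hu Ω _ _ ht.1, update_self]
    exact ⟨ht, oext_eta t⟩
  · refine ⟨(e Ω x).1 hx, ?_⟩
    change update (update x i _) i (x i) = x
    rw [update_idem, update_eq_self]
  · exact ⟨⟨st g Ω _ ht.1, ht.2⟩, (hA g Ω _ _).symm⟩

end Pool.Agent.MP_a9d3bd_s.W
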