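import Pool.Agent.MP_a9d3bd_w.CoO
import Pool.Agent.MP_a9d3bd_s.Spec
import Pool.Agent.MP_a9d3bd_q.A2

/-! The cone over the variety. -/

namespace Pool.Agent.MP_a9d3bd_s.W

open Function Matrix MvPolynomial Pool.Agent.MP_a9d3bd_q

variable {k ι N Γ : Type} [Field k] [Fintype ι] [DecidableEq ι] [LinearOrder ι] [Fintype N]
  [DecidableEq N] [Group Γ] [Rl Γ] (C : Core k ι N Γ)

theorem XCl_nat : IsNat (fun _ _ _ t => t none • C.pt (mat fun c => t (some c)) :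
    PMap k (Option (ι × ι)) N) :=
  nat_smul (natF_coord none) (C.nat_pt (natV_mat (nat_proj some)))

theorem XCl_ne {σ E E' : Type} [Field E] [Algebra k E] [Field E'] [Algebra k E'] {x : σ → E}
    {x' : σ → E'} (h : ak k x ≤ ak k x') (h0 : x' ≠ 0) : x ≠ 0 := by
  rintro rfl
  apply h0
  funext s
  have := (ak_le_iff (k := k) (0 : σ → E) x').1 h (X s) (by simp)
  simpa using this

theorem XCl_set (M : MFam k ι) :
    {w | ∃ t, optF M.fam k t ∧ w = t none • C.pt (mat fun c => t (some c))} =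
      {w | ∃ g, ∃ c : k, M k g ∧ w = c • (C.α k g *ᵥ C.v)} := by
  ext w
  constructor
  · rintro ⟨t, ht, rfl⟩
    exact ⟨_, t none, ht, by rw [Core.pt, cv_self]⟩
  · rintro ⟨g, c, hg, rfl⟩
    exact ⟨oext (um g) c, hg, by rw [Core.pt, cv_self]; rfl⟩

theorem XCl_comp {σ : Type} [Infinite k] (f : MvPolynomial σ k) (x : σ → k)
    (h : ∀ c : k, aeval (c • x) f = 0) (d : ℕ) : aeval x (homogeneousComponent d f) = 0 := by
  classical
  by_cases hd : f.totalDegree < d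
  · rw [homogeneousComponent_eq_zero d f hd, map_zero]
  have h1 : (∑ e ∈ Finset.range (f.totalDegree + 1),
      Polynomial.monomial e (aeval x (homogeneousComponent e f))) = (0 : Polynomial k) := by
    apply Polynomial.funext
    intro c
    rw [Polynomial.eval_finsetSum, Polynomial.eval_zero]
    have h2 := h c
    rw [← sum_homogeneousComponent f, map_sum] at h2
    rw [← h2]
    refine Finset.sum_congr rfl fun e _ => ?_
    rw [Polynomial.eval_monomial, aeval_smul_hom (homogeneousComponent_isHomogeneous e f), mul_comm]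
  have h3 := congrArg (fun P : Polynomial k => P.coeff d) h1
  simp only [Polynomial.finsetSum_coeff, Polynomial.coeff_monomial, Polynomial.coeff_zero,
    Finset.sum_ite_eq', Finset.mem_range] at h3
  rwa [if_pos (by omega)] at h3

theorem XCl_lin (γ : Γ) {Ω : Type} [Field Ω] [Algebra k Ω] (c : Ω) (z : N → Ω) :
    (Act.lin C.ρ).a γ Ω (c • z) = c • (Act.lin C.ρ).a γ Ω z :=
  Matrix.mulVec_smul _ _ _

variable [IsAlgClosed k]

/-- Let Orb be from orbC for M = C.G and y = 1. The reduction of o is a non-zero point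
of the closure of the cone (im_clo, Plc.cl_sp), so it lies in Orb by cover and C.cone. -/
theorem Core.hl_G (V : Plc k) {o : N → V.O} {g : Matrix ι ι V.Ω} {c : V.Ω} (hg : C.G V.Ω g)
    (ho : V.gen o = c • C.pt g) (h0 : V.sp o ≠ 0) :
    ∃ (g₀ : Matrix ι ι V.O) (c₀ : V.O), C.G V.Ω (g₀.map V.i) ∧ IsUnit c₀ ∧ o = c₀ • C.pt g₀ := by
  obtain ⟨Orb, r, hO, -⟩ := C.orbC C.gG (fun _ _ _ _ h => h) (fun _ : Unit => 1)
    fun _ => C.gG.one k
  have hO' := hO ()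
  have hc : c ≠ 0 := by
    rintro rfl
    rw [zero_smul] at ho
    exact XCl_ne (V.ak_le o) h0 ho
  have h1 : Orb () V.Ω (V.gen o) :=
    (hO'.iff V.Ω _).2 ⟨g, c, hg, hc, by rw [cm_one, Matrix.mul_one, ho]⟩
  have h2 : clo {w | ∃ t, optF C.G.fam k t ∧ w = t none • C.pt (mat fun c => t (some c))} V.Ω
      (V.gen o) := by
    have := im_clo (cl_good (cl_optF C.gG.cl)) (XCl_nat C) (t := oext (um g) c) hg
    rw [ho]
    exact this
  have h3 := V.cl_sp (isCl_clo _) h2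
  rw [XCl_set] at h3
  have h4 : Orb () V.κ (V.sp o) := by
    have hS : Good (fun Ω _ _ x =>
        clo {w | ∃ g, ∃ c : k, C.G k g ∧ w = c • (C.α k g *ᵥ C.v)} Ω x ∧ coneS ∅ Ω x : Fam k N) :=
      (cl_good (isCl_clo _)).and (lcl_coneS ∅).good
    obtain ⟨_, h⟩ := cover hS (O := Orb) (fun _ => hO'.lc) (fun x hx => by
      obtain ⟨g, c, hg, rfl⟩ := C.cone x hx.1
      refine ⟨(), (hO'.iff k _).2 ⟨g, c, hg, ?_, ?_⟩⟩
      · rintro rfl
        exact hx.2.2 (zero_smul _ _)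
      · rw [cm_one, Matrix.mul_one, Core.pt, cv_self]) (x := V.sp o)
      ⟨h3, fun _ h => absurd h (Set.notMem_empty _), h0⟩
    exact h
  obtain ⟨h, c₀, hh, hu, e⟩ := hO'.hl V o h1 h4
  exact ⟨h, c₀, hh, hu, by rwa [cm_one, Matrix.mul_one] at e⟩

/-- If f vanishes at all c • C.pt g, so do its homogeneous components, as k is infinite. -/
theorem Core.on_clo {Ω : Type} [Field Ω] [Algebra k Ω] {z : N → Ω} (h : On C.eqs z) :
    clo {w | ∃ t, optF C.Yh.fam k t ∧ w = t none • C.pt (mat fun c => t (some c))} Ω z := by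
  intro f hf
  rw [← sum_homogeneousComponent f, map_sum]
  refine Finset.sum_eq_zero fun d _ => h _ ⟨⟨d, homogeneousComponent_isHomogeneous d f⟩, ?_⟩
  intro g hg
  rw [← coe_aeval_eq_eval]
  refine XCl_comp f (C.pt g) (fun c => ?_) d
  exact (mem_vanishingIdeal_iff.1 hf) _ ⟨oext (um g) c, hg, rfl⟩

/-- From right to left use cl_imp. From left to right use on_clo, clo_im, spec, imac
over V.Ω, hl_G, Yh_line, and imac over Ω. -/
theorem Core.xc_iff {Ω : Type} [Field Ω] [Algebra k Ω] [IsAlgClosed Ω] (z : N → Ω) :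
    C.XC Ω z ↔ ∃ g, ∃ c : Ω, C.Yh Ω g ∧ c ≠ 0 ∧ z = c • C.pt g := by
  constructor
  · rintro ⟨h1, h0⟩
    obtain ⟨Ω', _, _, t, ht, hle⟩ := clo_im (cl_optF C.cl_Yh) (XCl_nat C) (C.on_clo h1)
    obtain ⟨V, o, e1, e2⟩ := spec hle
    obtain ⟨t', ht', e3⟩ := imac (cl_good (cl_optF C.cl_Yh)) (XCl_nat C) (x := V.gen o)
      ⟨Ω', _, _, t, ht, e1.symm⟩
    have hs : V.sp o ≠ 0 := XCl_ne e2.le h0
    have hY : C.Yh V.Ω (mat fun c => t' (some c)) := ht'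
    obtain ⟨g₀, c₀, hg₀, hc₀, e4⟩ := C.hl_G V hY.1 e3.symm hs
    have hπ : V.π c₀ ≠ 0 := (V.unit_iff c₀).1 hc₀
    have e5 : V.gen o = V.i c₀ • C.pt (g₀.map V.i) := by
      rw [e4, V.gen_smul, ← C.pt_map V.i g₀]
      rfl
    have e6 : V.sp o = V.π c₀ • C.pt (g₀.map V.π) := by
      rw [e4, V.sp_smul, ← C.pt_map V.π g₀]
      rfl
    have h5 : C.Yh V.Ω (g₀.map V.i) := C.Yh_line hY hg₀ (V.gen_ne hπ) (e3.trans e5)
    have h6 : C.Yh V.κ (g₀.map V.π) := V.cl_sp C.cl_Yh (o := um g₀) h5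
    obtain ⟨t'', ht'', e7⟩ := imac (good_optN (cl_good C.cl_Yh)) (XCl_nat C) (x := z)
      ⟨V.κ, inferInstance, inferInstance, oext (um (g₀.map V.π)) (V.π c₀), ⟨h6, hπ⟩,
        (congrArg (ak k) e6).symm.trans e2⟩
    exact ⟨_, t'' none, ht''.1, ht''.2, e7.symm⟩
  · rintro ⟨g, c, hg, hc, rfl⟩
    refine ⟨(on_smul C.homog hc _).2 fun f hf => ?_, smul_ne_zero hc (C.pt_ne hg.1)⟩
    refine cl_imp (cl_good C.cl_Yh)
      (isCl_eq (natF_aeval (C.nat_pt natV_mat') f) natF_zero') (fun x hx => ?_) (x := um g) hg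
    have := hf.2 _ hx
    rwa [← coe_aeval_eq_eval] at this

theorem Core.xc_stab : (Act.lin C.ρ).Stab C.XC := by
  refine stab_of_ac C.lcl_XC.ext fun γ Ω _ _ _ z hz => ?_
  obtain ⟨g, c, hg, hc, rfl⟩ := (C.xc_iff z).1 hz
  exact (C.xc_iff _).2 ⟨_, c, C.Yh_γ γ hg, hc, by rw [XCl_lin, C.pt_γ γ hg.1]⟩

theorem Core.cy_iff {y : Matrix ι ι k} (hy : C.G k y) {Orb : Fam k N} (hO : C.Orb1 C.H y Orb)
    {Ω : Type} [Field Ω] [Algebra k Ω] [IsAlgClosed Ω] (z : N → Ω) :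
    C.CY Orb Ω z ↔ ∃ h, ∃ c : Ω, C.Q y Ω h ∧ c ≠ 0 ∧ z = c • C.pt (h * cm Ω y) := by
  constructor
  · rintro ⟨h1, h2⟩
    obtain ⟨g, c, hg, -, e⟩ := (C.xc_iff z).1 h1
    obtain ⟨h, c', hh, hc', e'⟩ := (hO.iff Ω z).1 h2
    refine ⟨h, c', ⟨hh, C.Yh_line hg ?_ hc' (e.symm.trans e')⟩, hc', e'⟩
    exact C.gG.mul Ω _ _ (C.HG Ω _ hh) ((C.gG.cm_iff y).2 hy)
  · rintro ⟨h, c, hh, hc, e⟩
    exact ⟨(C.xc_iff z).2 ⟨_, c, hh.2, hc, e⟩, (hO.iff Ω z).2 ⟨h, c, hh.1, hc, e⟩⟩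

theorem Core.cy_stab {y : Matrix ι ι k} (hy : C.G k y) {Orb : Fam k N} (hO : C.Orb1 C.H y Orb) :
    (Act.lin C.ρ).Stab (C.CY Orb) := by
  refine stab_of_ac (C.lcl_XC.and hO.lc).ext fun γ Ω _ _ _ z hz => ?_
  obtain ⟨h, c, hh, hc, rfl⟩ := (C.cy_iff hy hO z).1 hz
  refine (C.cy_iff hy hO _).2 ⟨cm Ω (C.γm γ) * h, c, ⟨?_, ?_⟩, hc, ?_⟩
  · exact C.gH.mul Ω _ _ ((C.gH.cm_iff _).2 (C.γH γ)) hh.1
  · rw [Matrix.mul_assoc]
    exact C.Yh_γ γ hh.2
  · rw [XCl_lin, Matrix.mul_assoc, C.pt_γ γ hh.2.1]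

end Pool.Agent.MP_a9d3bd_s.W
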